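import Pool.Agent.H89.L.Y116_UV_Defs

/-!
# Matrices with prescribed zeros: definitions
-/

set_option autoImplicit false

open CategoryTheory AlgebraicGeometry MvPolynomial Pool.Agent.Y116.UV

namespace Pool.Agent.H57.ZP

/-- The square matrix with zeros at the places in `Z` and with independent variables at all other
places. -/
noncomputable def genMat (k : Type) [CommRing k] {n : ℕ} (Z : Finset (Fin n × Fin n)) :
    Matrix (Fin n) (Fin n) (MvPolynomial {x : Fin n × Fin n // x ∉ Z} k) :=
  Matrix.of fun i j => if h : (i, j) ∉ Z then X ⟨(i, j), h⟩ else 0

/-- The scheme of the invertible matrices with zeros at the places in `Z`: the principal open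
subscheme `det ≠ 0` of the affine space of the matrices with zeros at the places in `Z`. -/
noncomputable def glS (k : Type) [CommRing k] {n : ℕ} (Z : Finset (Fin n × Fin n)) : Sch k :=
  aff k (Localization.Away (genMat k Z).det)

/-- The ideal generated by the variables at the places in `Z` and by the minors of size four. -/
noncomputable def rkI (k : Type) [CommRing k] {m n : ℕ} (Z : Finset (Fin m × Fin n)) :
    Ideal (MvPolynomial (Fin m × Fin n) k) :=
  Ideal.span ({f | ∃ x ∈ Z, f = X x} ∪ {f | ∃ (α : Fin 4 → Fin m) (β : Fin 4 → Fin n),
    f = Matrix.det (Matrix.of fun i j => X (α i, β j))})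

/-- The scheme of the matrices of rank at most three with zeros at the places in `Z`. -/
noncomputable def rkS (k : Type) [CommRing k] {m n : ℕ} (Z : Finset (Fin m × Fin n)) : Sch k :=
  aff k (MvPolynomial (Fin m × Fin n) k ⧸ rkI k Z)

end Pool.Agent.H57.ZP
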