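import Pool.Agent.H57.ZP.KDefs
import Pool.Agent.H57.ZP.Defs

/-!
# At most three elements in each row and each column: definitions
-/

set_option autoImplicit false

namespace Pool.Agent.H57.ZP

/-- In each row and in each column of the partial matrix `Z`, all places except for at most three have the
prescribed element zero. -/
def Three {k : Type} [CommRing k] {n : ℕ} (Z : Fin n → Fin n → Option k) : Prop :=
  (∀ i, ∃ s : Finset (Fin n), s.card ≤ 3 ∧ ∀ j, j ∉ s → Z i j = some 0) ∧
    ∀ j, ∃ s : Finset (Fin n), s.card ≤ 3 ∧ ∀ i, i ∉ s → Z i j = some 0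

/-- In each row and in each column all places except for at most three belong to `Z`. -/
def ThreeZ {n : ℕ} (Z : Finset (Fin n × Fin n)) : Prop :=
  (∀ i, ∃ s : Finset (Fin n), s.card ≤ 3 ∧ ∀ j, j ∉ s → (i, j) ∈ Z) ∧
    ∀ j, ∃ s : Finset (Fin n), s.card ≤ 3 ∧ ∀ i, i ∉ s → (i, j) ∈ Z

end Pool.Agent.H57.ZP
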