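import Pool.Agent.H57.ZP.Deg
import Pool.Agent.H57.ZP.ThreeDefs

/-!
# At most three elements in each row and each column
-/

set_option autoImplicit false

open CategoryTheory AlgebraicGeometry MvPolynomial Pool.Agent.Y116.UV Pool.Agent.Z125.UN Matrix

namespace Pool.Agent.H57.ZP

variable {R : Type} [CommRing R] {sep : Prop} {P : Sch R → Prop}

lemma cd_equiv {K L : Type} [Fintype K] [Fintype L] (e : L ≃ K) (Z : K → K → Prop) (b : L) :
    cd (fun a b => Z (e a) (e b)) b = cd Z (e b) :=
  Fintype.sum_equiv e _ _ fun _ => rfl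

lemma rd_equiv {K L : Type} [Fintype K] [Fintype L] (e : L ≃ K) (Z : K → K → Prop) (a : L) :
    rd (fun a b => Z (e a) (e b)) a = rd Z (e a) :=
  Fintype.sum_equiv e _ _ fun _ => rfl

/-- reindexing -/
lemma gl_equiv (hP : Bnd sep P) {K L : Type} [Fintype K] [DecidableEq K] [Fintype L]
    [DecidableEq L] (e : K ≃ L) (Z : K → K → Prop)
    (h : Has P (GLc R L fun a b => Z (e.symm a) (e.symm b))) : Has P (GLc R K Z) := by
  have hdet : ∀ (C : Type) [CommRing C] (u : K × K → C),
      (Matrix.det fun a b => u (e.symm a, e.symm b)) = Matrix.det fun a b => u (a, b) :=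
    fun C _ u => Matrix.det_submatrix_equiv_self e.symm fun a b => u (a, b)
  refine h.iso hP (rep_GLc K Z) (fun x => X (e.symm x.1, e.symm x.2)) ?_ ?_ ?_
  · intro C _ _ u hu
    simp only [aeval_X]
    refine ⟨fun a b hab => hu.1 _ _ hab, ?_⟩
    change IsUnit (Matrix.det fun a b => u (e.symm a, e.symm b))
    rw [hdet]
    exact hu.2
  · intro C _ _ u hu
    refine ⟨fun x => u (e x.1, e x.2), ⟨fun a b hab => hu.1 _ _ ?_, ?_⟩, fun x => ?_⟩
    · simpa using hab
    · rw [← hdet C fun x => u (e x.1, e x.2)]
      simpa using hu.2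
    · simp
  · intro C _ _ u u' _ _ h3
    funext x
    simpa using h3 (e x.1, e x.2)

/-- **Invertible matrices with prescribed zeros, at most three other places in each row and each
column.** -/
theorem universal_gl3 [IsNoetherianRing R] (hR : Pool.Agent.Q193.LT.Frac R) (hP : Bnd sep P)
    (h : ∀ (n : ℕ) (Z : Finset (Fin n × Fin n)), ThreeZ Z → P (glS R Z)) (X : Sch R)
    (hX : FT sep X) : P X := by
  classical
  refine all_of_gl hR hP (fun n Z => gl_of_three hP (fun K _ _ Z hc hr => ?_) (Fin n) Z) X hX
  let e := Fintype.equivFin K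
  refine gl_equiv hP e Z ((has_gl hP _ (h (Fintype.card K)
    (Finset.univ.filter fun x => Z (e.symm x.1) (e.symm x.2)) ⟨fun i => ?_, fun j => ?_⟩)).congr
    fun C _ _ u => ?_)
  · have h1 := hr (e.symm i)
    rw [← rd_equiv e.symm Z, rd_card] at h1
    refine ⟨_, h1, fun j hj => ?_⟩
    by_contra h2
    exact hj (Finset.mem_filter.mpr ⟨Finset.mem_univ _, fun h3 => h2 (Finset.mem_filter.mpr
      ⟨Finset.mem_univ _, h3⟩)⟩)
  · have h1 := hc (e.symm j)
    rw [← cd_equiv e.symm Z, cd_card] at h1
    refine ⟨_, h1, fun i hi => ?_⟩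
    by_contra h2
    exact hi (Finset.mem_filter.mpr ⟨Finset.mem_univ _, fun h3 => h2 (Finset.mem_filter.mpr
      ⟨Finset.mem_univ _, h3⟩)⟩)
  · unfold GLc
    simp only [Finset.mem_filter, Finset.mem_univ, true_and]

/-! ### Partial matrices -/

section partialMatrices

variable {K : Type} [Fintype K] [DecidableEq K]

open Classical in
/-- the partial matrix after the splitting of the column `q` -/
noncomputable def SK (Z : K × K → Option R) (q : K) (S : K → Prop) :
    (K ⊕ Unit) × (K ⊕ Unit) → Option R
  | (.inl a, .inl b) => if b = q ∧ ¬ S a then some 0 else Z (a, b)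
  | (.inl a, .inr _) => if S a then some 0 else Z (a, q)
  | (.inr _, .inl b) => if b = q then some 1 else some 0
  | (.inr _, .inr _) => some (-1)

/-- the splitting of a column -/
lemma glk_split (hP : Bnd sep P) (Z : K × K → Option R) (q : K) (S : K → Prop)
    (h : Has P (GLk (K ⊕ Unit) (SK Z q S))) : Has P (GLk K Z) := by
  classical
  let p : (K ⊕ Unit) × (K ⊕ Unit) → MvPolynomial (K × K) R := fun x =>
    SP q S (-1) 1 (fun a b => X (a, b)) x.1 x.2
  have hp' : ∀ (C : Type) [CommRing C] [Algebra R C] (u : K × K → C)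
      (x : (K ⊕ Unit) × (K ⊕ Unit)), aeval u (p x) = SP q S (-1) 1 (fun a b => u (a, b)) x.1 x.2 := by
    intro C _ _ u x
    have h1 := map_SP (aeval u : MvPolynomial (K × K) R →ₐ[R] C).toRingHom
      q S (-1) 1 (fun a b => X (a, b)) x.1 x.2
    refine h1.trans ?_
    congr 1
    · exact (map_neg _ _).trans (congrArg _ (map_one _))
    · exact map_one _
    · funext a b
      exact aeval_X _ _
  refine h.iso hP (rep_GLk K Z) p ?_ ?_ ?_
  · rintro C _ _ u ⟨hu, hd⟩
    refine ⟨?_, ?_⟩
    · rintro ⟨a | a, b | b⟩ c hc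
      · refine (hp' C u _).trans ?_
        change (if b = q ∧ ¬ S a then some 0 else Z (a, b)) = some c at hc
        change (if b = q ∧ ¬ S a then 0 else u (a, b)) = _
        split_ifs with h1
        · rw [if_pos h1] at hc
          rw [← Option.some.inj hc, map_zero]
        · rw [if_neg h1] at hc
          exact hu _ _ hc
      · refine (hp' C u _).trans ?_
        change (if S a then some 0 else Z (a, q)) = some c at hc
        change (if S a then 0 else -(-1 * u (a, q))) = _
        split_ifs with h1
        · rw [if_pos h1] at hc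
          rw [← Option.some.inj hc, map_zero]
        · rw [if_neg h1] at hc
          rw [neg_one_mul, neg_neg]
          exact hu _ _ hc
      · refine (hp' C u _).trans ?_
        change (if b = q then some 1 else some 0) = some c at hc
        change (if b = q then 1 else 0) = _
        split_ifs with h1
        · rw [if_pos h1] at hc
          rw [← Option.some.inj hc, map_one]
        · rw [if_neg h1] at hc
          rw [← Option.some.inj hc, map_zero]
      · refine (hp' C u _).trans ?_
        change some (-1) = some c at hc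
        change (-1 : C) * 1 = _
        rw [← Option.some.inj hc, map_neg, map_one, mul_one]
    · change IsUnit (Matrix.det fun a b => aeval u (p (a, b)))
      simp only [hp']
      change IsUnit (SP q S _ _ _).det
      rw [det_SP, mul_one, neg_one_mul]
      exact hd.neg
  · rintro C _ _ N ⟨hN, hd⟩
    have e1 : ∀ b, b ≠ q → N (Sum.inr (), Sum.inl b) = 0 := fun b hb => by
      have h1 := hN (Sum.inr (), Sum.inl b) 0 (if_neg hb)
      rwa [map_zero] at h1
    have e2 : N (Sum.inr (), Sum.inl q) = 1 := by
      have h1 := hN (Sum.inr (), Sum.inl q) 1 (if_pos rfl)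
      rwa [map_one] at h1
    have e3 : N (Sum.inr (), Sum.inr ()) = -1 := by
      have h1 := hN (Sum.inr (), Sum.inr ()) (-1) rfl
      rwa [map_neg, map_one] at h1
    have e4 : ∀ a, ¬ S a → N (Sum.inl a, Sum.inl q) = 0 := fun a ha => by
      have h1 := hN (Sum.inl a, Sum.inl q) 0 (if_pos ⟨rfl, ha⟩)
      rwa [map_zero] at h1
    have e5 : ∀ a, S a → N (Sum.inl a, Sum.inr ()) = 0 := fun a ha => by
      have h1 := hN (Sum.inl a, Sum.inr ()) 0 (if_pos ha)
      rwa [map_zero] at h1
    let u : K × K → C := fun x => if x.2 = q ∧ ¬ S x.1 then N (Sum.inl x.1, Sum.inr ())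
        else N (Sum.inl x.1, Sum.inl x.2)
    have hpu : ∀ x, aeval u (p x) = N x := by
      rintro ⟨a, b⟩
      rw [hp']
      rcases a with a | a
      · rcases b with b | b
        · change (if b = q ∧ ¬ S a then 0 else if b = q ∧ ¬ S a then _ else
            N (Sum.inl a, Sum.inl b)) = _
          split_ifs with h1
          · rw [h1.1, e4 a h1.2]
          · rfl
        · change (if S a then 0 else -(-1 *
            (if q = q ∧ ¬ S a then N (Sum.inl a, Sum.inr ())
            else N (Sum.inl a, Sum.inl q)))) = _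
          split_ifs with h1 h2
          · exact (e5 a h1).symm
          · rw [neg_one_mul, neg_neg]
          · exact absurd ⟨rfl, h1⟩ h2
      · rcases b with b | b
        · change (if b = q then 1 else 0) = _
          split_ifs with h1
          · rw [h1]
            exact e2.symm
          · exact (e1 b h1).symm
        · change (-1 : C) * 1 = _
          rw [mul_one]
          exact e3.symm
    refine ⟨u, ⟨fun x c hx => ?_, ?_⟩, hpu⟩
    · change (if x.2 = q ∧ ¬ S x.1 then _ else _) = _
      split_ifs with h1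
      · refine hN (Sum.inl x.1, Sum.inr ()) c ?_
        change (if S x.1 then some 0 else Z (x.1, q)) = _
        rw [if_neg h1.2, ← h1.1]
        exact hx
      · refine hN (Sum.inl x.1, Sum.inl x.2) c ?_
        change (if x.2 = q ∧ ¬ S x.1 then some 0 else Z (x.1, x.2)) = _
        rw [if_neg h1]
        exact hx
    · have h1 : (SP q S (-1) 1 (fun a b => u (a, b))) = fun a b => N (a, b) := by
        funext a b
        exact (hp' C u (a, b)).symm.trans (hpu (a, b))
      have h2 := det_SP q S (-1) 1 (fun a b => u (a, b))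
      rw [h1, mul_one, neg_one_mul] at h2
      have h3 : IsUnit (-(Matrix.det fun a b => u (a, b))) := by
        rw [← h2]
        exact hd
      simpa using h3
  · intro C _ _ u u' hu hu' h3
    have h4 : ∀ x : (K ⊕ Unit) × (K ⊕ Unit), SP q S (-1) 1 (fun a b => u (a, b)) x.1 x.2 =
        SP q S (-1) 1 (fun a b => u' (a, b)) x.1 x.2 := fun x => by
      rw [← hp', ← hp', h3]
    funext x
    rcases x with ⟨a, b⟩
    by_cases h1 : b = q ∧ ¬ S a
    · obtain ⟨rfl, h2⟩ := h1
      have h5 := h4 (Sum.inl a, Sum.inr ())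
      change (if S a then 0 else -(-1 * u _)) = if S a then 0 else -(-1 * u' _) at h5
      rw [if_neg h2, if_neg h2] at h5
      simpa using h5
    · have h5 := h4 (Sum.inl a, Sum.inl b)
      change (if b = q ∧ ¬ S a then 0 else u _) = if b = q ∧ ¬ S a then 0 else u' _ at h5
      rwa [if_neg h1, if_neg h1] at h5

/-- the zeros of a partial matrix -/
def Zo (Z : K × K → Option R) : K → K → Prop := fun a b => Z (a, b) = some 0

omit [Fintype K] in
lemma SZ_SK (Z : K × K → Option R) (q : K) (S : K → Prop) (a b : K ⊕ Unit)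
    (h : SZ (Zo Z) q S a b) : Zo (SK Z q S) a b := by
  classical
  rcases a with a | a
  · rcases b with b | b
    · change (if b = q ∧ ¬ S a then some 0 else Z (a, b)) = some 0
      rcases h with h | h
      · split_ifs
        · rfl
        · exact h
      · exact if_pos h
    · change (if S a then some 0 else Z (a, q)) = some 0
      rcases h with h | h
      · split_ifs
        · rfl
        · exact h
      · exact if_pos h
  · rcases b with b | b
    · exact if_neg h
    · exact h.elim

/-- Splitting of the columns, with a bound `ρ` for the rows. -/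
theorem split_colsK (hP : Bnd sep P) (ρ : ℕ → Prop) (h2 : ρ 2) (hρ : ∀ m n, m ≤ n → ρ n → ρ m)
    (h : ∀ (K : Type) [Fintype K] [DecidableEq K] (Z : K × K → Option R),
      (∀ b, cd (Zo Z) b ≤ 3) → (∀ a, ρ (rd (Zo Z) a)) → Has P (GLk K Z)) :
    ∀ (e : ℕ) (K : Type) [Fintype K] [DecidableEq K] (Z : K × K → Option R), exc (Zo Z) ≤ e →
      (∀ a, ρ (rd (Zo Z) a)) → Has P (GLk K Z) := by
  classical
  intro e
  induction e with
  | zero =>
    intro K _ _ Z he hr
    refine h K Z (fun b => ?_) hr
    have h1 : cd (Zo Z) b - 3 ≤ exc (Zo Z) :=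
      Finset.single_le_sum (f := fun b => cd (Zo Z) b - 3) (fun _ _ => Nat.zero_le _)
        (Finset.mem_univ b)
    omega
  | succ e ih =>
    intro K _ _ Z he hr
    by_cases hc : ∀ b, cd (Zo Z) b ≤ 3
    · exact h K Z hc hr
    · push Not at hc
      obtain ⟨q, hq⟩ := hc
      obtain ⟨S, hS⟩ := exists_two (Zo Z) q (by omega)
      have hex := exc_split (Zo Z) q S hq hS
      refine glk_split hP Z q S (ih (K ⊕ Unit) (SK Z q S) ?_ ?_)
      · have h4 := exc_mono (SZ_SK Z q S)
        omega
      · rintro (a | a)
        · exact hρ _ _ ((rd_mono _ fun b => SZ_SK Z q S _ b).trans (rd_split (Zo Z) q S a)) (hr a)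
        · exact hρ _ _ ((rd_mono _ fun b => SZ_SK Z q S _ b).trans
            (rd_split' (Zo Z) q S a).le) h2

/-- transposition -/
lemma glk_transpose (hP : Bnd sep P) {K : Type} [Fintype K] [DecidableEq K]
    {Z : K × K → Option R} (h : Has P (GLk K fun x => Z (x.2, x.1))) : Has P (GLk K Z) := by
  refine h.iso hP (rep_GLk K Z) (fun x => X (x.2, x.1)) ?_ ?_ ?_
  · intro C _ _ u hu
    simp only [aeval_X]
    refine ⟨fun x c hx => hu.1 (x.2, x.1) c hx, ?_⟩
    have h1 : (Matrix.det fun a b => u (b, a)) = Matrix.det fun a b => u (a, b) :=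
      Matrix.det_transpose (Matrix.of fun a b => u (a, b))
    change IsUnit (Matrix.det fun a b => u (b, a))
    rw [h1]
    exact hu.2
  · intro C _ _ u hu
    refine ⟨fun x => u (x.2, x.1), ⟨fun x c hx => hu.1 (x.2, x.1) c hx, ?_⟩,
      fun x => by rw [aeval_X]⟩
    have h1 : (Matrix.det fun a b => u (b, a)) = Matrix.det fun a b => u (a, b) :=
      Matrix.det_transpose (Matrix.of fun a b => u (a, b))
    change IsUnit (Matrix.det fun a b => u (b, a))
    rw [h1]
    exact hu.2
  · intro C _ _ u u' _ _ h3
    funext x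
    simpa only [aeval_X] using h3 (x.2, x.1)

/-- **At most three elements in each row and each column.** -/
theorem glk_of_three (hP : Bnd sep P)
    (h : ∀ (K : Type) [Fintype K] [DecidableEq K] (Z : K × K → Option R),
      (∀ b, cd (Zo Z) b ≤ 3) → (∀ a, rd (Zo Z) a ≤ 3) → Has P (GLk K Z)) (K : Type) [Fintype K]
    [DecidableEq K] (Z : K × K → Option R) : Has P (GLk K Z) := by
  have h1 : ∀ (K : Type) [Fintype K] [DecidableEq K] (Z : K × K → Option R),
      (∀ b, cd (Zo Z) b ≤ 3) → Has P (GLk K Z) := by
    intro K _ _ Z hZ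
    refine glk_transpose hP (split_colsK hP (fun n => n ≤ 3) (by norm_num)
      (fun m n hmn hn => hmn.trans hn) (fun K _ _ Z hc hr => h K Z hc hr) _ K
      (fun x => Z (x.2, x.1)) le_rfl fun a => ?_)
    exact hZ a
  exact split_colsK hP (fun _ => True) trivial (fun _ _ _ _ => trivial)
    (fun K _ _ Z hc _ => h1 K Z hc) _ K Z le_rfl fun _ => trivial

end partialMatrices

/-- reindexing -/
lemma glk_equiv (hP : Bnd sep P) {K L : Type} [Fintype K] [DecidableEq K] [Fintype L]
    [DecidableEq L] (e : K ≃ L) (Z : K × K → Option R)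
    (h : Has P (GLk L fun x => Z (e.symm x.1, e.symm x.2))) : Has P (GLk K Z) := by
  have hdet : ∀ (C : Type) [CommRing C] (u : K × K → C),
      (Matrix.det fun a b => u (e.symm a, e.symm b)) = Matrix.det fun a b => u (a, b) :=
    fun C _ u => Matrix.det_submatrix_equiv_self e.symm fun a b => u (a, b)
  refine h.iso hP (rep_GLk K Z) (fun x => X (e.symm x.1, e.symm x.2)) ?_ ?_ ?_
  · intro C _ _ u hu
    simp only [aeval_X]
    refine ⟨fun x c hx => hu.1 _ _ hx, ?_⟩
    change IsUnit (Matrix.det fun a b => u (e.symm a, e.symm b))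
    rw [hdet]
    exact hu.2
  · intro C _ _ u hu
    refine ⟨fun x => u (e x.1, e x.2), ⟨fun x c hx => hu.1 _ _ ?_, ?_⟩, fun x => ?_⟩
    · simpa using hx
    · rw [← hdet C fun x => u (e x.1, e x.2)]
      simpa using hu.2
    · simp
  · intro C _ _ u u' _ _ h3
    funext x
    simpa using h3 (e x.1, e x.2)

/-- **Invertible completions of partial matrices with at most three places without a prescribed zero in
each row and each column.** -/
theorem universal_glC3 [IsNoetherianRing R] (hP : Bnd sep P)
    (h : ∀ (n : ℕ) (Z : Fin n → Fin n → Option R), Three Z → P (glC Z))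
    (X : Sch R) (hX : FT sep X) : P X := by
  classical
  refine all_of_coreK hP (coreK_of_gl hP fun n Z => glk_of_three hP (fun K _ _ Z hc hr => ?_)
    (Fin n) Z) X hX
  let e := Fintype.equivFin K
  refine glk_equiv hP e Z (has_glC hP (fun i j => Z (e.symm i, e.symm j)) (h (Fintype.card K) _
    ⟨fun i => ?_, fun j => ?_⟩))
  · have h1 := hr (e.symm i)
    rw [← rd_equiv e.symm (Zo Z), rd_card] at h1
    refine ⟨_, h1, fun j hj => ?_⟩
    by_contra h2
    exact hj (Finset.mem_filter.mpr ⟨Finset.mem_univ _, h2⟩)
  · have h1 := hc (e.symm j)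
    rw [← cd_equiv e.symm (Zo Z), cd_card] at h1
    refine ⟨_, h1, fun i hi => ?_⟩
    by_contra h2
    exact hi (Finset.mem_filter.mpr ⟨Finset.mem_univ _, h2⟩)

end Pool.Agent.H57.ZP
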