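import Pool.Agent.H89.L.Y116_UV_Defs

/-!
# Completions of partial matrices: definitions

A partial matrix `Z` has at some places elements of `k`, which are prescribed (`Z i j = some c`), and no
element at the other places (`Z i j = none`).
-/

set_option autoImplicit false

open CategoryTheory AlgebraicGeometry MvPolynomial Pool.Agent.Y116.UV

namespace Pool.Agent.H57.ZP

/-- The completion of the partial square matrix `Z` by independent variables. -/
noncomputable def fillMat {k : Type} [CommRing k] {n : ℕ} (Z : Fin n → Fin n → Option k) :
    Matrix (Fin n) (Fin n) (MvPolynomial {x : Fin n × Fin n // Z x.1 x.2 = none} k) :=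
  Matrix.of fun i j => if h : Z i j = none then X ⟨(i, j), h⟩ else C ((Z i j).getD 0)

/-- The scheme of the invertible completions of the partial square matrix `Z`: the principal open
subscheme `det ≠ 0` of the affine space of all completions. -/
noncomputable def glC {k : Type} [CommRing k] {n : ℕ} (Z : Fin n → Fin n → Option k) : Sch k :=
  aff k (Localization.Away (fillMat Z).det)

/-- The ideal generated by `x_ij - c` for the prescribed elements `c` of the partial matrix `Z` and by
the minors of size four of the matrix `(x_ij)`. -/
noncomputable def rkIC {k : Type} [CommRing k] {m n : ℕ} (Z : Fin m → Fin n → Option k) :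
    Ideal (MvPolynomial (Fin m × Fin n) k) :=
  Ideal.span ({f | ∃ i j c, Z i j = some c ∧ f = X (i, j) - C c} ∪
    {f | ∃ (α : Fin 4 → Fin m) (β : Fin 4 → Fin n),
      f = Matrix.det (Matrix.of fun i j => X (α i, β j))})

/-- The scheme of the completions of rank at most three of the partial matrix `Z`. -/
noncomputable def rkC {k : Type} [CommRing k] {m n : ℕ} (Z : Fin m → Fin n → Option k) : Sch k :=
  aff k (MvPolynomial (Fin m × Fin n) k ⧸ rkIC Z)

end Pool.Agent.H57.ZP
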