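import Pool.Agent.H57.ZP.Rank
import Pool.Agent.H57.ZP.Defs

/-!
# Matrices with prescribed zeros are universal
-/

set_option autoImplicit false

open CategoryTheory AlgebraicGeometry MvPolynomial Pool.Agent.Y116.UV Pool.Agent.Z125.UN

namespace Pool.Agent.H57.ZP

section loc

variable {R : Type} [CommRing R] {σ : Type} (f : MvPolynomial σ R)

/-- no equations -/
noncomputable def noG (σ R : Type) [CommRing R] (k : Empty) : MvPolynomial σ R := k.elim

/-- to the piece -/
noncomputable def locF : Localization.Away f →ₐ[R] Pc (noG σ R) f :=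
  IsLocalization.liftAlgHom (M := Submonoid.powers f) (f := pc (noG σ R) f) (by
    rintro ⟨_, k, rfl⟩
    change IsUnit (pc (noG σ R) f (f ^ k))
    rw [map_pow]
    exact (pc_unit _ _).pow k)

/-- from the piece -/
noncomputable def locG : Pc (noG σ R) f →ₐ[R] Localization.Away f :=
  pcLift _ _ (fun s => algebraMap (MvPolynomial σ R) (Localization.Away f) (X s))
    (fun k => k.elim) (by
      have h : aeval (fun s => algebraMap (MvPolynomial σ R) (Localization.Away f) (X s)) f =
          algebraMap (MvPolynomial σ R) (Localization.Away f) f := by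
        have h1 := comp_aeval_apply (R := R) (X : σ → MvPolynomial σ R)
          (IsScalarTower.toAlgHom R (MvPolynomial σ R) (Localization.Away f)) f
        rw [aeval_X_left_apply] at h1
        exact h1.symm
      rw [h]
      exact IsLocalization.map_units (M := Submonoid.powers f) (Localization.Away f)
        ⟨f, Submonoid.mem_powers f⟩)

/-- principal open subschemes of affine spaces as pieces -/
noncomputable def locE : Localization.Away f ≃ₐ[R] Pc (noG σ R) f :=
  AlgEquiv.ofAlgHom (locF f) (locG f)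
    (by
      apply pc_ext
      intro s
      rw [AlgHom.comp_apply, locG, pcLift_pv, locF, IsLocalization.liftAlgHom_apply,
        IsLocalization.lift_eq]
      rfl)
    (by
      apply IsLocalization.algHom_ext (Submonoid.powers f)
      apply MvPolynomial.algHom_ext
      intro s
      change locG f (locF f (algebraMap _ _ (X s))) = algebraMap _ _ (X s)
      rw [locF, IsLocalization.liftAlgHom_apply, IsLocalization.lift_eq]
      change locG f (pv (noG σ R) f s) = _
      rw [locG, pcLift_pv])

end loc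

variable {R : Type} [CommRing R] {sep : Prop} {P : Sch R → Prop}

lemma has_gl (hP : Bnd sep P) {n : ℕ} (Z : Finset (Fin n × Fin n)) (h : P (glS R Z)) :
    Has P (GLc R (Fin n) fun i j => (i, j) ∈ Z) := by
  have hft : Algebra.FiniteType R (Localization.Away (genMat R Z).det) :=
    Algebra.FiniteType.trans (S := MvPolynomial {x : Fin n × Fin n // x ∉ Z} R) inferInstance
      inferInstance
  have h1 : P (aff R (Pc (noG {x : Fin n × Fin n // x ∉ Z} R) (genMat R Z).det)) :=
    iso_alg hP.toUni (locE _) h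
  have hdet : ∀ (C : Type) [CommRing C] [Algebra R C] (u : {x : Fin n × Fin n // x ∉ Z} → C),
      aeval u (genMat R Z).det =
        Matrix.det fun i j => if h : (i, j) ∉ Z then u ⟨(i, j), h⟩ else 0 := by
    intro C _ _ u
    rw [AlgHom.map_det]
    congr 1
    ext i j
    change aeval u (if h : (i, j) ∉ Z then X ⟨(i, j), h⟩ else 0) = _
    split_ifs
    · exact map_zero _
    · exact aeval_X _ _
  have h2 : Has P (R := R) fun C _ _ (u : {x : Fin n × Fin n // x ∉ Z} → C) =>
      IsUnit (Matrix.det fun i j => if h : (i, j) ∉ Z then u ⟨(i, j), h⟩ else 0) := by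
    refine ⟨Empty, noG _ R, (genMat R Z).det, fun C _ _ u => ?_, h1⟩
    unfold Pts
    rw [hdet]
    exact ⟨fun h => ⟨fun k => k.elim, h⟩, fun h => h.2⟩
  refine Has.iso' hP (rep_GLc (Fin n) _) h2 (fun x => if h : x ∉ Z then X ⟨x, h⟩ else 0) ?_ ?_ ?_
  · intro C _ _ u hu
    have hp : ∀ x : Fin n × Fin n, aeval u (if h : x ∉ Z then X ⟨x, h⟩ else 0 :
        MvPolynomial {x : Fin n × Fin n // x ∉ Z} R) = if h : x ∉ Z then u ⟨x, h⟩ else 0 := by
      intro x
      split_ifs
      · exact map_zero _
      · exact aeval_X _ _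
    simp only [hp]
    refine ⟨fun i j hij => ?_, hu⟩
    exact dif_neg (not_not.mpr hij)
  · intro C _ _ u hu
    have hp : ∀ x : Fin n × Fin n, (if h : x ∉ Z then u x else 0) = u x := by
      intro x
      by_cases hx : x ∉ Z
      · rw [dif_pos hx]
      · rw [dif_neg hx]
        exact (hu.1 x.1 x.2 (not_not.mp hx)).symm
    refine ⟨fun x => u x.1, ?_, fun x => ?_⟩
    · change IsUnit (Matrix.det fun i j => if h : (i, j) ∉ Z then u (i, j) else 0)
      simp only [hp]
      exact hu.2
    · refine Eq.trans ?_ (hp x)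
      by_cases hx : x ∉ Z
      · rw [dif_pos hx, dif_pos hx, aeval_X]
      · rw [dif_neg hx, dif_neg hx, map_zero]
  · intro C _ _ u u' _ _ h3
    funext x
    have h4 := h3 x.1
    rw [dif_pos x.2, aeval_X, aeval_X] at h4
    exact h4

lemma has_rk (hP : Bnd sep P) {m n : ℕ} (Z : Finset (Fin m × Fin n)) (h : P (rkS R Z)) :
    Has P (RC R (Fin m) (Fin n) fun i j => (i, j) ∈ Z) := by
  let G : {x // x ∈ Z} ⊕ ((Fin 4 → Fin m) × (Fin 4 → Fin n)) → MvPolynomial (Fin m × Fin n) R :=
    Sum.elim (fun x => X x.1) fun x => Matrix.det (Matrix.of fun i j => X (x.1 i, x.2 j))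
  have hG : rkI R Z = Ideal.span (Set.range G) := by
    rw [rkI]
    congr 1
    ext f
    constructor
    · rintro (⟨x, hx, rfl⟩ | ⟨α, β, rfl⟩)
      · exact ⟨Sum.inl ⟨x, hx⟩, rfl⟩
      · exact ⟨Sum.inr (α, β), rfl⟩
    · rintro ⟨x | x, rfl⟩
      · exact Or.inl ⟨x.1, x.2, rfl⟩
      · exact Or.inr ⟨x.1, x.2, rfl⟩
  unfold rkS at h
  rw [hG] at h
  refine ⟨_, G, 1, fun C _ _ u => ?_, iso_alg hP.toUni (oneE G) h⟩
  constructor
  · rintro ⟨h1, h2⟩
    refine ⟨?_, by rw [map_one]; exact isUnit_one⟩
    rintro (x | x)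
    · exact (aeval_X _ _).trans (h1 x.1.1 x.1.2 x.2)
    · exact (aeval_minor u x.1 x.2).trans (h2 x.1 x.2)
  · rintro ⟨h1, -⟩
    refine ⟨fun a b hab => ?_, fun α β => ?_⟩
    · exact (aeval_X _ _).symm.trans (h1 (Sum.inl ⟨(a, b), hab⟩))
    · exact (aeval_minor u α β).symm.trans (h1 (Sum.inr (α, β)))

/-- **Invertible matrices with prescribed zeros.** -/
theorem universal_gl [IsNoetherianRing R] (hR : Pool.Agent.Q193.LT.Frac R) (hP : Bnd sep P)
    (h : ∀ (n : ℕ) (Z : Finset (Fin n × Fin n)), P (glS R Z)) (X : Sch R) (hX : FT sep X) :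
    P X := by
  classical
  refine all_of_gl hR hP (fun n Z => ?_) X hX
  refine (has_gl hP _ (h n (Finset.univ.filter fun x => Z x.1 x.2))).congr fun C _ _ u => ?_
  unfold GLc
  simp only [Finset.mem_filter, Finset.mem_univ, true_and]

/-- **Matrices of rank at most three with prescribed zeros.** -/
theorem universal_rk [IsNoetherianRing R] (hR : Pool.Agent.Q193.LT.Frac R) (hP : Bnd sep P)
    (h : ∀ (m n : ℕ) (Z : Finset (Fin m × Fin n)), P (rkS R Z)) (X : Sch R) (hX : FT sep X) :
    P X := by
  classical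
  refine all_of_rank hR hP (fun m n Z => ?_) X hX
  refine (has_rk hP _ (h m n (Finset.univ.filter fun x => Z x.1 x.2))).congr fun C _ _ u => ?_
  unfold RC
  simp only [Finset.mem_filter, Finset.mem_univ, true_and]

lemma smooth_gl (k : Type) [CommRing k] {n : ℕ} (Z : Finset (Fin n × Fin n)) :
    Algebra.Smooth k (Localization.Away (genMat k Z).det) := by
  have h1 : Algebra.Smooth k (MvPolynomial {x : Fin n × Fin n // x ∉ Z} k) := {}
  have h2 : Algebra.Smooth (MvPolynomial {x : Fin n × Fin n // x ∉ Z} k)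
      (Localization.Away (genMat k Z).det) :=
    Algebra.Smooth.of_isLocalization_Away (genMat k Z).det
  exact Algebra.Smooth.comp k (MvPolynomial {x : Fin n × Fin n // x ∉ Z} k) _

end Pool.Agent.H57.ZP
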