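import Pool.Agent.H57.ZP.KConf
import Pool.Agent.H57.ZP.KDefs
import Pool.Agent.H57.ZP.Main

/-!
# Completions of partial matrices are universal
-/

set_option autoImplicit false

open CategoryTheory AlgebraicGeometry MvPolynomial Pool.Agent.Y116.UV Pool.Agent.Z125.UN

namespace Pool.Agent.H57.ZP

variable {R : Type} [CommRing R] {sep : Prop} {P : Sch R → Prop}

lemma has_glC (hP : Bnd sep P) {n : ℕ} (Z : Fin n → Fin n → Option R) (h : P (glC Z)) :
    Has P (GLk (Fin n) fun x => Z x.1 x.2) := by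
  have hft : Algebra.FiniteType R (Localization.Away (fillMat Z).det) :=
    Algebra.FiniteType.trans (S := MvPolynomial {x : Fin n × Fin n // Z x.1 x.2 = none} R)
      inferInstance inferInstance
  have h1 : P (aff R (Pc (noG {x : Fin n × Fin n // Z x.1 x.2 = none} R) (fillMat Z).det)) :=
    iso_alg hP.toUni (locE _) h
  have hdet : ∀ (C : Type) [CommRing C] [Algebra R C]
      (u : {x : Fin n × Fin n // Z x.1 x.2 = none} → C),
      aeval u (fillMat Z).det = Matrix.det fun i j =>
        if h : Z i j = none then u ⟨(i, j), h⟩ else algebraMap R C ((Z i j).getD 0) := by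
    intro C _ _ u
    rw [AlgHom.map_det]
    congr 1
    ext i j
    change aeval u (if h : Z i j = none then X ⟨(i, j), h⟩ else
      MvPolynomial.C ((Z i j).getD 0)) = _
    split_ifs
    · exact aeval_X _ _
    · exact aeval_C _ _
  have h2 : Has P (R := R) fun C _ _ (u : {x : Fin n × Fin n // Z x.1 x.2 = none} → C) =>
      IsUnit (Matrix.det fun i j =>
        if h : Z i j = none then u ⟨(i, j), h⟩ else algebraMap R C ((Z i j).getD 0)) := by
    refine ⟨Empty, noG _ R, (fillMat Z).det, fun C _ _ u => ?_, h1⟩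
    unfold Pts
    rw [hdet]
    exact ⟨fun h => ⟨fun k => k.elim, h⟩, fun h => h.2⟩
  let p : Fin n × Fin n → MvPolynomial {x : Fin n × Fin n // Z x.1 x.2 = none} R :=
    fun x => if h : Z x.1 x.2 = none then X ⟨x, h⟩ else C ((Z x.1 x.2).getD 0)
  have hp : ∀ (C : Type) [CommRing C] [Algebra R C]
      (u : {x : Fin n × Fin n // Z x.1 x.2 = none} → C) (x : Fin n × Fin n),
      aeval u (p x) = if h : Z x.1 x.2 = none then u ⟨x, h⟩ else
        algebraMap R C ((Z x.1 x.2).getD 0) := by
    intro C _ _ u x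
    change aeval u (if h : Z x.1 x.2 = none then X ⟨x, h⟩ else
      MvPolynomial.C ((Z x.1 x.2).getD 0)) = _
    split_ifs
    · exact aeval_X _ _
    · exact aeval_C _ _
  refine Has.iso' hP (rep_GLk (Fin n) _) h2 p ?_ ?_ ?_
  · intro C _ _ u hu
    simp only [hp]
    refine ⟨fun x c hx => ?_, hu⟩
    change Z x.1 x.2 = some c at hx
    change (if h : Z x.1 x.2 = none then u ⟨x, h⟩ else algebraMap R C ((Z x.1 x.2).getD 0)) = _
    rw [dif_neg (by rw [hx]; exact Option.some_ne_none c), hx]
    rfl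
  · intro C _ _ u hu
    have hq : ∀ x : Fin n × Fin n, (if h : Z x.1 x.2 = none then u x else
        algebraMap R C ((Z x.1 x.2).getD 0)) = u x := by
      intro x
      split_ifs with hx
      · rfl
      · obtain ⟨c, hc⟩ := Option.ne_none_iff_exists'.mp hx
        rw [hu.1 x c hc, hc]
        rfl
    refine ⟨fun x => u x.1, ?_, fun x => (hp C _ x).trans (hq x)⟩
    have h4 : (fun i j => if h : Z i j = none then u (i, j) else
        algebraMap R C ((Z i j).getD 0)) = fun i j => u (i, j) := by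
      funext i j
      exact hq (i, j)
    change IsUnit (Matrix.det fun i j => if h : Z i j = none then u (i, j) else
        algebraMap R C ((Z i j).getD 0))
    rw [h4]
    exact hu.2
  · intro C _ _ u u' _ _ h3
    funext x
    have h4 := h3 x.1
    rw [hp, hp, dif_pos x.2, dif_pos x.2] at h4
    exact h4

lemma has_rkC (hP : Bnd sep P) {m n : ℕ} (Z : Fin m → Fin n → Option R) (h : P (rkC Z)) :
    Has P (RCk (Fin m) (Fin n) fun x => Z x.1 x.2) := by
  let G : {x : (Fin m × Fin n) × R // Z x.1.1 x.1.2 = some x.2} ⊕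
      ((Fin 4 → Fin m) × (Fin 4 → Fin n)) → MvPolynomial (Fin m × Fin n) R :=
    Sum.elim (fun x => X x.1.1 - C x.1.2)
      fun x => Matrix.det (Matrix.of fun i j => X (x.1 i, x.2 j))
  have hG : rkIC Z = Ideal.span (Set.range G) := by
    rw [rkIC]
    congr 1
    ext f
    constructor
    · rintro (⟨i, j, c, hc, rfl⟩ | ⟨α, β, rfl⟩)
      · exact ⟨Sum.inl ⟨((i, j), c), hc⟩, rfl⟩
      · exact ⟨Sum.inr (α, β), rfl⟩
    · rintro ⟨x | x, rfl⟩
      · exact Or.inl ⟨x.1.1.1, x.1.1.2, x.1.2, x.2, rfl⟩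
      · exact Or.inr ⟨x.1, x.2, rfl⟩
  unfold rkC at h
  rw [hG] at h
  refine ⟨_, G, 1, fun C _ _ u => ?_, iso_alg hP.toUni (oneE G) h⟩
  constructor
  · rintro ⟨h1, h2⟩
    refine ⟨?_, by rw [map_one]; exact isUnit_one⟩
    rintro (x | x)
    · change aeval u (X x.1.1 - MvPolynomial.C x.1.2) = 0
      rw [map_sub, aeval_X, aeval_C, sub_eq_zero]
      exact h1 _ _ x.2
    · exact (aeval_minor u x.1 x.2).trans (h2 x.1 x.2)
  · rintro ⟨h1, -⟩
    refine ⟨fun x c hx => ?_, fun α β => ?_⟩
    · have h2 : aeval u (X x - MvPolynomial.C c : MvPolynomial (Fin m × Fin n) R) = 0 :=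
        h1 (Sum.inl ⟨(x, c), hx⟩)
      rwa [map_sub, aeval_X, aeval_C, sub_eq_zero] at h2
    · exact (aeval_minor u α β).symm.trans (h1 (Sum.inr (α, β)))

/-- **Invertible completions of partial matrices.** -/
theorem universal_glC [IsNoetherianRing R] (hP : Bnd sep P)
    (h : ∀ (n : ℕ) (Z : Fin n → Fin n → Option R), P (glC Z)) (X : Sch R) (hX : FT sep X) :
    P X :=
  all_of_coreK hP (coreK_of_gl hP fun _ Z => has_glC hP (fun i j => Z (i, j)) (h _ _)) X hX

/-- **Completions of rank at most three of partial matrices.** -/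
theorem universal_rkC [IsNoetherianRing R] (hP : Bnd sep P)
    (h : ∀ (m n : ℕ) (Z : Fin m → Fin n → Option R), P (rkC Z)) (X : Sch R) (hX : FT sep X) :
    P X :=
  all_of_coreK hP (coreK_of_rank hP fun _ _ Z => has_rkC hP (fun i j => Z (i, j)) (h _ _ _)) X hX

lemma smooth_glC {k : Type} [CommRing k] {n : ℕ} (Z : Fin n → Fin n → Option k) :
    Algebra.Smooth k (Localization.Away (fillMat Z).det) := by
  have h1 : Algebra.Smooth k (MvPolynomial {x : Fin n × Fin n // Z x.1 x.2 = none} k) := {}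
  have h2 : Algebra.Smooth (MvPolynomial {x : Fin n × Fin n // Z x.1 x.2 = none} k)
      (Localization.Away (fillMat Z).det) :=
    Algebra.Smooth.of_isLocalization_Away (fillMat Z).det
  exact Algebra.Smooth.comp k (MvPolynomial {x : Fin n × Fin n // Z x.1 x.2 = none} k) _

end Pool.Agent.H57.ZP
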