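import Pool.Agent.H57.ZP.Peel

/-!
# Incidence systems from invertible matrices with prescribed zeros
-/

set_option autoImplicit false

open CategoryTheory AlgebraicGeometry MvPolynomial Pool.Agent.Y116.UV Pool.Agent.Z125.UN Matrix

namespace Pool.Agent.H57.ZP

variable {R : Type} [CommRing R] {sep : Prop} {P : Sch R → Prop}

/-- the invertible matrices with zeros at the places in `Z` -/
def GLc (R : Type) [CommRing R] (K : Type) [Fintype K] [DecidableEq K] (Z : K → K → Prop) :
    Cond R (K × K) :=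
  fun _ _ _ N => (∀ a b, Z a b → N (a, b) = 0) ∧ IsUnit (Matrix.det fun a b => N (a, b))

lemma rep_GLc (K : Type) [Fintype K] [DecidableEq K] (Z : K → K → Prop) : IsRep (GLc R K Z) := by
  have h1 : IsRep (R := R) fun C _ _ (u : K × K → C) =>
      ∀ x : {x : K × K // Z x.1 x.2}, u x.1 = 0 := by
    refine (rep_all fun x : {x : K × K // Z x.1 x.2} =>
      (X x.1 : MvPolynomial (K × K) R)).congr fun C _ _ u => ?_
    simp only [aeval_X]
  refine (h1.and (rep_unit (Matrix.det (Matrix.of fun a b =>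
    (X (a, b) : MvPolynomial (K × K) R))))).congr fun C _ _ u => ?_
  have h2 : aeval u (Matrix.det (Matrix.of fun a b => (X (a, b) : MvPolynomial (K × K) R))) =
      Matrix.det fun a b => u (a, b) := by
    rw [AlgHom.map_det]
    congr 1
    ext a b
    exact aeval_X _ _
  rw [h2]
  unfold GLc
  exact and_congr_left fun _ => ⟨fun h a b hab => h ⟨(a, b), hab⟩, fun h x => h _ _ x.2⟩

lemma gl_type (hP : Bnd sep P) (h : ∀ (ν : ℕ) (Z : Fin ν → Fin ν → Prop), Has P (GLc R (Fin ν) Z))
    (K : Type) [Fintype K] [DecidableEq K] (Z : K → K → Prop) : Has P (GLc R K Z) := by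
  let e := Fintype.equivFin K
  have hdet : ∀ (C : Type) [CommRing C] (u : K × K → C),
      (Matrix.det fun a b => u (e.symm a, e.symm b)) = Matrix.det fun a b => u (a, b) :=
    fun C _ u => Matrix.det_submatrix_equiv_self e.symm fun a b => u (a, b)
  refine (h (Fintype.card K) fun a b => Z (e.symm a) (e.symm b)).iso hP (rep_GLc K Z)
    (fun x => X (e.symm x.1, e.symm x.2)) ?_ ?_ ?_
  · intro C _ _ u hu
    simp only [aeval_X]
    refine ⟨fun a b hab => hu.1 _ _ hab, ?_⟩
    change IsUnit (Matrix.det fun a b => u (e.symm a, e.symm b))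
    rw [hdet]
    exact hu.2
  · intro C _ _ u hu
    refine ⟨fun x => u (e x.1, e x.2), ⟨fun a b hab => hu.1 _ _ ?_, ?_⟩, fun x => ?_⟩
    · simpa using hab
    · rw [← hdet C fun x => u (e x.1, e x.2)]
      simpa using hu.2
    · simp
  · intro C _ _ u u' _ _ h3
    funext x
    have h4 := h3 (e x.1, e x.2)
    simpa using h4

lemma gl_units (hP : Bnd sep P) (K : Type) [Fintype K] [DecidableEq K]
    (h : ∀ Z : K → K → Prop, Has P (GLc R K Z)) (S : Finset K) : ∀ Z : K → K → Prop,
    Has P (R := R) fun C _ _ N => GLc R K Z C N ∧ ∀ a ∈ S, IsUnit (N (a, a)) := by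
  induction S using Finset.induction_on with
  | empty =>
    intro Z
    refine (h Z).congr fun C _ _ N => ?_
    simp
  | insert a S ha ih =>
    intro Z
    have h1 : Has P (R := R) fun C _ _ N => (GLc R K Z C N ∧ ∀ a ∈ S, IsUnit (N (a, a))) ∧
        aeval N (X (a, a) : MvPolynomial (K × K) R) = 0 := by
      refine (ih fun x y => Z x y ∨ (x = a ∧ y = a)).congr fun C _ _ N => ?_
      unfold GLc
      rw [aeval_X]
      constructor
      · rintro ⟨⟨h2, h3⟩, h4⟩
        exact ⟨⟨⟨fun x y hxy => h2 x y (Or.inl hxy), h3⟩, h4⟩, h2 a a (Or.inr ⟨rfl, rfl⟩)⟩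
      · rintro ⟨⟨⟨h2, h3⟩, h4⟩, h5⟩
        refine ⟨⟨fun x y hxy => ?_, h3⟩, h4⟩
        rcases hxy with hxy | ⟨rfl, rfl⟩
        · exact h2 x y hxy
        · exact h5
    refine (has_open hP (ih Z) _ h1).congr fun C _ _ N => ?_
    rw [aeval_X]
    constructor
    · rintro ⟨⟨h2, h3⟩, h4⟩
      refine ⟨h2, fun x hx => ?_⟩
      rcases Finset.mem_insert.mp hx with rfl | hx
      · exact h4
      · exact h3 x hx
    · rintro ⟨h2, h3⟩
      exact ⟨⟨h2, fun x hx => h3 x (Finset.mem_insert_of_mem hx)⟩,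
        h3 a (Finset.mem_insert_self _ _)⟩

/-- additional variables, some of them zero -/
lemma has_free (hP : Bnd sep P) {σ : Type} [Finite σ] {F : Cond R σ} (τ : Type) [Finite τ]
    (Z : τ → Prop) (hF : Has P F) :
    Has P (R := R) fun C _ _ (u : σ ⊕ τ → C) => (F C fun s => u (Sum.inl s)) ∧
      ∀ t, Z t → u (Sum.inr t) = 0 := by
  classical
  have hr : IsRep (R := R) fun C _ _ (u : σ ⊕ τ → C) =>
      ∀ x : {x : τ // Z x}, u (Sum.inr x.1) = 0 := by
    refine (rep_all fun x : {x : τ // Z x} =>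
      (X (Sum.inr x.1) : MvPolynomial (σ ⊕ τ) R)).congr fun C _ _ u => ?_
    simp only [aeval_X]
  have hrep : IsRep (R := R) fun C _ _ (u : σ ⊕ τ → C) => (F C fun s => u (Sum.inl s)) ∧
      ∀ t, Z t → u (Sum.inr t) = 0 := by
    refine ((hF.rep.reindex Sum.inl).and hr).congr fun C _ _ u => ?_
    exact and_congr_right fun _ => ⟨fun h t ht => h ⟨t, ht⟩, fun h t => h t.1 t.2⟩
  refine (has_space hP {t : τ // ¬ Z t} hF).iso hP hrep
    (Sum.elim (fun s => X (Sum.inl s)) fun t => X (Sum.inr t.1)) ?_ ?_ ?_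
  · intro C _ _ u hu
    simp only [Sum.elim_inl, aeval_X]
    exact hu.1
  · intro C _ _ u hu
    refine ⟨Sum.elim (fun s => u (Sum.inl s)) fun t => if h : Z t then 0 else u (Sum.inr ⟨t, h⟩),
      ⟨hu, fun t ht => ?_⟩, ?_⟩
    · simp only [Sum.elim_inr]
      rw [dif_pos ht]
    · rintro (s | t)
      · simp only [Sum.elim_inl, aeval_X]
      · simp only [Sum.elim_inr, aeval_X]
        rw [dif_neg t.2]
  · intro C _ _ u u' hu hu' h3
    funext x
    rcases x with x | x
    · simpa only [Sum.elim_inl, aeval_X] using h3 (Sum.inl x)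
    · by_cases h : Z x
      · rw [hu.2 x h, hu'.2 x h]
      · simpa only [Sum.elim_inr, aeval_X] using h3 (Sum.inr ⟨x, h⟩)

section NN

variable {C : Type} [CommRing C] {I : Type} [Fintype I] [DecidableEq I] {m : ℕ}

/-- the matrix -/
def NN (D : Fin 3 → C) (G : I → C) (A : I → Fin 3 → C) (B : Fin 3 → Fin m → C)
    (T : Fin m → I → C) (W : Fin m → Fin m → C) :
    Matrix ((Fin 3 ⊕ I) ⊕ Fin m) ((Fin 3 ⊕ I) ⊕ Fin m) C
  | .inl (.inl s), .inl (.inl s') => if s = s' then D s else 0
  | .inl (.inl _), .inl (.inr _) => 0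
  | .inl (.inl s), .inr p => B s p
  | .inl (.inr i), .inl (.inl s) => A i s * D s
  | .inl (.inr i), .inl (.inr i') => if i = i' then G i else 0
  | .inl (.inr _), .inr _ => 0
  | .inr _, .inl (.inl _) => 0
  | .inr p, .inl (.inr i) => T p i * G i
  | .inr p, .inr q => W p q - ∑ i, T p i * ∑ s, A i s * B s q

lemma det_NN (D : Fin 3 → C) (G : I → C) (A : I → Fin 3 → C) (B : Fin 3 → Fin m → C)
    (T : Fin m → I → C) (W : Fin m → Fin m → C) :
    (NN D G A B T W).det = (∏ x, Sum.elim D G x) * Matrix.det (Matrix.of W) := by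
  have h : NN D G A B T W =
      fromBlocks (fromBlocks 1 0 (Matrix.of A) 1) 0 (fromCols 0 (Matrix.of T)) 1 *
        fromBlocks (diagonal (Sum.elim D G)) (fromRows (Matrix.of B)
          (-(Matrix.of A * Matrix.of B))) 0 (Matrix.of W) := by
    rw [fromBlocks_multiply]
    ext a b
    rcases a with (s | i) | p
    · rcases b with (s' | i') | q
      · simp [NN, diagonal, mul_apply, one_apply]
        split_ifs with h
        · rw [h]
        · rfl
      · simp [NN, diagonal, mul_apply]
      · simp [NN, mul_apply, one_apply]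
    · rcases b with (s' | i') | q
      · simp [NN, diagonal, mul_apply]
      · simp [NN, diagonal, mul_apply, one_apply]
        split_ifs with h
        · rw [h]
        · rfl
      · simp [NN, mul_apply, one_apply]
    · rcases b with (s' | i') | q
      · simp [NN, diagonal, mul_apply]
      · simp [NN, diagonal, mul_apply]
      · simp [NN, mul_apply, one_apply]
        ring
  rw [h, det_mul, det_fromBlocks_zero₁₂, det_fromBlocks_zero₂₁, det_fromBlocks_zero₁₂, det_one,
    det_diagonal]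
  simp

lemma map_NN {C' : Type} [CommRing C'] (f : C →+* C') (D : Fin 3 → C) (G : I → C)
    (A : I → Fin 3 → C) (B : Fin 3 → Fin m → C) (T : Fin m → I → C) (W : Fin m → Fin m → C)
    (a b : (Fin 3 ⊕ I) ⊕ Fin m) : f (NN D G A B T W a b) =
      NN (fun s => f (D s)) (fun i => f (G i)) (fun i s => f (A i s)) (fun s p => f (B s p))
        (fun p i => f (T p i)) (fun p q => f (W p q)) a b := by
  rcases a with (s | i) | p
  · rcases b with (s' | i') | q
    · change f (if s = s' then D s else 0) = if s = s' then f (D s) else 0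
      split_ifs
      · rfl
      · exact map_zero f
    · exact map_zero f
    · rfl
  · rcases b with (s' | i') | q
    · exact map_mul f _ _
    · change f (if i = i' then G i else 0) = if i = i' then f (G i) else 0
      split_ifs
      · rfl
      · exact map_zero f
    · exact map_zero f
  · rcases b with (s' | i') | q
    · exact map_zero f
    · exact map_mul f _ _
    · simp only [NN, map_sub, map_sum, map_mul]

lemma NN_diag (D : Fin 3 → C) (G : I → C) (A : I → Fin 3 → C) (B : Fin 3 → Fin m → C)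
    (T : Fin m → I → C) (W : Fin m → Fin m → C) (x : Fin 3 ⊕ I) :
    NN D G A B T W (Sum.inl x) (Sum.inl x) = Sum.elim D G x := by
  rcases x with s | i
  · exact if_pos rfl
  · exact if_pos rfl

end NN

section base

variable (I : Type) [Fintype I] [DecidableEq I] (n : ℕ)

/-- the coordinates of a pair of matrices -/
abbrev SV : Type := (I × Fin 3) ⊕ (Fin 3 × Fin n)

variable {I n} (ZA : I → Fin 3 → Prop) (ZB : Fin 3 → Fin n → Prop) (Q : Fin n → I → Prop)

/-- prescribed zeros -/
def FZ (R : Type) [CommRing R] : Cond R (SV I n) := fun _ _ _ u =>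
  (∀ i s, ZA i s → u (Sum.inl (i, s)) = 0) ∧ ∀ s j, ZB s j → u (Sum.inr (s, j)) = 0

/-- the elements of the product of the matrices -/
noncomputable def ff (R : Type) [CommRing R] (j : Fin n) (i : I) : MvPolynomial (SV I n) R :=
  ∑ s, X (Sum.inl (i, s)) * X (Sum.inr (s, j))

omit [Fintype I] [DecidableEq I] in
lemma aeval_ff {C : Type} [CommRing C] [Algebra R C] (u : SV I n → C) (j : Fin n) (i : I) :
    aeval u (ff R j i) = ∑ s, u (Sum.inl (i, s)) * u (Sum.inr (s, j)) := by
  rw [ff, map_sum]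
  simp only [map_mul, aeval_X]

omit [Fintype I] [DecidableEq I] in
lemma rep_FZ : IsRep (FZ ZA ZB R : Cond R (SV I n)) := by
  have h1 : IsRep (R := R) fun C _ _ (u : SV I n → C) =>
      ∀ x : {x : I × Fin 3 // ZA x.1 x.2}, u (Sum.inl x.1) = 0 := by
    refine (rep_all fun x : {x : I × Fin 3 // ZA x.1 x.2} =>
      (X (Sum.inl x.1) : MvPolynomial (SV I n) R)).congr fun C _ _ u => ?_
    simp only [aeval_X]
  have h2 : IsRep (R := R) fun C _ _ (u : SV I n → C) =>
      ∀ x : {x : Fin 3 × Fin n // ZB x.1 x.2}, u (Sum.inr x.1) = 0 := by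
    refine (rep_all fun x : {x : Fin 3 × Fin n // ZB x.1 x.2} =>
      (X (Sum.inr x.1) : MvPolynomial (SV I n) R)).congr fun C _ _ u => ?_
    simp only [aeval_X]
  refine (h1.and h2).congr fun C _ _ u => ?_
  exact and_congr ⟨fun h i s hs => h ⟨(i, s), hs⟩, fun h x => h _ _ x.2⟩
    ⟨fun h i s hs => h ⟨(i, s), hs⟩, fun h x => h _ _ x.2⟩

variable {m : ℕ} (ι : Fin m → Fin n) (Φ : Fin m → Prop)

/-- the pattern of zeros -/
def ZK : (Fin 3 ⊕ I) ⊕ Fin m → (Fin 3 ⊕ I) ⊕ Fin m → Prop
  | .inl (.inl s), .inl (.inl s') => s ≠ s'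
  | .inl (.inl _), .inl (.inr _) => True
  | .inl (.inl s), .inr p => ZB s (ι p)
  | .inl (.inr i), .inl (.inl s) => ZA i s
  | .inl (.inr i), .inl (.inr i') => i ≠ i'
  | .inl (.inr _), .inr _ => True
  | .inr _, .inl (.inl _) => True
  | .inr p, .inl (.inr i) => Φ p ∨ ¬ Q (ι p) i
  | .inr p, .inr q => p = q ∧ ¬ Φ p

variable {ZA ZB Q ι Φ}

/-- the pieces of `peel` from the matrices with prescribed zeros -/
lemma base_YC (hP : Bnd sep P)
    (h : ∀ (K : Type) [Fintype K] [DecidableEq K] (Z : K → K → Prop), Has P (GLc R K Z))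
    (hι : Function.Injective ι) : Has P (YC (FZ ZA ZB R) (ff R) Q ι Φ) := by
  classical
  let K := (Fin 3 ⊕ I) ⊕ Fin m
  have s1 := has_free hP (Fin 3 × Fin n) (fun t => t.2 ∈ Set.range ι ∨ ZB t.1 t.2)
    (gl_units hP K (h K) (Finset.univ.image Sum.inl) (ZK ZA ZB Q ι Φ))
  have hrep : IsRep (R := R) fun C _ _ (u : YV (SV I n) I m ⊕ (Fin 3 ⊕ I) → C) =>
      (YC (FZ ZA ZB R) (ff R) Q ι Φ C fun s => u (Sum.inl s)) ∧
        ∀ x, IsUnit (u (Sum.inr x)) :=
    ((rep_YC (rep_FZ ZA ZB)).reindex Sum.inl).and (rep_vars Sum.inr)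
  refine of_gms hP (Fin 3 ⊕ I) (rep_YC (rep_FZ ZA ZB)) ?_
  let p : (K × K) ⊕ (Fin 3 × Fin n) → MvPolynomial (YV (SV I n) I m ⊕ (Fin 3 ⊕ I)) R :=
    Sum.elim (fun x => NN (fun s => X (Sum.inr (Sum.inl s))) (fun i => X (Sum.inr (Sum.inr i)))
      (fun i s => X (Sum.inl (Sum.inl (Sum.inl (i, s)))))
      (fun s p => X (Sum.inl (Sum.inl (Sum.inr (s, ι p)))))
      (fun p i => X (Sum.inl (Sum.inr (Sum.inl (p, i)))))
      (fun p q => X (Sum.inl (Sum.inr (Sum.inr (p, q))))) x.1 x.2)
      fun t => if t.2 ∈ Set.range ι then 0 else X (Sum.inl (Sum.inl (Sum.inr t)))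
  have hp : ∀ (C : Type) [CommRing C] [Algebra R C] (u : YV (SV I n) I m ⊕ (Fin 3 ⊕ I) → C),
      (fun s => aeval u (p s)) =
      Sum.elim (fun x => NN (fun s => u (Sum.inr (Sum.inl s))) (fun i => u (Sum.inr (Sum.inr i)))
      (fun i s => u (Sum.inl (Sum.inl (Sum.inl (i, s)))))
      (fun s p => u (Sum.inl (Sum.inl (Sum.inr (s, ι p)))))
      (fun p i => u (Sum.inl (Sum.inr (Sum.inl (p, i)))))
      (fun p q => u (Sum.inl (Sum.inr (Sum.inr (p, q))))) x.1 x.2)
      fun t => if t.2 ∈ Set.range ι then 0 else u (Sum.inl (Sum.inl (Sum.inr t))) := by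
    intro C _ _ u
    funext x
    rcases x with x | t
    · have h1 := map_NN (aeval u : MvPolynomial (YV (SV I n) I m ⊕ (Fin 3 ⊕ I)) R →ₐ[R] C).toRingHom
        (fun s => X (Sum.inr (Sum.inl s))) (fun i => X (Sum.inr (Sum.inr i)))
        (fun i s => X (Sum.inl (Sum.inl (Sum.inl (i, s)))))
        (fun s p => X (Sum.inl (Sum.inl (Sum.inr (s, ι p)))))
        (fun p i => X (Sum.inl (Sum.inr (Sum.inl (p, i)))))
        (fun p q => X (Sum.inl (Sum.inr (Sum.inr (p, q))))) x.1 x.2
      refine h1.trans ?_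
      have h2 : ∀ i, aeval u (X i : MvPolynomial (YV (SV I n) I m ⊕ (Fin 3 ⊕ I)) R) = u i :=
        fun i => aeval_X _ _
      change NN (fun s => aeval u (X (Sum.inr (Sum.inl s)) :
        MvPolynomial (YV (SV I n) I m ⊕ (Fin 3 ⊕ I)) R)) _ _ _ _ _ x.1 x.2 = _
      congr 1
      · funext s; exact h2 _
      · funext s; exact h2 _
      · funext s; funext t; exact h2 _
      · funext s; funext t; exact h2 _
      · funext s; funext t; exact h2 _
      · funext s; funext t; exact h2 _
    · change aeval u (if t.2 ∈ Set.range ι then 0 else X (Sum.inl (Sum.inl (Sum.inr t)))) =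
        if t.2 ∈ Set.range ι then 0 else u (Sum.inl (Sum.inl (Sum.inr t)))
      split_ifs
      · exact map_zero _
      · exact aeval_X _ _
  refine s1.iso hP hrep p ?_ ?_ ?_
  · intro C _ _ u hu
    rw [hp]
    obtain ⟨⟨⟨⟨hZA, hZB⟩, hT, hW⟩, hdet⟩, hunit⟩ := hu
    refine ⟨⟨⟨fun a b hab => ?_, ?_⟩, fun a ha => ?_⟩, fun t ht => ?_⟩
    · rcases a with (s | i) | p
      · rcases b with (s' | i') | q
        · exact if_neg hab
        · rfl
        · exact hZB _ _ hab
      · rcases b with (s' | i') | q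
        · change u (Sum.inl (Sum.inl (Sum.inl (i, s')))) * _ = 0
          have h8 : u (Sum.inl (Sum.inl (Sum.inl (i, s')))) = 0 := hZA _ _ hab
          rw [h8, zero_mul]
        · exact if_neg hab
        · rfl
      · rcases b with (s' | i') | q
        · rfl
        · change u (Sum.inl (Sum.inr (Sum.inl (p, i')))) * _ = 0
          have h8 : u (Sum.inl (Sum.inr (Sum.inl (p, i')))) = 0 := hT _ _ hab
          rw [h8, zero_mul]
        · obtain ⟨rfl, hΦ⟩ := hab
          have h5 := hW p hΦ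
          change u (Sum.inl (Sum.inr (Sum.inr (p, p)))) - ∑ i, _ = 0
          rw [sub_eq_zero]
          refine h5.trans (Finset.sum_congr rfl fun i _ => ?_)
          rw [aeval_ff]
    · change IsUnit (NN _ _ _ _ _ _).det
      rw [det_NN]
      refine IsUnit.mul ?_ hdet
      refine (IsUnit.prod_iff (s := Finset.univ)).mpr fun x _ => ?_
      rcases x with s | i
      · exact hunit _
      · exact hunit _
    · obtain ⟨x, -, rfl⟩ := Finset.mem_image.mp ha
      change IsUnit (NN _ _ _ _ _ _ (Sum.inl x) (Sum.inl x))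
      rw [NN_diag]
      rcases x with s | i
      · exact hunit _
      · exact hunit _
    · change (if t.2 ∈ Set.range ι then 0 else u (Sum.inl (Sum.inl (Sum.inr t)))) = 0
      split_ifs with h6
      · rfl
      · exact hZB _ _ (ht.resolve_left h6)
  · intro C _ _ v hv
    obtain ⟨⟨⟨hZ0, hdet⟩, hun⟩, he⟩ := hv
    have hZ : ∀ a b, ZK ZA ZB Q ι Φ a b → v (Sum.inl (a, b)) = 0 := hZ0
    have hun' : ∀ x : Fin 3 ⊕ I, IsUnit (v (Sum.inl (Sum.inl x, Sum.inl x))) := fun x =>
      hun _ (Finset.mem_image.mpr ⟨x, Finset.mem_univ _, rfl⟩)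
    choose w hw using fun x => (hun' x).exists_right_inv
    let u : YV (SV I n) I m ⊕ (Fin 3 ⊕ I) → C :=
      Sum.elim (Sum.elim (Sum.elim
        (fun x => v (Sum.inl (Sum.inl (Sum.inr x.1), Sum.inl (Sum.inl x.2))) * w (Sum.inl x.2))
        (fun x => if h : ∃ p, ι p = x.2 then v (Sum.inl (Sum.inl (Sum.inl x.1), Sum.inr h.choose))
          else v (Sum.inr x)))
        (Sum.elim (fun x => v (Sum.inl (Sum.inr x.1, Sum.inl (Sum.inr x.2))) * w (Sum.inr x.2))
          fun x => v (Sum.inl (Sum.inr x.1, Sum.inr x.2)) +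
            ∑ i, v (Sum.inl (Sum.inr x.1, Sum.inl (Sum.inr i))) * w (Sum.inr i) *
              ∑ s, v (Sum.inl (Sum.inl (Sum.inr i), Sum.inl (Sum.inl s))) * w (Sum.inl s) *
                v (Sum.inl (Sum.inl (Sum.inl s), Sum.inr x.2))))
        fun x => v (Sum.inl (Sum.inl x, Sum.inl x))
    have hB : ∀ s q, u (Sum.inl (Sum.inl (Sum.inr (s, ι q)))) =
        v (Sum.inl (Sum.inl (Sum.inl s), Sum.inr q)) := by
      intro s q
      have hex : ∃ p, ι p = ι q := ⟨q, rfl⟩
      have h7 : hex.choose = q := hι hex.choose_spec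
      refine (dif_pos hex).trans ?_
      rw [h7]
    have hNN : (NN (fun s => u (Sum.inr (Sum.inl s))) (fun i => u (Sum.inr (Sum.inr i)))
        (fun i s => u (Sum.inl (Sum.inl (Sum.inl (i, s)))))
        (fun s p => u (Sum.inl (Sum.inl (Sum.inr (s, ι p)))))
        (fun p i => u (Sum.inl (Sum.inr (Sum.inl (p, i)))))
        (fun p q => u (Sum.inl (Sum.inr (Sum.inr (p, q)))))) = fun a b => v (Sum.inl (a, b)) := by
      funext a b
      rcases a with (s | i) | p
      · rcases b with (s' | i') | q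
        · change (if s = s' then v (Sum.inl (Sum.inl (Sum.inl s), Sum.inl (Sum.inl s))) else 0) = _
          split_ifs with h6
          · rw [h6]
          · exact (hZ (Sum.inl (Sum.inl s)) (Sum.inl (Sum.inl s')) h6).symm
        · exact (hZ (Sum.inl (Sum.inl s)) (Sum.inl (Sum.inr i')) trivial).symm
        · exact hB s q
      · rcases b with (s' | i') | q
        · change v _ * w (Sum.inl s') * v _ = _
          rw [mul_assoc, mul_comm (w _), hw, mul_one]
        · change (if i = i' then v (Sum.inl (Sum.inl (Sum.inr i), Sum.inl (Sum.inr i))) else 0) = _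
          split_ifs with h6
          · rw [h6]
          · exact (hZ (Sum.inl (Sum.inr i)) (Sum.inl (Sum.inr i')) h6).symm
        · exact (hZ (Sum.inl (Sum.inr i)) (Sum.inr q) trivial).symm
      · rcases b with (s' | i') | q
        · exact (hZ (Sum.inr p) (Sum.inl (Sum.inl s')) trivial).symm
        · change v _ * w (Sum.inr i') * v _ = _
          rw [mul_assoc, mul_comm (w _), hw, mul_one]
        · change (v (Sum.inl (Sum.inr p, Sum.inr q)) + _) - ∑ i, v _ * w (Sum.inr i) *
            ∑ s, v _ * w (Sum.inl s) * u (Sum.inl (Sum.inl (Sum.inr (s, ι q)))) = _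
          simp only [hB]
          exact add_sub_cancel_right _ _
    have hmap : (fun s => aeval u (p s)) = v := by
      rw [hp]
      funext x
      rcases x with ⟨a, b⟩ | t
      · exact congrFun (congrFun hNN a) b
      · change (if t.2 ∈ Set.range ι then 0 else u (Sum.inl (Sum.inl (Sum.inr t)))) = _
        split_ifs with h6
        · exact (he t (Or.inl h6)).symm
        · exact dif_neg h6
    refine ⟨u, ⟨⟨⟨⟨fun i s hs => ?_, fun s j hs => ?_⟩, fun q i hq => ?_, fun q hq => ?_⟩, ?_⟩,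
      fun x => hun' x⟩, fun s => congrFun hmap s⟩
    · change v (Sum.inl (Sum.inl (Sum.inr i), Sum.inl (Sum.inl s))) * _ = 0
      rw [hZ (Sum.inl (Sum.inr i)) (Sum.inl (Sum.inl s)) hs, zero_mul]
    · change (if h : ∃ p, ι p = j then v (Sum.inl (Sum.inl (Sum.inl s), Sum.inr h.choose))
          else v (Sum.inr (s, j))) = 0
      split_ifs with h6
      · refine hZ (Sum.inl (Sum.inl s)) (Sum.inr _) ?_
        change ZB s (ι h6.choose)
        rw [h6.choose_spec]
        exact hs
      · exact he (s, j) (Or.inr hs)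
    · change v (Sum.inl (Sum.inr q, Sum.inl (Sum.inr i))) * _ = 0
      rw [hZ (Sum.inr q) (Sum.inl (Sum.inr i)) hq, zero_mul]
    · change v (Sum.inl (Sum.inr q, Sum.inr q)) + _ = _
      rw [hZ (Sum.inr q) (Sum.inr q) ⟨rfl, hq⟩, zero_add]
      refine Finset.sum_congr rfl fun i _ => ?_
      rw [aeval_ff]
      change _ = (v _ * w _) * ∑ s, (v _ * w _) * u (Sum.inl (Sum.inl (Sum.inr (s, ι q))))
      simp only [hB]
    · have h7 : IsUnit (NN (fun s => u (Sum.inr (Sum.inl s))) (fun i => u (Sum.inr (Sum.inr i)))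
        (fun i s => u (Sum.inl (Sum.inl (Sum.inl (i, s)))))
        (fun s p => u (Sum.inl (Sum.inl (Sum.inr (s, ι p)))))
        (fun p i => u (Sum.inl (Sum.inr (Sum.inl (p, i)))))
        (fun p q => u (Sum.inl (Sum.inr (Sum.inr (p, q)))))).det := by
        rw [hNN]
        exact hdet
      rw [det_NN] at h7
      exact isUnit_of_mul_isUnit_right h7
  · intro C _ _ u u' hu hu' h3
    have h4 := (hp C u).symm.trans ((funext h3).trans (hp C u'))
    have e1 : ∀ x, u (Sum.inr x) = u' (Sum.inr x) := by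
      intro x
      have h5 := congrFun h4 (Sum.inl (Sum.inl x, Sum.inl x))
      simp only [Sum.elim_inl, NN_diag] at h5
      rcases x with s | i
      · exact h5
      · exact h5
    have e2 : ∀ i s, u (Sum.inl (Sum.inl (Sum.inl (i, s)))) =
        u' (Sum.inl (Sum.inl (Sum.inl (i, s)))) := by
      intro i s
      have h5 := congrFun h4 (Sum.inl (Sum.inl (Sum.inr i), Sum.inl (Sum.inl s)))
      change u _ * u (Sum.inr (Sum.inl s)) = u' _ * u' (Sum.inr (Sum.inl s)) at h5
      rw [e1] at h5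
      exact (hu'.2 _).mul_right_cancel h5
    have e3 : ∀ s j, u (Sum.inl (Sum.inl (Sum.inr (s, j)))) =
        u' (Sum.inl (Sum.inl (Sum.inr (s, j)))) := by
      intro s j
      by_cases hj : j ∈ Set.range ι
      · obtain ⟨q, rfl⟩ := hj
        exact congrFun h4 (Sum.inl (Sum.inl (Sum.inl s), Sum.inr q))
      · have h5 := congrFun h4 (Sum.inr (s, j))
        change (if j ∈ Set.range ι then 0 else u (Sum.inl (Sum.inl (Sum.inr (s, j))))) =
          if j ∈ Set.range ι then 0 else u' (Sum.inl (Sum.inl (Sum.inr (s, j)))) at h5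
        rwa [if_neg hj, if_neg hj] at h5
    have e4 : ∀ q i, u (Sum.inl (Sum.inr (Sum.inl (q, i)))) =
        u' (Sum.inl (Sum.inr (Sum.inl (q, i)))) := by
      intro q i
      have h5 := congrFun h4 (Sum.inl (Sum.inr q, Sum.inl (Sum.inr i)))
      change u _ * u (Sum.inr (Sum.inr i)) = u' _ * u' (Sum.inr (Sum.inr i)) at h5
      rw [e1] at h5
      exact (hu'.2 _).mul_right_cancel h5
    have e5 : ∀ q r, u (Sum.inl (Sum.inr (Sum.inr (q, r)))) =
        u' (Sum.inl (Sum.inr (Sum.inr (q, r)))) := by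
      intro q r
      have h5 := congrFun h4 (Sum.inl (Sum.inr q, Sum.inr r))
      simp only [Sum.elim_inl, NN, e2, e3, e4] at h5
      exact sub_left_injective h5
    funext x
    rcases x with ((⟨i, s⟩ | ⟨s, j⟩) | ⟨q, i⟩ | ⟨q, r⟩) | x
    · exact e2 i s
    · exact e3 s j
    · exact e4 q i
    · exact e5 q r
    · exact e1 x

/-- **Incidence systems from invertible matrices with prescribed zeros.** -/
theorem core_of_gl (hP : Bnd sep P)
    (h : ∀ (ν : ℕ) (Z : Fin ν → Fin ν → Prop), Has P (GLc R (Fin ν) Z))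
    (I : Type) [Fintype I] [DecidableEq I] (n : ℕ) (ZA : I → Fin 3 → Prop)
    (ZB : Fin 3 → Fin n → Prop) (Q : Fin n → I → Prop) :
    Has P (R := R) fun C _ _ (u : SV I n → C) => FZ ZA ZB R C u ∧
      ∀ j i, Q j i → ∑ s, u (Sum.inl (i, s)) * u (Sum.inr (s, j)) = 0 := by
  classical
  refine (peel hP n (rep_FZ ZA ZB) (ff R) Q (fun _ _ => Classical.propDecidable _) fun m ι hι Φ =>
    base_YC hP (gl_type hP h) hι).congr fun C _ _ u => ?_
  simp only [aeval_ff]

end base

end Pool.Agent.H57.ZP
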