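import Pool.Agent.H57.ZP.Base
import Pool.Agent.H89.L.Q193_LT_Prime

/-!
# Incidence systems of points and lines in the plane are universal
-/

set_option autoImplicit false

open CategoryTheory AlgebraicGeometry MvPolynomial Pool.Agent.Y116.UV Pool.Agent.Z125.UN

namespace Pool.Agent.H57.ZP

variable {R : Type} [CommRing R] {sep : Prop} {P : Sch R → Prop}

section core

variable (I J : Type)

/-- the coordinates of rows `a_i` and columns `b_j` -/
abbrev CV : Type := (I × Fin 3) ⊕ (Fin 3 × J)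

variable {I J}

/-- prescribed zeros and prescribed incidences -/
def CC (R : Type) [CommRing R] (Z : CV I J → Prop) (Q : J → I → Prop) : Cond R (CV I J) :=
  fun _ _ _ u => (∀ x, Z x → u x = 0) ∧
    ∀ j i, Q j i → ∑ s, u (Sum.inl (i, s)) * u (Sum.inr (s, j)) = 0

lemma rep_CC (Z : CV I J → Prop) (Q : J → I → Prop) : IsRep (CC R Z Q) := by
  refine ((rep_all fun x : {x // Z x} => (X x.1 : MvPolynomial (CV I J) R)).and
    (rep_all fun x : {x : J × I // Q x.1 x.2} => (∑ s, X (Sum.inl (x.1.2, s)) *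
      X (Sum.inr (s, x.1.1)) : MvPolynomial (CV I J) R))).congr fun C _ _ u => ?_
  simp only [aeval_X, map_sum, map_mul]
  exact and_congr ⟨fun h x hx => h ⟨x, hx⟩, fun h x => h _ x.2⟩
    ⟨fun h j i hx => h ⟨(j, i), hx⟩, fun h x => h _ _ x.2⟩

/-- the hypothesis of this file -/
def Core (P : Sch R → Prop) : Prop :=
  ∀ (I : Type) [Fintype I] [DecidableEq I] (n : ℕ) (ZA : I → Fin 3 → Prop)
    (ZB : Fin 3 → Fin n → Prop) (Q : Fin n → I → Prop),
    Has P (R := R) fun C _ _ (u : SV I n → C) => FZ ZA ZB R C u ∧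
      ∀ j i, Q j i → ∑ s, u (Sum.inl (i, s)) * u (Sum.inr (s, j)) = 0

variable [Fintype I] [DecidableEq I] [Fintype J] [DecidableEq J]

omit [DecidableEq J] in
lemma core_type (hP : Bnd sep P) (h : Core P) (Z : CV I J → Prop) (Q : J → I → Prop) :
    Has P (CC R Z Q) := by
  let e := Fintype.equivFin J
  have h1 := h I (Fintype.card J) (fun i s => Z (Sum.inl (i, s)))
    (fun s j => Z (Sum.inr (s, e.symm j))) (fun j i => Q (e.symm j) i)
  refine h1.iso hP (rep_CC Z Q) (Sum.elim (fun x => X (Sum.inl x))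
    fun x => X (Sum.inr (x.1, e.symm x.2))) ?_ ?_ ?_
  · intro C _ _ u hu
    refine ⟨⟨fun i s hs => ?_, fun s j hs => ?_⟩, fun j i hji => ?_⟩
    · simp only [Sum.elim_inl, aeval_X]
      exact hu.1 _ hs
    · simp only [Sum.elim_inr, aeval_X]
      exact hu.1 _ hs
    · simp only [Sum.elim_inl, Sum.elim_inr, aeval_X]
      exact hu.2 _ _ hji
  · intro C _ _ u hu
    refine ⟨Sum.elim (fun x => u (Sum.inl x)) fun x => u (Sum.inr (x.1, e x.2)), ⟨?_, ?_⟩, ?_⟩
    · rintro (x | x) hx
      · exact hu.1.1 _ _ hx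
      · exact hu.1.2 _ _ (by simpa using hx)
    · intro j i hji
      exact hu.2 (e j) i (by simpa using hji)
    · rintro (x | x)
      · simp
      · simp
  · intro C _ _ u u' _ _ h3
    funext x
    rcases x with x | x
    · simpa using h3 (Sum.inl x)
    · simpa using h3 (Sum.inr (x.1, e x.2))

lemma core_units (hP : Bnd sep P) (h : Core P) (Q : J → I → Prop) (S : Finset (CV I J)) :
    ∀ Z : CV I J → Prop, Has P (R := R) fun C _ _ u => CC R Z Q C u ∧ ∀ x ∈ S, IsUnit (u x) := by
  induction S using Finset.induction_on with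
  | empty =>
    intro Z
    refine (core_type hP h Z Q).congr fun C _ _ u => ?_
    simp
  | insert a S ha ih =>
    intro Z
    have h1 : Has P (R := R) fun C _ _ u => (CC R Z Q C u ∧ ∀ x ∈ S, IsUnit (u x)) ∧
        aeval u (X a : MvPolynomial (CV I J) R) = 0 := by
      refine (ih fun x => Z x ∨ x = a).congr fun C _ _ u => ?_
      unfold CC
      rw [aeval_X]
      constructor
      · rintro ⟨⟨h2, h3⟩, h4⟩
        exact ⟨⟨⟨fun x hx => h2 x (Or.inl hx), h3⟩, h4⟩, h2 a (Or.inr rfl)⟩
      · rintro ⟨⟨⟨h2, h3⟩, h4⟩, h5⟩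
        refine ⟨⟨fun x hx => ?_, h3⟩, h4⟩
        rcases hx with hx | rfl
        · exact h2 x hx
        · exact h5
    refine (has_open hP (ih Z) _ h1).congr fun C _ _ u => ?_
    rw [aeval_X]
    constructor
    · rintro ⟨⟨h2, h3⟩, h4⟩
      refine ⟨h2, fun x hx => ?_⟩
      rcases Finset.mem_insert.mp hx with rfl | hx
      · exact h4
      · exact h3 x hx
    · rintro ⟨h2, h3⟩
      exact ⟨⟨h2, fun x hx => h3 x (Finset.mem_insert_of_mem hx)⟩,
        h3 a (Finset.mem_insert_self _ _)⟩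

variable (ρ : I → Fin 3) (γ : J → Fin 3)

/-- normalized rows and columns -/
def NC (R : Type) [CommRing R] (Z : CV I J → Prop) (Q : J → I → Prop) : Cond R (CV I J) :=
  fun C _ _ u => CC R Z Q C u ∧ (∀ i, u (Sum.inl (i, ρ i)) = 1) ∧ ∀ j, u (Sum.inr (γ j, j)) = 1

omit [Fintype I] [DecidableEq I] [Fintype J] [DecidableEq J] in
lemma rep_NC (Z : CV I J → Prop) (Q : J → I → Prop) : IsRep (NC ρ γ R Z Q) := by
  refine ((rep_CC Z Q).and ((rep_all fun i : I => (X (Sum.inl (i, ρ i)) - 1 :
    MvPolynomial (CV I J) R)).and (rep_all fun j : J => (X (Sum.inr (γ j, j)) - 1 :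
    MvPolynomial (CV I J) R)))).congr fun C _ _ u => ?_
  simp only [map_sub, aeval_X, map_one, sub_eq_zero]
  rfl

lemma core_norm (hP : Bnd sep P) (h : Core P) (Z : CV I J → Prop) (Q : J → I → Prop) :
    Has P (NC ρ γ R Z Q) := by
  have h1 := core_units hP h Q ((Finset.univ.image fun i => Sum.inl (i, ρ i)) ∪
    Finset.univ.image fun j => Sum.inr (γ j, j)) Z
  refine of_gms hP (I ⊕ J) (rep_NC ρ γ Z Q) ?_
  have hrep : IsRep (R := R) fun C _ _ (u : CV I J ⊕ (I ⊕ J) → C) =>
      (NC ρ γ R Z Q C fun s => u (Sum.inl s)) ∧ ∀ x, IsUnit (u (Sum.inr x)) :=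
    ((rep_NC ρ γ Z Q).reindex Sum.inl).and (rep_vars Sum.inr)
  refine h1.iso hP hrep (Sum.elim (fun x => X (Sum.inr (Sum.inl x.1)) * X (Sum.inl (Sum.inl x)))
    fun x => X (Sum.inr (Sum.inr x.2)) * X (Sum.inl (Sum.inr x))) ?_ ?_ ?_
  · intro C _ _ u hu
    obtain ⟨⟨⟨hZ, hQ⟩, hA, hB⟩, hun⟩ := hu
    refine ⟨⟨?_, ?_⟩, ?_⟩
    · rintro (x | x) hx
      · simp only [Sum.elim_inl, map_mul, aeval_X]
        have h2 : u (Sum.inl (Sum.inl x)) = 0 := hZ _ hx
        rw [h2, mul_zero]
      · simp only [Sum.elim_inr, map_mul, aeval_X]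
        have h2 : u (Sum.inl (Sum.inr x)) = 0 := hZ _ hx
        rw [h2, mul_zero]
    · intro j i hji
      simp only [Sum.elim_inl, Sum.elim_inr, map_mul, aeval_X]
      have h2 : ∑ s, u (Sum.inl (Sum.inl (i, s))) * u (Sum.inl (Sum.inr (s, j))) = 0 := hQ j i hji
      have h3 : ∑ s, u (Sum.inr (Sum.inl i)) * u (Sum.inl (Sum.inl (i, s))) *
          (u (Sum.inr (Sum.inr j)) * u (Sum.inl (Sum.inr (s, j)))) =
          u (Sum.inr (Sum.inl i)) * u (Sum.inr (Sum.inr j)) *
          ∑ s, u (Sum.inl (Sum.inl (i, s))) * u (Sum.inl (Sum.inr (s, j))) := by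
        rw [Finset.mul_sum]
        exact Finset.sum_congr rfl fun s _ => by ring
      rw [h3, h2, mul_zero]
    · intro x hx
      rcases Finset.mem_union.mp hx with hx | hx
      · obtain ⟨i, -, rfl⟩ := Finset.mem_image.mp hx
        simp only [Sum.elim_inl, map_mul, aeval_X]
        have h2 : u (Sum.inl (Sum.inl (i, ρ i))) = 1 := hA i
        rw [h2, mul_one]
        exact hun _
      · obtain ⟨j, -, rfl⟩ := Finset.mem_image.mp hx
        simp only [Sum.elim_inr, map_mul, aeval_X]
        have h2 : u (Sum.inl (Sum.inr (γ j, j))) = 1 := hB j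
        rw [h2, mul_one]
        exact hun _
  · intro C _ _ v hv
    obtain ⟨⟨hZ, hQ⟩, hun⟩ := hv
    have hA : ∀ i, IsUnit (v (Sum.inl (i, ρ i))) := fun i => hun _ (Finset.mem_union_left _
      (Finset.mem_image.mpr ⟨i, Finset.mem_univ _, rfl⟩))
    have hB : ∀ j, IsUnit (v (Sum.inr (γ j, j))) := fun j => hun _ (Finset.mem_union_right _
      (Finset.mem_image.mpr ⟨j, Finset.mem_univ _, rfl⟩))
    choose a ha using fun i => (hA i).exists_left_inv
    choose b hb using fun j => (hB j).exists_left_inv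
    refine ⟨Sum.elim (Sum.elim (fun x => a x.1 * v (Sum.inl x)) fun x => b x.2 * v (Sum.inr x))
      (Sum.elim (fun i => v (Sum.inl (i, ρ i))) fun j => v (Sum.inr (γ j, j))),
      ⟨⟨⟨?_, ?_⟩, fun i => ha i, fun j => hb j⟩, ?_⟩, ?_⟩
    · rintro (x | x) hx
      · change a x.1 * v (Sum.inl x) = 0
        rw [hZ _ hx, mul_zero]
      · change b x.2 * v (Sum.inr x) = 0
        rw [hZ _ hx, mul_zero]
    · intro j i hji
      change ∑ s, a i * v (Sum.inl (i, s)) * (b j * v (Sum.inr (s, j))) = 0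
      have h3 : ∑ s, a i * v (Sum.inl (i, s)) * (b j * v (Sum.inr (s, j))) =
          a i * b j * ∑ s, v (Sum.inl (i, s)) * v (Sum.inr (s, j)) := by
        rw [Finset.mul_sum]
        exact Finset.sum_congr rfl fun s _ => by ring
      rw [h3, hQ j i hji, mul_zero]
    · rintro (i | j)
      · exact hA i
      · exact hB j
    · rintro (x | x)
      · simp only [Sum.elim_inl, Sum.elim_inr, map_mul, aeval_X]
        rw [← mul_assoc, mul_comm _ (a x.1), ha, one_mul]
      · simp only [Sum.elim_inl, Sum.elim_inr, map_mul, aeval_X]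
        rw [← mul_assoc, mul_comm _ (b x.2), hb, one_mul]
  · intro C _ _ u u' hu hu' h3
    have e1 : ∀ i, u (Sum.inr (Sum.inl i)) = u' (Sum.inr (Sum.inl i)) := by
      intro i
      have h4 := h3 (Sum.inl (i, ρ i))
      simp only [Sum.elim_inl, map_mul, aeval_X] at h4
      have h5 : u (Sum.inl (Sum.inl (i, ρ i))) = 1 := hu.1.2.1 i
      have h6 : u' (Sum.inl (Sum.inl (i, ρ i))) = 1 := hu'.1.2.1 i
      rwa [h5, h6, mul_one, mul_one] at h4
    have e2 : ∀ j, u (Sum.inr (Sum.inr j)) = u' (Sum.inr (Sum.inr j)) := by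
      intro j
      have h4 := h3 (Sum.inr (γ j, j))
      simp only [Sum.elim_inr, map_mul, aeval_X] at h4
      have h5 : u (Sum.inl (Sum.inr (γ j, j))) = 1 := hu.1.2.2 j
      have h6 : u' (Sum.inl (Sum.inr (γ j, j))) = 1 := hu'.1.2.2 j
      rwa [h5, h6, mul_one, mul_one] at h4
    funext x
    rcases x with (x | x) | i | j
    · have h4 := h3 (Sum.inl x)
      simp only [Sum.elim_inl, map_mul, aeval_X] at h4
      rw [e1] at h4
      exact (hu'.2 _).mul_left_cancel h4
    · have h4 := h3 (Sum.inr x)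
      simp only [Sum.elim_inr, map_mul, aeval_X] at h4
      rw [e2] at h4
      exact (hu'.2 _).mul_left_cancel h4
    · exact e1 i
    · exact e2 j

end core

section conf

variable {a b c m : ℕ} (xi : Fin m → Fin a) (yj : Fin m → Fin b) (h : Fin c → Fin m → Prop)
  [DecidableRel h]

/-- the rows -/
abbrev RI (b c m : ℕ) : Type := (Fin c × Fin (m + 1)) ⊕ (Fin b ⊕ (Fin c × Fin m))

/-- the columns -/
abbrev CI (a c m : ℕ) : Type := (Fin c × Fin (m + 1)) ⊕ (Fin a ⊕ (Fin c × Fin m))

/-- the zeros of the rows -/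
def ZR : RI b c m → Fin 3 → Prop
  | .inl x, s => s = 2 ∨ (s = 1 ∧ (x.2 = 0 ∨ x.2 = Fin.last m))
  | .inr (.inl _), s => s = 0
  | .inr (.inr x), s => s = 2 ∧ ¬ h x.1 x.2

/-- the zeros of the columns -/
def ZC : CI a c m → Fin 3 → Prop
  | .inl _, s => s = 2
  | .inr (.inl _), s => s = 1
  | .inr (.inr _), _ => False

/-- the incidences -/
def QQ : CI a c m → RI b c m → Prop
  | .inl x, .inl z => x = z
  | .inl _, .inr (.inl _) => False
  | .inl x, .inr (.inr z) => x = (z.1, z.2.castSucc)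
  | .inr (.inl _), .inl _ => False
  | .inr (.inl _), .inr (.inl _) => False
  | .inr (.inl i), .inr (.inr z) => i = xi z.2 ∧ h z.1 z.2
  | .inr (.inr x), .inl z => z = (x.1, x.2.succ)
  | .inr (.inr x), .inr (.inl j) => j = yj x.2
  | .inr (.inr x), .inr (.inr z) => x = z

/-- the zeros -/
def Zc : CV (RI b c m) (CI a c m) → Prop := Sum.elim (fun x => ZR h x.1 x.2) fun x => ZC x.2 x.1

/-- the places of the ones -/
def rr : RI b c m → Fin 3
  | .inl _ => 0
  | .inr (.inl _) => 2
  | .inr (.inr _) => 0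

/-- the places of the ones -/
def cc : CI a c m → Fin 3
  | .inl _ => 1
  | .inr (.inl _) => 2
  | .inr (.inr _) => 1

variable {C : Type} [CommRing C] (x : Fin a → C) (y : Fin b → C)

/-- a term of the bilinear form -/
def tm (l : Fin c) (t : Fin m) : C := if h l t then x (xi t) * y (yj t) else 0

/-- partial sums -/
def vs (l : Fin c) (k : ℕ) : C :=
  ∑ t ∈ Finset.univ.filter (fun t : Fin m => (t : ℕ) < k), tm xi yj h x y l t

lemma vs_zero (l : Fin c) : vs xi yj h x y l 0 = 0 := by
  rw [vs]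
  simp

lemma vs_succ (l : Fin c) (t : Fin m) :
    vs xi yj h x y l (t + 1) = vs xi yj h x y l t + tm xi yj h x y l t := by
  classical
  rw [vs, vs]
  have h1 : (Finset.univ.filter fun t' : Fin m => (t' : ℕ) < t + 1) =
      insert t (Finset.univ.filter fun t' : Fin m => (t' : ℕ) < t) := by
    ext t'
    simp only [Finset.mem_filter, Finset.mem_univ, true_and, Finset.mem_insert, Fin.ext_iff]
    omega
  rw [h1, Finset.sum_insert (by simp), add_comm]

lemma vs_last (l : Fin c) : vs xi yj h x y l m = ∑ t, tm xi yj h x y l t := by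
  rw [vs]
  congr 1
  ext t
  simp

/-- the rows -/
def rowv : RI b c m → Fin 3 → C
  | .inl z => ![1, vs xi yj h x y z.1 z.2, 0]
  | .inr (.inl j) => ![0, -y j, 1]
  | .inr (.inr z) => ![1, vs xi yj h x y z.1 z.2, if h z.1 z.2 then x (xi z.2) else 0]

/-- the columns -/
def colv : CI a c m → Fin 3 → C
  | .inl z => ![-vs xi yj h x y z.1 z.2, 1, 0]
  | .inr (.inl i) => ![-x i, 0, 1]
  | .inr (.inr z) => ![-vs xi yj h x y z.1 (z.2 + 1), 1, y (yj z.2)]

/-- the configuration -/
def pt : CV (RI b c m) (CI a c m) → C :=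
  Sum.elim (fun z => rowv xi yj h x y z.1 z.2) fun z => colv xi yj h x y z.2 z.1

lemma pt_mem [Algebra R C] (hv : ∀ l, vs xi yj h x y l m = 0) :
    NC rr cc R (Zc h) (QQ xi yj h) C (pt xi yj h x y) := by
  refine ⟨⟨?_, ?_⟩, ?_, ?_⟩
  · rintro (⟨i, s⟩ | ⟨s, j⟩) hx
    · rcases i with z | j | z
      · change s = 2 ∨ (s = 1 ∧ (z.2 = 0 ∨ z.2 = Fin.last m)) at hx
        rcases hx with rfl | ⟨rfl, h1 | h1⟩
        · rfl
        · change vs xi yj h x y z.1 z.2 = 0
          rw [h1]
          exact vs_zero xi yj h x y _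
        · change vs xi yj h x y z.1 z.2 = 0
          rw [h1]
          exact hv _
      · change s = 0 at hx
        rw [hx]
        rfl
      · obtain ⟨rfl, h1⟩ := (hx : s = 2 ∧ ¬ h z.1 z.2)
        exact if_neg h1
    · rcases j with z | i | z
      · change s = 2 at hx
        rw [hx]
        rfl
      · change s = 1 at hx
        rw [hx]
        rfl
      · exact hx.elim
  · intro j i hji
    rw [Fin.sum_univ_three]
    rcases j with z | j | z
    · rcases i with w | i | w
      · change z = w at hji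
        subst hji
        change 1 * (-vs xi yj h x y z.1 z.2) + vs xi yj h x y z.1 z.2 * 1 + 0 * 0 = 0
        ring
      · exact hji.elim
      · change z = (w.1, w.2.castSucc) at hji
        subst hji
        change 1 * (-vs xi yj h x y w.1 w.2) + vs xi yj h x y w.1 w.2 * 1 + _ * 0 = 0
        ring
    · rcases i with w | i | w
      · exact hji.elim
      · exact hji.elim
      · obtain ⟨rfl, h1⟩ := (hji : j = xi w.2 ∧ h w.1 w.2)
        change 1 * (-x (xi w.2)) + _ * 0 + (if h w.1 w.2 then x (xi w.2) else 0) * 1 = 0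
        rw [if_pos h1]
        ring
    · rcases i with w | i | w
      · change w = (z.1, z.2.succ) at hji
        subst hji
        change 1 * (-vs xi yj h x y z.1 (z.2 + 1)) + vs xi yj h x y z.1 (z.2.succ : Fin (m + 1)) * 1 +
          0 * _ = 0
        rw [Fin.val_succ]
        ring
      · change i = yj z.2 at hji
        subst hji
        change 0 * _ + (-y (yj z.2)) * 1 + 1 * y (yj z.2) = 0
        ring
      · change z = w at hji
        subst hji
        change 1 * (-vs xi yj h x y z.1 (z.2 + 1)) + vs xi yj h x y z.1 z.2 * 1 +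
          (if h z.1 z.2 then x (xi z.2) else 0) * y (yj z.2) = 0
        rw [vs_succ, tm]
        split_ifs
        · ring
        · ring
  · intro i
    rcases i with z | j | z <;> rfl
  · intro j
    rcases j with z | j | z <;> rfl

lemma pt_surj [Algebra R C] (v : CV (RI b c m) (CI a c m) → C)
    (hv : NC rr cc R (Zc h) (QQ xi yj h) C v) : ∃ (x : Fin a → C) (y : Fin b → C),
      (∀ l, vs xi yj h x y l m = 0) ∧ pt xi yj h x y = v := by
  obtain ⟨⟨hZ, hQ⟩, hA, hB⟩ := hv
  simp only [Fin.sum_univ_three] at hQ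
  have a1 : ∀ z : Fin c × Fin (m + 1), v (Sum.inl (Sum.inl z, 0)) = 1 := fun z => hA (Sum.inl z)
  have a2 : ∀ j : Fin b, v (Sum.inl (Sum.inr (Sum.inl j), 2)) = 1 :=
    fun z => hA (Sum.inr (Sum.inl z))
  have a3 : ∀ z : Fin c × Fin m, v (Sum.inl (Sum.inr (Sum.inr z), 0)) = 1 :=
    fun z => hA (Sum.inr (Sum.inr z))
  have b1 : ∀ z : Fin c × Fin (m + 1), v (Sum.inr (1, Sum.inl z)) = 1 := fun z => hB (Sum.inl z)
  have b2 : ∀ j : Fin a, v (Sum.inr (2, Sum.inr (Sum.inl j))) = 1 :=
    fun z => hB (Sum.inr (Sum.inl z))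
  have b3 : ∀ z : Fin c × Fin m, v (Sum.inr (1, Sum.inr (Sum.inr z))) = 1 :=
    fun z => hB (Sum.inr (Sum.inr z))
  have z1 : ∀ z : Fin c × Fin (m + 1), v (Sum.inl (Sum.inl z, 2)) = 0 :=
    fun z => hZ _ (Or.inl rfl)
  have z2 : ∀ l : Fin c, v (Sum.inl (Sum.inl (l, 0), 1)) = 0 :=
    fun z => hZ _ (Or.inr ⟨rfl, Or.inl rfl⟩)
  have z3 : ∀ l : Fin c, v (Sum.inl (Sum.inl (l, Fin.last m), 1)) = 0 :=
    fun z => hZ _ (Or.inr ⟨rfl, Or.inr rfl⟩)
  have z4 : ∀ j : Fin b, v (Sum.inl (Sum.inr (Sum.inl j), 0)) = 0 := fun z => hZ _ rfl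
  have z5 : ∀ z : Fin c × Fin m, ¬ h z.1 z.2 → v (Sum.inl (Sum.inr (Sum.inr z), 2)) = 0 :=
    fun z hz => hZ _ ⟨rfl, hz⟩
  have z6 : ∀ z : Fin c × Fin (m + 1), v (Sum.inr (2, Sum.inl z)) = 0 := fun z => hZ _ rfl
  have z7 : ∀ j : Fin a, v (Sum.inr (1, Sum.inr (Sum.inl j))) = 0 := fun z => hZ _ rfl
  let x : Fin a → C := fun i => -v (Sum.inr (0, Sum.inr (Sum.inl i)))
  let y : Fin b → C := fun j => -v (Sum.inl (Sum.inr (Sum.inl j), 1))
  have p0 : ∀ z : Fin c × Fin (m + 1), v (Sum.inr (0, Sum.inl z)) =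
      -v (Sum.inl (Sum.inl z, 1)) := by
    intro z
    have h1 := hQ (Sum.inl z) (Sum.inl z) rfl
    rw [a1, b1, z1] at h1
    linear_combination h1
  have q1 : ∀ z : Fin c × Fin m, v (Sum.inl (Sum.inr (Sum.inr z), 1)) =
      v (Sum.inl (Sum.inl (z.1, z.2.castSucc), 1)) := by
    intro z
    have h1 := hQ (Sum.inl (z.1, z.2.castSucc)) (Sum.inr (Sum.inr z)) rfl
    rw [a3, b1, z6, p0] at h1
    linear_combination h1
  have q2 : ∀ z : Fin c × Fin m, v (Sum.inl (Sum.inr (Sum.inr z), 2)) =
      if h z.1 z.2 then x (xi z.2) else 0 := by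
    intro z
    split_ifs with hz
    · have h1 := hQ (Sum.inr (Sum.inl (xi z.2))) (Sum.inr (Sum.inr z)) ⟨rfl, hz⟩
      rw [a3, b2, z7] at h1
      change _ = -v (Sum.inr (0, Sum.inr (Sum.inl (xi z.2))))
      linear_combination h1
    · exact z5 z hz
  have r0 : ∀ z : Fin c × Fin m, v (Sum.inr (0, Sum.inr (Sum.inr z))) =
      -v (Sum.inl (Sum.inl (z.1, z.2.succ), 1)) := by
    intro z
    have h1 := hQ (Sum.inr (Sum.inr z)) (Sum.inl (z.1, z.2.succ)) rfl
    rw [a1, b3, z1] at h1
    linear_combination h1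
  have r2 : ∀ z : Fin c × Fin m, v (Sum.inr (2, Sum.inr (Sum.inr z))) = y (yj z.2) := by
    intro z
    have h1 := hQ (Sum.inr (Sum.inr z)) (Sum.inr (Sum.inl (yj z.2))) rfl
    rw [z4, a2, b3] at h1
    change _ = -v (Sum.inl (Sum.inr (Sum.inl (yj z.2)), 1))
    linear_combination h1
  have g : ∀ z : Fin c × Fin m, v (Sum.inl (Sum.inl (z.1, z.2.succ), 1)) =
      v (Sum.inl (Sum.inl (z.1, z.2.castSucc), 1)) + tm xi yj h x y z.1 z.2 := by
    intro z
    have h1 := hQ (Sum.inr (Sum.inr z)) (Sum.inr (Sum.inr z)) rfl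
    rw [a3, b3, q1, q2, r0, r2] at h1
    rw [tm]
    split_ifs with hz
    · rw [if_pos hz] at h1
      linear_combination -h1
    · rw [if_neg hz] at h1
      linear_combination -h1
  have w : ∀ (l : Fin c) (t : Fin (m + 1)), v (Sum.inl (Sum.inl (l, t), 1)) =
      vs xi yj h x y l t := by
    intro l t
    induction t using Fin.induction with
    | zero => rw [z2, Fin.val_zero, vs_zero]
    | succ t ih =>
      rw [g (l, t), ih, Fin.val_succ, vs_succ]
      rfl
  refine ⟨x, y, fun l => ?_, ?_⟩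
  · have h1 := w l (Fin.last m)
    rw [z3, Fin.val_last] at h1
    exact h1.symm
  · funext k
    rcases k with ⟨i, s⟩ | ⟨s, j⟩
    · rcases i with z | j | z
      · fin_cases s
        · exact (a1 z).symm
        · exact (w z.1 z.2).symm
        · exact (z1 z).symm
      · fin_cases s
        · exact (z4 j).symm
        · exact neg_neg _
        · exact (a2 j).symm
      · fin_cases s
        · exact (a3 z).symm
        · exact ((q1 z).trans (w _ _)).symm
        · exact (q2 z).symm
    · rcases j with z | j | z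
      · fin_cases s
        · refine Eq.trans ?_ (p0 z).symm
          rw [w z.1 z.2]
          rfl
        · exact (b1 z).symm
        · exact (z6 z).symm
      · fin_cases s
        · exact neg_neg _
        · exact (z7 j).symm
        · exact (b2 j).symm
      · fin_cases s
        · refine Eq.trans ?_ (r0 z).symm
          rw [w z.1 z.2.succ]
          rfl
        · exact (b3 z).symm
        · exact (r2 z).symm

lemma map_tm {C' : Type} [CommRing C'] (f : C →+* C') (l : Fin c) (t : Fin m) :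
    f (tm xi yj h x y l t) = tm xi yj h (fun i => f (x i)) (fun j => f (y j)) l t := by
  rw [tm, tm]
  split_ifs
  · exact map_mul f _ _
  · exact map_zero f

lemma map_vs {C' : Type} [CommRing C'] (f : C →+* C') (l : Fin c) (k : ℕ) :
    f (vs xi yj h x y l k) = vs xi yj h (fun i => f (x i)) (fun j => f (y j)) l k := by
  rw [vs, vs, map_sum]
  exact Finset.sum_congr rfl fun t _ => map_tm xi yj h x y f l t

lemma map_pt {C' : Type} [CommRing C'] (f : C →+* C') (k : CV (RI b c m) (CI a c m)) :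
    f (pt xi yj h x y k) = pt xi yj h (fun i => f (x i)) (fun j => f (y j)) k := by
  rcases k with ⟨i, s⟩ | ⟨s, j⟩
  · rcases i with z | j | z
    · fin_cases s
      · exact map_one f
      · exact map_vs xi yj h x y f _ _
      · exact map_zero f
    · fin_cases s
      · exact map_zero f
      · exact map_neg f _
      · exact map_one f
    · fin_cases s
      · exact map_one f
      · exact map_vs xi yj h x y f _ _
      · change f (if h z.1 z.2 then x (xi z.2) else 0) = if h z.1 z.2 then f (x (xi z.2)) else 0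
        split_ifs
        · rfl
        · exact map_zero f
  · rcases j with z | j | z
    · fin_cases s
      · exact (map_neg f _).trans (congrArg _ (map_vs xi yj h x y f _ _))
      · exact map_one f
      · exact map_zero f
    · fin_cases s
      · exact map_neg f _
      · exact map_zero f
      · exact map_one f
    · fin_cases s
      · exact (map_neg f _).trans (congrArg _ (map_vs xi yj h x y f _ _))
      · exact map_one f
      · rfl

end conf

section trip

variable {a b c m : ℕ} (xi : Fin m → Fin a) (yj : Fin m → Fin b) (h : Fin c → Fin m → Prop)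
  [DecidableRel h]

/-- systems of bilinear equations -/
lemma bil_of_core (hP : Bnd sep P) (hc : Core P) :
    Has P (R := R) fun C _ _ (u : Fin a ⊕ Fin b → C) =>
      ∀ l, vs xi yj h (fun i => u (Sum.inl i)) (fun j => u (Sum.inr j)) l m = 0 := by
  have hv : ∀ (C : Type) [CommRing C] [Algebra R C] (u : Fin a ⊕ Fin b → C) (l : Fin c) (k : ℕ),
      aeval u (vs xi yj h (fun i => (X (Sum.inl i) : MvPolynomial (Fin a ⊕ Fin b) R))
        (fun j => X (Sum.inr j)) l k) =
        vs xi yj h (fun i => u (Sum.inl i)) (fun j => u (Sum.inr j)) l k := by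
    intro C _ _ u l k
    have h1 := map_vs xi yj h (fun i => (X (Sum.inl i) : MvPolynomial (Fin a ⊕ Fin b) R))
      (fun j => X (Sum.inr j)) (aeval u : MvPolynomial (Fin a ⊕ Fin b) R →ₐ[R] C).toRingHom l k
    refine h1.trans ?_
    congr 1
    · funext i
      exact aeval_X _ _
    · funext i
      exact aeval_X _ _
  have hp : ∀ (C : Type) [CommRing C] [Algebra R C] (u : Fin a ⊕ Fin b → C),
      (fun k => aeval u (pt xi yj h (fun i => (X (Sum.inl i) : MvPolynomial (Fin a ⊕ Fin b) R))
        (fun j => X (Sum.inr j)) k)) =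
        pt xi yj h (fun i => u (Sum.inl i)) (fun j => u (Sum.inr j)) := by
    intro C _ _ u
    funext k
    have h1 := map_pt xi yj h (fun i => (X (Sum.inl i) : MvPolynomial (Fin a ⊕ Fin b) R))
      (fun j => X (Sum.inr j)) (aeval u : MvPolynomial (Fin a ⊕ Fin b) R →ₐ[R] C).toRingHom k
    refine h1.trans ?_
    congr 1
    · funext i
      exact aeval_X _ _
    · funext i
      exact aeval_X _ _
  refine (core_norm rr cc hP hc (Zc h) (QQ xi yj h)).iso hP ?_
    (pt xi yj h (fun i => X (Sum.inl i)) fun j => X (Sum.inr j)) ?_ ?_ ?_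
  · refine (rep_all fun l : Fin c => vs xi yj h (fun i => (X (Sum.inl i) :
      MvPolynomial (Fin a ⊕ Fin b) R)) (fun j => X (Sum.inr j)) l m).congr fun C _ _ u => ?_
    simp only [hv]
  · intro C _ _ u hu
    rw [hp]
    exact pt_mem xi yj h _ _ hu
  · intro C _ _ v hv2
    obtain ⟨x, y, h1, h2⟩ := pt_surj (R := R) xi yj h v hv2
    refine ⟨Sum.elim x y, h1, fun s => ?_⟩
    refine (congrFun (hp C _) s).trans ?_
    exact congrFun h2 s
  · intro C _ _ u u' _ _ h3
    have h4 := (hp C u).symm.trans ((funext h3).trans (hp C u'))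
    funext k
    rcases k with i | j
    · have h5 := congrFun h4 (Sum.inr (0, Sum.inr (Sum.inl i)))
      exact neg_injective h5
    · have h5 := congrFun h4 (Sum.inl (Sum.inr (Sum.inl j), 1))
      exact neg_injective h5

/-- **Incidence systems are universal.** -/
theorem trip_of_core (hP : Bnd sep P) (hc : Core P) (a b c : ℕ)
    (H : Finset (Fin a × Fin b × Fin c)) : P (tripS R H) := by
  classical
  let e : Fin (a * b) ≃ Fin a × Fin b := finProdFinEquiv.symm
  let h : Fin c → Fin (a * b) → Prop := fun l t => ((e t).1, (e t).2, l) ∈ H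
  have h1 := bil_of_core (R := R) (fun t => (e t).1) (fun t => (e t).2) h hP hc
  let f : Fin c → MvPolynomial (Fin a ⊕ Fin b) R := fun l =>
    ∑ i, ∑ j, if (i, j, l) ∈ H then X (Sum.inl i) * X (Sum.inr j) else 0
  have hf : ∀ (C : Type) [CommRing C] [Algebra R C] (u : Fin a ⊕ Fin b → C) (l : Fin c),
      aeval u (f l) = ∑ i, ∑ j, if (i, j, l) ∈ H then u (Sum.inl i) * u (Sum.inr j) else 0 := by
    intro C _ _ u l
    change aeval u (∑ i, ∑ j, if (i, j, l) ∈ H then X (Sum.inl i) * X (Sum.inr j) else 0) = _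
    rw [map_sum]
    refine Finset.sum_congr rfl fun i _ => ?_
    rw [map_sum]
    refine Finset.sum_congr rfl fun j _ => ?_
    split_ifs
    · rw [map_mul, aeval_X, aeval_X]
    · exact map_zero _
  have h2 : Has P (R := R) fun C _ _ (u : Fin a ⊕ Fin b → C) => True ∧ ∀ l, aeval u (f l) = 0 := by
    refine h1.congr fun C _ _ u => ?_
    rw [true_and]
    refine forall_congr' fun l => ?_
    rw [vs_last, hf, ← Fintype.sum_prod_type', ← Equiv.sum_comp e]
    rfl
  have h3 := jou_of_has f hP (has_affine hP (Fin a ⊕ Fin b)) h2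
  have key : ∀ (C : Type) [CommRing C] [Algebra R C] (u : Fin a ⊕ (Fin b ⊕ Fin c) → C),
      ∑ l, aeval (Sum.elim (fun i => u (Sum.inl i)) fun j => u (Sum.inr (Sum.inl j))) (f l) *
        u (Sum.inr (Sum.inr l)) =
      ∑ z ∈ H, u (Sum.inl z.1) * u (Sum.inr (Sum.inl z.2.1)) * u (Sum.inr (Sum.inr z.2.2)) := by
    intro C _ _ u
    simp only [hf, Sum.elim_inl, Sum.elim_inr]
    have h4 : ∑ z ∈ H, u (Sum.inl z.1) * u (Sum.inr (Sum.inl z.2.1)) *
        u (Sum.inr (Sum.inr z.2.2)) = ∑ z : Fin a × Fin b × Fin c, if z ∈ H then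
          u (Sum.inl z.1) * u (Sum.inr (Sum.inl z.2.1)) * u (Sum.inr (Sum.inr z.2.2)) else 0 := by
      rw [Finset.sum_ite_mem, Finset.univ_inter]
    rw [h4, Fintype.sum_prod_type]
    simp only [Fintype.sum_prod_type, Finset.sum_mul, ite_mul, zero_mul]
    rw [Finset.sum_comm]
    exact Finset.sum_congr rfl fun i _ => Finset.sum_comm
  let F : MvPolynomial (Fin a ⊕ (Fin b ⊕ Fin c)) R :=
    ∑ h ∈ H, X (Sum.inl h.1) * X (Sum.inr (Sum.inl h.2.1)) * X (Sum.inr (Sum.inr h.2.2)) - 1
  have hF : ∀ (C : Type) [CommRing C] [Algebra R C] (u : Fin a ⊕ (Fin b ⊕ Fin c) → C),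
      aeval u F = ∑ z ∈ H, u (Sum.inl z.1) * u (Sum.inr (Sum.inl z.2.1)) *
        u (Sum.inr (Sum.inr z.2.2)) - 1 := by
    intro C _ _ u
    change aeval u (∑ h ∈ H, X (Sum.inl h.1) * X (Sum.inr (Sum.inl h.2.1)) *
      X (Sum.inr (Sum.inr h.2.2)) - 1) = _
    rw [map_sub, map_sum, map_one]
    simp only [map_mul, aeval_X]
  have h5 : Has P (R := R) fun C _ _ (u : Fin a ⊕ (Fin b ⊕ Fin c) → C) => aeval u F = 0 := by
    refine h3.iso hP (rep_eq F) (Sum.elim (Sum.elim (fun i => X (Sum.inl i))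
      fun j => X (Sum.inr (Sum.inl j))) fun l => X (Sum.inr (Sum.inr l))) ?_ ?_ ?_
    · intro C _ _ u hu
      refine ⟨trivial, ?_⟩
      rw [hF, ← key, sub_eq_zero] at hu
      rw [← hu]
      refine Finset.sum_congr rfl fun l _ => ?_
      simp only [Sum.elim_inr, aeval_X]
      refine congrArg (fun w : Fin a ⊕ Fin b → C => aeval w (f l) * u (Sum.inr (Sum.inr l))) ?_
      funext s
      rcases s with s | s
      · simp only [Sum.elim_inl, aeval_X]
      · simp only [Sum.elim_inl, Sum.elim_inr, aeval_X]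
    · intro C _ _ u hu
      refine ⟨Sum.elim (fun i => u (Sum.inl (Sum.inl i))) (Sum.elim
        (fun j => u (Sum.inl (Sum.inr j))) fun l => u (Sum.inr l)), ?_, ?_⟩
      · rw [hF, ← key, sub_eq_zero]
        refine Eq.trans ?_ hu.2
        refine Finset.sum_congr rfl fun l _ => ?_
        simp only [Sum.elim_inl, Sum.elim_inr]
        refine congrArg (fun w : Fin a ⊕ Fin b → C => aeval w (f l) * u (Sum.inr l)) ?_
        funext s
        rcases s with s | s <;> rfl
      · rintro ((i | j) | l)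
        · simp only [Sum.elim_inl, aeval_X]
        · simp only [Sum.elim_inl, Sum.elim_inr, aeval_X]
        · simp only [Sum.elim_inr, aeval_X]
    · intro C _ _ u u' _ _ h6
      funext s
      rcases s with s | s | s
      · simpa only [Sum.elim_inl, aeval_X] using h6 (Sum.inl (Sum.inl s))
      · simpa only [Sum.elim_inl, Sum.elim_inr, aeval_X] using h6 (Sum.inl (Sum.inr s))
      · simpa only [Sum.elim_inr, aeval_X] using h6 (Sum.inr s)
  have h6 : P (aff R (Pc (fun _ : Unit => F) 1)) := by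
    refine h5.piece hP _ _ fun C _ _ u => ?_
    constructor
    · intro h7
      exact ⟨fun _ => h7, by rw [map_one]; exact isUnit_one⟩
    · intro h7
      exact h7.1 ()
  have h7 := iso_alg hP.toUni (oneE (fun _ : Unit => F)).symm h6
  rw [Set.range_const] at h7
  exact h7

/-- Every scheme of finite type. -/
theorem all_of_core [IsNoetherianRing R] (hR : Pool.Agent.Q193.LT.Frac R) (hP : Bnd sep P)
    (hc : Core P) (X : Sch R) (hX : FT sep X) : P X :=
  Pool.Agent.Q193.LT.universal_frac hR hP.toUni (fun a b c H => trip_of_core hP hc a b c H) X hX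

/-- **Invertible matrices with prescribed zeros are universal.** -/
theorem all_of_gl [IsNoetherianRing R] (hR : Pool.Agent.Q193.LT.Frac R) (hP : Bnd sep P)
    (h : ∀ (ν : ℕ) (Z : Fin ν → Fin ν → Prop), Has P (GLc R (Fin ν) Z)) (X : Sch R)
    (hX : FT sep X) : P X :=
  all_of_core hR hP (fun I _ _ n ZA ZB Q => core_of_gl hP h I n ZA ZB Q) X hX

end trip

end Pool.Agent.H57.ZP
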