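import Pool.Agent.H57.ZP.Split

/-!
# Matrices with few elements in each row and each column: patterns of zeros
-/

set_option autoImplicit false

open CategoryTheory AlgebraicGeometry MvPolynomial Pool.Agent.Y116.UV Pool.Agent.Z125.UN Matrix

namespace Pool.Agent.H57.ZP

variable {R : Type} [CommRing R] {sep : Prop} {P : Sch R → Prop}

section deg

open Classical in
/-- zero or one -/
noncomputable def nz (p : Prop) : ℕ := if p then 0 else 1

lemma nz_pos {p : Prop} (h : p) : nz p = 0 := if_pos h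

lemma nz_neg {p : Prop} (h : ¬ p) : nz p = 1 := if_neg h

lemma nz_mono {p q : Prop} (h : p → q) : nz q ≤ nz p := by
  by_cases h1 : p
  · rw [nz_pos (h h1)]
    exact Nat.zero_le _
  · rw [nz_neg h1]
    by_cases h2 : q
    · rw [nz_pos h2]
      exact Nat.zero_le _
    · rw [nz_neg h2]

variable {K L : Type} [Fintype K] [Fintype L]

/-- the number of the places outside of `Z` in the column `b` -/
noncomputable def cd (Z : K → L → Prop) (b : L) : ℕ := ∑ a, nz (Z a b)

/-- the number of the places outside of `Z` in the row `a` -/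
noncomputable def rd (Z : K → L → Prop) (a : K) : ℕ := ∑ b, nz (Z a b)

omit [Fintype L] in
lemma cd_mono {Z Z' : K → L → Prop} (b : L) (h : ∀ a, Z a b → Z' a b) : cd Z' b ≤ cd Z b :=
  Finset.sum_le_sum fun a _ => nz_mono (h a)

omit [Fintype K] in
lemma rd_mono {Z Z' : K → L → Prop} (a : K) (h : ∀ b, Z a b → Z' a b) : rd Z' a ≤ rd Z a :=
  Finset.sum_le_sum fun b _ => nz_mono (h b)

/-- the excess -/
noncomputable def exc (Z : K → L → Prop) : ℕ := ∑ b, (cd Z b - 3)

lemma exc_mono {Z Z' : K → L → Prop} (h : ∀ a b, Z a b → Z' a b) : exc Z' ≤ exc Z :=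
  Finset.sum_le_sum fun b _ => Nat.sub_le_sub_right (cd_mono b fun a => h a b) 3

lemma sum_sum_unit {K : Type} [Fintype K] (f : K ⊕ Unit → ℕ) :
    ∑ x, f x = ∑ a, f (Sum.inl a) + f (Sum.inr ()) := by
  rw [Fintype.sum_sum_type]
  congr 1

variable {K : Type} [Fintype K] [DecidableEq K] (Z : K → K → Prop) (q : K) (S : K → Prop)

lemma rd_split (a : K) : rd (SZ Z q S) (Sum.inl a) ≤ rd Z a := by
  classical
  have h0 : rd (SZ Z q S) (Sum.inl a) =
      ∑ b, nz (Z a b ∨ (b = q ∧ ¬ S a)) + nz (Z a q ∨ S a) := by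
    rw [rd, sum_sum_unit]
    rfl
  rw [h0, rd]
  by_cases hS : S a
  · rw [nz_pos (Or.inr hS), add_zero]
    exact Finset.sum_le_sum fun b _ => nz_mono Or.inl
  · rw [← Finset.add_sum_erase _ (fun b => nz (Z a b ∨ (b = q ∧ ¬ S a))) (Finset.mem_univ q),
      nz_pos (Or.inr ⟨rfl, hS⟩), zero_add,
      ← Finset.add_sum_erase _ (fun b => nz (Z a b)) (Finset.mem_univ q), add_comm]
    exact Nat.add_le_add (nz_mono Or.inl) (Finset.sum_le_sum fun b _ => nz_mono Or.inl)

lemma rd_split' (u : Unit) : rd (SZ Z q S) (Sum.inr u) = 2 := by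
  classical
  have h0 : rd (SZ Z q S) (Sum.inr u) = ∑ b, nz (b ≠ q) + nz False := by
    rw [rd, sum_sum_unit]
    rfl
  have h1 : ∑ b, nz (b ≠ q) = 1 := by
    rw [Finset.sum_eq_single q (fun b _ hb => nz_pos hb) fun h => absurd (Finset.mem_univ q) h]
    exact nz_neg (not_not.mpr rfl)
  rw [h0, h1, nz_neg not_false]

lemma cd_split {b : K} (hb : b ≠ q) : cd (SZ Z q S) (Sum.inl b) = cd Z b := by
  have h0 : cd (SZ Z q S) (Sum.inl b) =
      ∑ a, nz (Z a b ∨ (b = q ∧ ¬ S a)) + nz (b ≠ q) := by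
    rw [cd, sum_sum_unit]
    rfl
  rw [h0, nz_pos hb, add_zero, cd]
  refine Finset.sum_congr rfl fun a _ => ?_
  congr 1
  simp [hb]

lemma cd_split_q : cd (SZ Z q S) (Sum.inl q) = cd (fun a (_ : Unit) => Z a q ∨ ¬ S a) () + 1 := by
  have h0 : cd (SZ Z q S) (Sum.inl q) =
      ∑ a, nz (Z a q ∨ (q = q ∧ ¬ S a)) + nz (q ≠ q) := by
    rw [cd, sum_sum_unit]
    rfl
  rw [h0, nz_neg (not_not.mpr rfl), cd]
  simp only [true_and]

lemma cd_split_r (u : Unit) :
    cd (SZ Z q S) (Sum.inr u) = cd (fun a (_ : Unit) => Z a q ∨ S a) () + 1 := by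
  have h0 : cd (SZ Z q S) (Sum.inr u) = ∑ a, nz (Z a q ∨ S a) + nz False := by
    rw [cd, sum_sum_unit]
    rfl
  rw [h0, nz_neg not_false, cd]

omit [DecidableEq K] in
lemma cd_add : cd Z q = cd (fun a (_ : Unit) => Z a q ∨ ¬ S a) () +
    cd (fun a (_ : Unit) => Z a q ∨ S a) () := by
  rw [cd, cd, cd, ← Finset.sum_add_distrib]
  refine Finset.sum_congr rfl fun a _ => ?_
  by_cases h1 : Z a q
  · rw [nz_pos h1, nz_pos (Or.inl h1), nz_pos (Or.inl h1)]
  · by_cases h2 : S a
    · rw [nz_neg h1, nz_neg fun h => h.elim h1 (not_not.mpr h2), nz_pos (Or.inr h2)]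
    · rw [nz_neg h1, nz_pos (Or.inr h2), nz_neg fun h => h.elim h1 h2]

omit [DecidableEq K] in
lemma cd_card [DecidableRel Z] : cd Z q = (Finset.univ.filter fun a => ¬ Z a q).card := by
  rw [cd, Finset.card_filter]
  refine Finset.sum_congr rfl fun a _ => ?_
  by_cases h1 : Z a q
  · rw [nz_pos h1, if_neg (not_not.mpr h1)]
  · rw [nz_neg h1, if_pos h1]

omit [DecidableEq K] in
lemma rd_card [DecidableRel Z] : rd Z q = (Finset.univ.filter fun a => ¬ Z q a).card := by
  rw [rd, Finset.card_filter]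
  refine Finset.sum_congr rfl fun a _ => ?_
  by_cases h1 : Z q a
  · rw [nz_pos h1, if_neg (not_not.mpr h1)]
  · rw [nz_neg h1, if_pos h1]

/-- a set of two elements of the support of a column -/
lemma exists_two (h : 2 ≤ cd Z q) : ∃ S : K → Prop,
    cd (fun a (_ : Unit) => Z a q ∨ ¬ S a) () = 2 := by
  classical
  rw [cd_card] at h
  obtain ⟨T, hT, hT2⟩ := Finset.exists_subset_card_eq h
  refine ⟨fun a => a ∈ T, ?_⟩
  have h2 : cd (fun a (_ : Unit) => Z a q ∨ ¬ a ∈ T) () =
      (Finset.univ.filter fun a => a ∈ T).card := by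
    rw [cd, Finset.card_filter]
    refine Finset.sum_congr rfl fun a _ => ?_
    by_cases h3 : a ∈ T
    · have h4 := (Finset.mem_filter.mp (hT h3)).2
      rw [if_pos h3, nz_neg fun h => h.elim h4 (not_not.mpr h3)]
    · rw [if_neg h3, nz_pos (Or.inr h3)]
  rw [h2]
  simpa using hT2

/-- the splitting reduces the excess -/
lemma exc_split (hq : 4 ≤ cd Z q) (hS : cd (fun a (_ : Unit) => Z a q ∨ ¬ S a) () = 2) :
    exc (SZ Z q S) < exc Z := by
  classical
  have h1 := cd_add Z q S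
  rw [hS] at h1
  rw [exc, exc, sum_sum_unit, ← Finset.add_sum_erase _ _ (Finset.mem_univ q),
    ← Finset.add_sum_erase _ (fun b => cd Z b - 3) (Finset.mem_univ q)]
  have h2 : ∑ b ∈ Finset.univ.erase q, (cd (SZ Z q S) (Sum.inl b) - 3) =
      ∑ b ∈ Finset.univ.erase q, (cd Z b - 3) :=
    Finset.sum_congr rfl fun b hb => by rw [cd_split Z q S (Finset.ne_of_mem_erase hb)]
  rw [h2, cd_split_q, hS, cd_split_r]
  omega

end deg

/-- Splitting of the columns, with a bound `ρ` for the rows. -/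
theorem split_cols (hP : Bnd sep P) (ρ : ℕ → Prop) (h2 : ρ 2) (hρ : ∀ m n, m ≤ n → ρ n → ρ m)
    (h : ∀ (K : Type) [Fintype K] [DecidableEq K] (Z : K → K → Prop), (∀ b, cd Z b ≤ 3) →
      (∀ a, ρ (rd Z a)) → Has P (GLc R K Z)) :
    ∀ (e : ℕ) (K : Type) [Fintype K] [DecidableEq K] (Z : K → K → Prop), exc Z ≤ e →
      (∀ a, ρ (rd Z a)) → Has P (GLc R K Z) := by
  classical
  intro e
  induction e with
  | zero =>
    intro K _ _ Z he hr
    refine h K Z (fun b => ?_) hr
    have h1 : cd Z b - 3 ≤ exc Z :=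
      Finset.single_le_sum (f := fun b => cd Z b - 3) (fun _ _ => Nat.zero_le _)
        (Finset.mem_univ b)
    omega
  | succ e ih =>
    intro K _ _ Z he hr
    by_cases hc : ∀ b, cd Z b ≤ 3
    · exact h K Z hc hr
    · push Not at hc
      obtain ⟨q, hq⟩ := hc
      obtain ⟨S, hS⟩ := exists_two Z q (by omega)
      have hex := exc_split Z q S hq hS
      obtain ⟨p, p1, p2, p3⟩ := split_iso (R := R) q S Z
      refine of_gms hP (Unit ⊕ Unit) (rep_GLc K Z) ?_
      have hrep : IsRep (R := R) fun C _ _ (u : (K × K) ⊕ (Unit ⊕ Unit) → C) =>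
          (GLc R K Z C fun s => u (Sum.inl s)) ∧ ∀ x, IsUnit (u (Sum.inr x)) :=
        ((rep_GLc K Z).reindex Sum.inl).and (rep_vars Sum.inr)
      refine (gl_units_le hP {(Sum.inr (), Sum.inl q), (Sum.inr (), Sum.inr ())}
        (SZ Z q S) fun Z' hZ' => ih (K ⊕ Unit) Z' ?_ ?_).iso hP hrep p p1 p2 p3
      · have h4 := exc_mono hZ'
        omega
      · rintro (a | a)
        · exact hρ _ _ ((rd_mono _ fun b => hZ' _ b).trans (rd_split Z q S a)) (hr a)
        · exact hρ _ _ ((rd_mono _ fun b => hZ' _ b).trans (rd_split' Z q S a).le) h2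

/-- transposition -/
lemma gl_transpose (hP : Bnd sep P) {K : Type} [Fintype K] [DecidableEq K] {Z : K → K → Prop}
    (h : Has P (GLc R K fun a b => Z b a)) : Has P (GLc R K Z) := by
  refine h.iso hP (rep_GLc K Z) (fun x => X (x.2, x.1)) ?_ ?_ ?_
  · intro C _ _ u hu
    simp only [aeval_X]
    refine ⟨fun a b hab => hu.1 b a hab, ?_⟩
    have h1 : (Matrix.det fun a b => u (b, a)) = Matrix.det fun a b => u (a, b) :=
      Matrix.det_transpose (Matrix.of fun a b => u (a, b))
    change IsUnit (Matrix.det fun a b => u (b, a))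
    rw [h1]
    exact hu.2
  · intro C _ _ u hu
    refine ⟨fun x => u (x.2, x.1), ⟨fun a b hab => hu.1 b a hab, ?_⟩, fun x => by rw [aeval_X]⟩
    have h1 : (Matrix.det fun a b => u (b, a)) = Matrix.det fun a b => u (a, b) :=
      Matrix.det_transpose (Matrix.of fun a b => u (a, b))
    change IsUnit (Matrix.det fun a b => u (b, a))
    rw [h1]
    exact hu.2
  · intro C _ _ u u' _ _ h3
    funext x
    simpa only [aeval_X] using h3 (x.2, x.1)

/-- **At most three elements in each row and each column.** -/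
theorem gl_of_three (hP : Bnd sep P)
    (h : ∀ (K : Type) [Fintype K] [DecidableEq K] (Z : K → K → Prop), (∀ b, cd Z b ≤ 3) →
      (∀ a, rd Z a ≤ 3) → Has P (GLc R K Z)) (K : Type) [Fintype K] [DecidableEq K]
    (Z : K → K → Prop) : Has P (GLc R K Z) := by
  have h1 : ∀ (K : Type) [Fintype K] [DecidableEq K] (Z : K → K → Prop), (∀ b, cd Z b ≤ 3) →
      Has P (GLc R K Z) := by
    intro K _ _ Z hZ
    refine gl_transpose hP (split_cols hP (fun n => n ≤ 3) (by norm_num)
      (fun m n hmn hn => hmn.trans hn) (fun K _ _ Z hc hr => h K Z hc hr) _ K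
      (fun a b => Z b a) le_rfl fun a => ?_)
    exact hZ a
  exact split_cols hP (fun _ => True) trivial (fun _ _ _ _ => trivial)
    (fun K _ _ Z hc _ => h1 K Z hc) _ K Z le_rfl fun _ => trivial

end Pool.Agent.H57.ZP
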