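import Pool.Agent.H57.ZP.Sem
import Pool.Agent.H89.L.Y116_UV_Main

/-!
# Affine bundles of Jouanolou and systems of equations, by points
-/

set_option autoImplicit false

open CategoryTheory AlgebraicGeometry MvPolynomial Pool.Agent.Y116.UV Pool.Agent.Z125.UN

namespace Pool.Agent.H57.ZP

variable {R : Type} [CommRing R] {sep : Prop} {P : Sch R → Prop}

lemma has_affine (hP : Bnd sep P) (σ : Type) [Finite σ] :
    Has P (R := R) (σ := σ) fun _ _ _ _ => True := by
  have := Fintype.ofFinite σ
  refine ⟨Empty, fun k => k.elim, 1, fun C _ _ u => ⟨fun _ => ⟨fun x => x.elim, by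
    rw [map_one]; exact isUnit_one⟩, fun _ => trivial⟩, pc_space hP⟩

section gms

lemma rep_vars {σ : Type} {τ : Type} [Finite τ] (f : τ → σ) :
    IsRep (R := R) fun _ _ _ (u : σ → _) => ∀ t, IsUnit (u (f t)) :=
  (rep_units fun t => X (f t)).congr fun C _ _ u => by simp only [aeval_X]

lemma of_gms_aux (hP : Bnd sep P) (n : ℕ) : ∀ {σ : Type} [Finite σ] {F : Cond R σ},
    IsRep F → Has P (R := R) (fun C _ _ (u : σ ⊕ Fin n → C) =>
      (F C fun s => u (Sum.inl s)) ∧ ∀ t, IsUnit (u (Sum.inr t))) → Has P F := by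
  induction n with
  | zero =>
    intro σ _ F hF h
    refine h.iso hP hF (Sum.elim X fun t => t.elim0) ?_ ?_ ?_
    · intro C _ _ u hu
      simp only [Sum.elim_inl, aeval_X]
      exact ⟨hu, fun t => t.elim0⟩
    · intro C _ _ u hu
      refine ⟨fun s => u (Sum.inl s), hu.1, ?_⟩
      rintro (s | t)
      · simp only [Sum.elim_inl, aeval_X]
      · exact t.elim0
    · intro C _ _ u u' _ _ h3
      funext x
      simpa only [Sum.elim_inl, aeval_X] using h3 (Sum.inl x)
  | succ n ih =>
    intro σ _ F hF h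
    refine ih hF (of_gm hP ((hF.reindex Sum.inl).and (rep_vars Sum.inr)) ?_)
    refine h.iso hP ((((hF.reindex Sum.inl).and (rep_vars Sum.inr)).reindex Sum.inl).and
      ((rep_unit (X (Sum.inr ()))).congr fun C _ _ u => by rw [aeval_X]))
      (Sum.elim (fun s => X (Sum.inl (Sum.inl s)))
      (Fin.cons (X (Sum.inr ())) fun t => X (Sum.inl (Sum.inr t)))) ?_ ?_ ?_
    · intro C _ _ u hu
      simp only [Sum.elim_inl, Sum.elim_inr, aeval_X]
      refine ⟨hu.1.1, fun t => ?_⟩
      refine Fin.cases ?_ (fun t => ?_) t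
      · rw [Fin.cons_zero, aeval_X]
        exact hu.2
      · rw [Fin.cons_succ, aeval_X]
        exact hu.1.2 t
    · intro C _ _ u hu
      refine ⟨Sum.elim (Sum.elim (fun s => u (Sum.inl s)) fun t => u (Sum.inr t.succ))
        fun _ => u (Sum.inr 0), ⟨⟨hu.1, fun t => hu.2 _⟩, hu.2 0⟩, ?_⟩
      rintro (s | t)
      · simp only [Sum.elim_inl, aeval_X]
      · refine Fin.cases ?_ (fun t => ?_) t
        · simp only [Sum.elim_inr, Fin.cons_zero, aeval_X]
        · simp only [Sum.elim_inl, Sum.elim_inr, Fin.cons_succ, aeval_X]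
    · intro C _ _ u u' _ _ h3
      funext x
      rcases x with (x | x) | x
      · simpa only [Sum.elim_inl, aeval_X] using h3 (Sum.inl x)
      · simpa only [Sum.elim_inr, Fin.cons_succ, aeval_X] using h3 (Sum.inr x.succ)
      · simpa only [Sum.elim_inr, Fin.cons_zero, aeval_X] using h3 (Sum.inr 0)

/-- descent from the product with a torus -/
lemma of_gms (hP : Bnd sep P) (τ : Type) [Finite τ] {σ : Type} [Finite σ] {F : Cond R σ}
    (hF : IsRep F) (h : Has P (R := R) (fun C _ _ (u : σ ⊕ τ → C) =>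
      (F C fun s => u (Sum.inl s)) ∧ ∀ t, IsUnit (u (Sum.inr t)))) : Has P F := by
  have := Fintype.ofFinite τ
  let e := Fintype.equivFin τ
  refine of_gms_aux hP (Fintype.card τ) hF ?_
  refine h.iso hP ((hF.reindex Sum.inl).and (rep_vars Sum.inr))
    (Sum.elim (fun s => X (Sum.inl s)) fun t => X (Sum.inr (e t))) ?_ ?_ ?_
  · intro C _ _ u hu
    simp only [Sum.elim_inl, Sum.elim_inr, aeval_X]
    exact ⟨hu.1, fun t => hu.2 _⟩
  · intro C _ _ u hu
    refine ⟨Sum.elim (fun s => u (Sum.inl s)) fun t => u (Sum.inr (e.symm t)),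
      ⟨hu.1, fun t => hu.2 _⟩, ?_⟩
    rintro (s | t)
    · simp only [Sum.elim_inl, aeval_X]
    · simp only [Sum.elim_inr, aeval_X, Equiv.symm_apply_apply]
  · intro C _ _ u u' _ _ h3
    funext x
    rcases x with x | x
    · simpa only [Sum.elim_inl, aeval_X] using h3 (Sum.inl x)
    · simpa only [Sum.elim_inr, aeval_X, Equiv.apply_symm_apply] using h3 (Sum.inr (e.symm x))

end gms

section quot

variable {σ κ : Type} (G : κ → MvPolynomial σ R) (w : MvPolynomial σ R) {m : ℕ}
  (f : Fin m → MvPolynomial σ R)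

/-- to the closed part -/
noncomputable def qF : Pc G w →ₐ[R] Pc (Sum.elim G f) w :=
  pcLift G w (pv (Sum.elim G f) w)
    (fun k => by rw [pc_aeval]; exact pc_rel (Sum.elim G f) w (Sum.inl k))
    (by rw [pc_aeval]; exact pc_unit _ _)

lemma qF_pc (p : MvPolynomial σ R) : qF G w f (pc G w p) = pc (Sum.elim G f) w p := by
  rw [qF, pcLift_pc, pc_aeval]

/-- from the closed part -/
noncomputable def qG : Pc (Sum.elim G f) w →ₐ[R]
    Pc G w ⧸ Ideal.span (Set.range fun l => pc G w (f l)) :=
  pcLift (Sum.elim G f) w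
    (fun s => Ideal.Quotient.mkₐ R (Ideal.span (Set.range fun l => pc G w (f l))) (pv G w s))
    (by
      rintro (k | l)
      · rw [aeval_pv_comp]
        change Ideal.Quotient.mkₐ R _ (pc G w (G k)) = 0
        rw [pc_rel, map_zero]
      · rw [aeval_pv_comp]
        exact Ideal.Quotient.eq_zero_iff_mem.mpr (Ideal.subset_span ⟨l, rfl⟩))
    (by
      rw [aeval_pv_comp]
      exact (pc_unit G w).map _)

lemma qG_pv (s : σ) : qG G w f (pv (Sum.elim G f) w s) =
    Ideal.Quotient.mkₐ R (Ideal.span (Set.range fun l => pc G w (f l))) (pv G w s) := by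
  rw [qG, pcLift_pv]

/-- the closed part given by several equations -/
noncomputable def qE : (Pc G w ⧸ Ideal.span (Set.range fun l => pc G w (f l))) ≃ₐ[R]
    Pc (Sum.elim G f) w :=
  AlgEquiv.ofAlgHom
    (Ideal.Quotient.liftₐ _ (qF G w f) (by
        intro x hx
        have h : Ideal.span (Set.range fun l => pc G w (f l)) ≤ RingHom.ker (qF G w f) := by
          rw [Ideal.span_le]
          rintro _ ⟨l, rfl⟩
          change qF G w f (pc G w (f l)) = 0
          rw [qF_pc]
          exact pc_rel (Sum.elim G f) w (Sum.inr l)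
        exact h hx))
    (qG G w f)
    (by
      apply pc_ext
      intro s
      rw [AlgHom.comp_apply, qG_pv]
      exact qF_pc G w f (X s))
    (by
      apply Ideal.Quotient.algHom_ext
      apply pc_ext
      intro s
      have h : qG G w f (qF G w f (pv G w s)) =
          Ideal.Quotient.mkₐ R (Ideal.span (Set.range fun l => pc G w (f l))) (pv G w s) := by
        rw [pv, qF_pc, ← pv, qG_pv]
        rfl
      exact h)

/-- the equation of the affine bundle -/
noncomputable def je : MvPolynomial (σ ⊕ Fin m) R :=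
  ∑ l, rename Sum.inl (f l) * X (Sum.inr l) - 1

/-- the affine bundle as a piece -/
noncomputable def jE : Jou (fun l => pc G w (f l)) ≃ₐ[R]
    Pc (adj (rl G (Fin m)) (je f)) (rename Sum.inl w) :=
  (Ideal.quotientEquivAlg (Ideal.span {∑ l, C (pc G w (f l)) * X l - 1})
    (Ideal.span {pc (rl G (Fin m)) (rename Sum.inl w) (je f)}) (polyE G w (Fin m)) (by
      rw [Ideal.map_span, Set.image_singleton]
      congr 2
      change _ = polyF G w (Fin m) (∑ l, C (pc G w (f l)) * X l - 1)
      rw [je, map_sub, map_one, map_sum, map_sub, map_one, map_sum]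
      congr 1
      refine Finset.sum_congr rfl fun l _ => ?_
      rw [map_mul, map_mul, polyF_X]
      congr 1
      rw [← pc_aeval, aeval_rename, polyF, aevalTower_C, pcLift_pc]
      rfl)).trans
    (cloE (rl G (Fin m)) (rename Sum.inl w) (je f))

end quot

lemma compl_ne {A : Type} [CommRing A] [Algebra R A] {m : ℕ} (f : Fin m → A) :
    IsTriple (affMap (Ideal.Quotient.mkₐ R (Ideal.span (Set.range f))))
      (opnMap (aff R A) (neOpen R f)) := by
  refine ⟨closed_affMap _ (Ideal.Quotient.mkₐ_surjective R _), inferInstance, ?_⟩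
  rw [range_affMap _ (Ideal.Quotient.mkₐ_surjective R _), range_opnMap]
  ext x
  change (∀ a, Ideal.Quotient.mk (Ideal.span (Set.range f)) a = 0 → a ∈ x.asIdeal) ↔
    ¬ ∃ l, f l ∉ x.asIdeal
  push Not
  constructor
  · intro h l
    exact h (f l) (Ideal.Quotient.eq_zero_iff_mem.mpr (Ideal.subset_span ⟨l, rfl⟩))
  · intro h a ha
    rw [Ideal.Quotient.eq_zero_iff_mem] at ha
    refine (Ideal.span_le.mpr ?_ : Ideal.span (Set.range f) ≤ x.asIdeal) ha
    rintro _ ⟨l, rfl⟩
    exact h l

lemma jou_of (hP : Bnd sep P) {A : Type} [CommRing A] [Algebra R A] [Algebra.FiniteType R A]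
    {m : ℕ} (f : Fin m → A) (hA : P (aff R A))
    (hQ : P (aff R (A ⧸ Ideal.span (Set.range f)))) : P (aff R (Jou f)) :=
  hP.bundle A m f (opn (aff R A) (neOpen R f)) (opnMap (aff R A) (neOpen R f)) inferInstance
    (range_opnMap _ _) (hP.opened _ _ (ft_aff sep) (compl_ne f) hQ hA)

section

variable {σ : Type} [Finite σ] {F : Cond R σ} {m : ℕ} (f : Fin m → MvPolynomial σ R)

omit [Finite σ] in
lemma pts_jou {κ : Type} (G : κ → MvPolynomial σ R) (w : MvPolynomial σ R) {C : Type}
    [CommRing C] [Algebra R C] (u : σ ⊕ Fin m → C) :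
    Pts (adj (rl G (Fin m)) (je f)) (rename Sum.inl w) C u ↔
      (Pts G w C fun s => u (Sum.inl s)) ∧
        ∑ l, aeval (fun s => u (Sum.inl s)) (f l) * u (Sum.inr l) = 1 := by
  have h0 : aeval u (je f) = ∑ l, aeval (fun s => u (Sum.inl s)) (f l) * u (Sum.inr l) - 1 := by
    rw [je, map_sub, map_one, map_sum]
    congr 1
    refine Finset.sum_congr rfl fun l _ => ?_
    rw [map_mul, aeval_rename, aeval_X]
    rfl
  unfold Pts
  rw [aeval_rename]
  constructor
  · rintro ⟨h1, h2⟩
    refine ⟨⟨fun x => ?_, h2⟩, ?_⟩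
    · have h3 := h1 (some x)
      change aeval u (rename Sum.inl (G x)) = 0 at h3
      rw [aeval_rename] at h3
      exact h3
    · have h3 := h1 none
      change aeval u (je f) = 0 at h3
      rw [h0] at h3
      exact sub_eq_zero.mp h3
  · rintro ⟨⟨h1, h2⟩, h3⟩
    refine ⟨fun x => ?_, h2⟩
    cases x with
    | none =>
      change aeval u (je f) = 0
      rw [h0, h3, sub_self]
    | some x =>
      change aeval u (rename Sum.inl (G x)) = 0
      rw [aeval_rename]
      exact h1 x

lemma has_of_jou_fin (hP : Bnd sep P) (hF : Has P F)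
    (h : Has P (R := R) fun C _ _ (u : σ ⊕ Fin m → C) => (F C fun s => u (Sum.inl s)) ∧
      ∑ l, aeval (fun s => u (Sum.inl s)) (f l) * u (Sum.inr l) = 1) :
    Has P (R := R) fun C _ _ u => F C u ∧ ∀ l, aeval u (f l) = 0 := by
  obtain ⟨κ, G, w, hG, hp⟩ := hF
  refine ⟨κ ⊕ Fin m, Sum.elim G f, w, fun C _ _ u => ?_, ?_⟩
  · beta_reduce
    rw [hG]
    constructor
    · rintro ⟨⟨h1, h2⟩, h3⟩
      exact ⟨fun x => by rcases x with x | x; exacts [h1 x, h3 x], h2⟩
    · rintro ⟨h1, h2⟩
      exact ⟨⟨fun x => h1 (Sum.inl x), h2⟩, fun l => h1 (Sum.inr l)⟩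
  · have h1 : P (aff R (Pc (adj (rl G (Fin m)) (je f)) (rename Sum.inl w))) := by
      refine h.piece hP _ _ fun C _ _ u => ?_
      beta_reduce
      rw [hG, pts_jou]
    have h2 := iso_alg hP.toUni (jE G w f).symm h1
    exact iso_alg hP.toUni (qE G w f) (of_jou hP.toUni _ hp h2)

lemma jou_of_has_fin (hP : Bnd sep P) (hF : Has P F)
    (h : Has P (R := R) fun C _ _ u => F C u ∧ ∀ l, aeval u (f l) = 0) :
    Has P (R := R) fun C _ _ (u : σ ⊕ Fin m → C) => (F C fun s => u (Sum.inl s)) ∧
      ∑ l, aeval (fun s => u (Sum.inl s)) (f l) * u (Sum.inr l) = 1 := by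
  obtain ⟨κ, G, w, hG, hp⟩ := hF
  refine ⟨Option κ, adj (rl G (Fin m)) (je f), rename Sum.inl w, fun C _ _ u => ?_, ?_⟩
  · beta_reduce
    rw [hG, pts_jou]
  · have h1 : P (aff R (Pc (Sum.elim G f) w)) := by
      refine h.piece hP _ _ fun C _ _ u => ?_
      beta_reduce
      rw [hG]
      constructor
      · rintro ⟨⟨h1, h2⟩, h3⟩
        exact ⟨fun x => by rcases x with x | x; exacts [h1 x, h3 x], h2⟩
      · rintro ⟨h1, h2⟩
        exact ⟨⟨fun x => h1 (Sum.inl x), h2⟩, fun l => h1 (Sum.inr l)⟩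
    have : Algebra.FiniteType R (Jou fun l => pc G w (f l)) :=
      Algebra.FiniteType.trans (S := Pc G w) inferInstance inferInstance
    exact iso_alg hP.toUni (jE G w f) (jou_of hP _ hp (iso_alg hP.toUni (qE G w f).symm h1))

end

section

variable {σ : Type} [Finite σ] {F : Cond R σ} {τ : Type} [Fintype τ] (f : τ → MvPolynomial σ R)

/-- from the affine bundle to the closed part -/
lemma has_of_jou (hP : Bnd sep P) (hF : Has P F)
    (h : Has P (R := R) fun C _ _ (u : σ ⊕ τ → C) => (F C fun s => u (Sum.inl s)) ∧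
      ∑ l, aeval (fun s => u (Sum.inl s)) (f l) * u (Sum.inr l) = 1) :
    Has P (R := R) fun C _ _ u => F C u ∧ ∀ l, aeval u (f l) = 0 := by
  let e := Fintype.equivFin τ
  have hrep : IsRep (R := R) fun C _ _ (u : σ ⊕ Fin (Fintype.card τ) → C) =>
      (F C fun s => u (Sum.inl s)) ∧
        ∑ l, aeval (fun s => u (Sum.inl s)) (f (e.symm l)) * u (Sum.inr l) = 1 := by
    refine ((hF.rep.reindex Sum.inl).and (rep_eq (je fun l => f (e.symm l)))).congr
      fun C _ _ u => ?_
    rw [je, map_sub, map_one, map_sum, sub_eq_zero]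
    simp only [map_mul, aeval_rename, aeval_X]
    rfl
  refine (has_of_jou_fin (fun l => f (e.symm l)) hP hF ?_).congr fun C _ _ u => ?_
  · refine h.iso hP hrep (Sum.elim (fun s => X (Sum.inl s)) fun t => X (Sum.inr (e t))) ?_ ?_ ?_
    · intro C _ _ u hu
      simp only [Sum.elim_inl, Sum.elim_inr, aeval_X]
      refine ⟨hu.1, ?_⟩
      rw [← hu.2, ← Equiv.sum_comp e]
      simp only [Equiv.symm_apply_apply]
    · intro C _ _ u hu
      refine ⟨Sum.elim (fun s => u (Sum.inl s)) fun t => u (Sum.inr (e.symm t)), ⟨hu.1, ?_⟩, ?_⟩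
      · simp only [Sum.elim_inl, Sum.elim_inr]
        rw [← hu.2, ← Equiv.sum_comp e.symm]
      · rintro (s | t)
        · simp only [Sum.elim_inl, aeval_X]
        · simp only [Sum.elim_inr, aeval_X, Equiv.symm_apply_apply]
    · intro C _ _ u u' _ _ h3
      funext x
      rcases x with x | x
      · simpa only [Sum.elim_inl, aeval_X] using h3 (Sum.inl x)
      · simpa only [Sum.elim_inr, aeval_X, Equiv.apply_symm_apply] using h3 (Sum.inr (e.symm x))
  · exact and_congr_right fun _ => ⟨fun h l => by simpa using h (e l), fun h l => h _⟩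

/-- from the closed part to the affine bundle -/
lemma jou_of_has (hP : Bnd sep P) (hF : Has P F)
    (h : Has P (R := R) fun C _ _ u => F C u ∧ ∀ l, aeval u (f l) = 0) :
    Has P (R := R) fun C _ _ (u : σ ⊕ τ → C) => (F C fun s => u (Sum.inl s)) ∧
      ∑ l, aeval (fun s => u (Sum.inl s)) (f l) * u (Sum.inr l) = 1 := by
  let e := Fintype.equivFin τ
  have h1 := jou_of_has_fin (fun l => f (e.symm l)) hP hF (h.congr fun C _ _ u =>
    and_congr_right fun _ => ⟨fun h l => h _, fun h l => by simpa using h (e l)⟩)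
  have hrep : IsRep (R := R) fun C _ _ (u : σ ⊕ τ → C) => (F C fun s => u (Sum.inl s)) ∧
        ∑ l, aeval (fun s => u (Sum.inl s)) (f l) * u (Sum.inr l) = 1 := by
    refine ((hF.rep.reindex Sum.inl).and (rep_eq (∑ l, rename Sum.inl (f l) * X (Sum.inr l) - 1
      : MvPolynomial (σ ⊕ τ) R))).congr fun C _ _ u => ?_
    rw [map_sub, map_one, map_sum, sub_eq_zero]
    simp only [map_mul, aeval_rename, aeval_X]
    rfl
  refine h1.iso hP hrep (Sum.elim (fun s => X (Sum.inl s)) fun t => X (Sum.inr (e.symm t))) ?_ ?_ ?_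
  · intro C _ _ u hu
    simp only [Sum.elim_inl, Sum.elim_inr, aeval_X]
    refine ⟨hu.1, ?_⟩
    rw [← hu.2, ← Equiv.sum_comp e.symm]
  · intro C _ _ u hu
    refine ⟨Sum.elim (fun s => u (Sum.inl s)) fun t => u (Sum.inr (e t)), ⟨hu.1, ?_⟩, ?_⟩
    · simp only [Sum.elim_inl, Sum.elim_inr]
      rw [← hu.2, ← Equiv.sum_comp e]
      simp only [Equiv.symm_apply_apply]
    · rintro (s | t)
      · simp only [Sum.elim_inl, aeval_X]
      · simp only [Sum.elim_inr, aeval_X, Equiv.apply_symm_apply]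
  · intro C _ _ u u' _ _ h3
    funext x
    rcases x with x | x
    · simpa only [Sum.elim_inl, aeval_X] using h3 (Sum.inl x)
    · simpa only [Sum.elim_inr, aeval_X, Equiv.symm_apply_apply] using h3 (Sum.inr (e x))

end

end Pool.Agent.H57.ZP
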