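import Pool.Agent.H57.ZP.Rank

/-!
# Incidence systems with prescribed elements from partial matrices
-/

set_option autoImplicit false

open CategoryTheory AlgebraicGeometry MvPolynomial Pool.Agent.Y116.UV Pool.Agent.Z125.UN Matrix

namespace Pool.Agent.H57.ZP

variable {R : Type} [CommRing R] {sep : Prop} {P : Sch R → Prop}

/-- prescribed values -/
def VK {σ : Type} (Z : σ → Option R) : Cond R σ :=
  fun C _ _ u => ∀ x c, Z x = some c → u x = algebraMap R C c

lemma rep_VK {σ : Type} (Z : σ → Option R) : IsRep (VK Z) := by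
  refine (rep_all fun x : {x : σ × R // Z x.1 = some x.2} =>
    (X x.1.1 - C x.1.2 : MvPolynomial σ R)).congr fun C _ _ u => ?_
  simp only [map_sub, aeval_X, aeval_C, sub_eq_zero]
  exact ⟨fun h x c hx => h ⟨(x, c), hx⟩, fun h x => h _ _ x.2⟩

/-- the invertible matrices with prescribed elements -/
def GLk (K : Type) [Fintype K] [DecidableEq K] (Z : K × K → Option R) : Cond R (K × K) :=
  fun C _ _ N => VK Z C N ∧ IsUnit (Matrix.det fun a b => N (a, b))

lemma rep_GLk (K : Type) [Fintype K] [DecidableEq K] (Z : K × K → Option R) :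
    IsRep (GLk K Z) := by
  refine ((rep_VK Z).and (rep_unit (Matrix.det (Matrix.of fun a b =>
    (X (a, b) : MvPolynomial (K × K) R))))).congr fun C _ _ u => ?_
  have h2 : aeval u (Matrix.det (Matrix.of fun a b => (X (a, b) : MvPolynomial (K × K) R))) =
      Matrix.det fun a b => u (a, b) := by
    rw [AlgHom.map_det]
    congr 1
    ext a b
    exact aeval_X _ _
  rw [h2]
  rfl

lemma glk_type (hP : Bnd sep P) (h : ∀ (ν : ℕ) (Z : Fin ν × Fin ν → Option R),
    Has P (GLk (Fin ν) Z)) (K : Type) [Fintype K] [DecidableEq K] (Z : K × K → Option R) :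
    Has P (GLk K Z) := by
  let e := Fintype.equivFin K
  have hdet : ∀ (C : Type) [CommRing C] (u : K × K → C),
      (Matrix.det fun a b => u (e.symm a, e.symm b)) = Matrix.det fun a b => u (a, b) :=
    fun C _ u => Matrix.det_submatrix_equiv_self e.symm fun a b => u (a, b)
  refine (h (Fintype.card K) fun x => Z (e.symm x.1, e.symm x.2)).iso hP (rep_GLk K Z)
    (fun x => X (e.symm x.1, e.symm x.2)) ?_ ?_ ?_
  · intro C _ _ u hu
    simp only [aeval_X]
    refine ⟨fun x c hx => hu.1 _ _ hx, ?_⟩
    change IsUnit (Matrix.det fun a b => u (e.symm a, e.symm b))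
    rw [hdet]
    exact hu.2
  · intro C _ _ u hu
    refine ⟨fun x => u (e x.1, e x.2), ⟨fun x c hx => hu.1 _ _ ?_, ?_⟩, fun x => ?_⟩
    · simpa using hx
    · rw [← hdet C fun x => u (e x.1, e x.2)]
      simpa using hu.2
    · simp
  · intro C _ _ u u' _ _ h3
    funext x
    have h4 := h3 (e x.1, e x.2)
    simpa using h4

/-- the matrices of rank at most three with prescribed elements -/
def RCk (K L : Type) (Z : K × L → Option R) : Cond R (K × L) :=
  fun C _ _ N => VK Z C N ∧
    ∀ (α : Fin 4 → K) (β : Fin 4 → L), Matrix.det (Matrix.of fun i j => N (α i, β j)) = 0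

lemma rep_RCk (K L : Type) (Z : K × L → Option R) : IsRep (RCk K L Z) := by
  refine ((rep_VK Z).and (rep_all fun x : (Fin 4 → K) × (Fin 4 → L) =>
    Matrix.det (Matrix.of fun i j =>
      (X (x.1 i, x.2 j) : MvPolynomial (K × L) R)))).congr fun C _ _ u => ?_
  simp only [aeval_minor]
  exact and_congr Iff.rfl ⟨fun h α β => h (α, β), fun h x => h _ _⟩

lemma rck_type (hP : Bnd sep P)
    (h : ∀ (μ ν : ℕ) (Z : Fin μ × Fin ν → Option R), Has P (RCk (Fin μ) (Fin ν) Z))
    (K L : Type) [Fintype K] [Fintype L] (Z : K × L → Option R) : Has P (RCk K L Z) := by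
  let e := Fintype.equivFin K
  let f := Fintype.equivFin L
  refine (h (Fintype.card K) (Fintype.card L) fun x => Z (e.symm x.1, f.symm x.2)).iso hP
    (rep_RCk K L Z) (fun x => X (e.symm x.1, f.symm x.2)) ?_ ?_ ?_
  · intro C _ _ u hu
    simp only [aeval_X]
    exact ⟨fun x c hx => hu.1 _ _ hx, fun α β => hu.2 (fun i => e.symm (α i))
      fun j => f.symm (β j)⟩
  · intro C _ _ u hu
    refine ⟨fun x => u (e x.1, f x.2), ⟨fun x c hx => hu.1 _ _ (by simpa using hx),
      fun α β => hu.2 (fun i => e (α i)) fun j => f (β j)⟩, fun x => by simp⟩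
  · intro C _ _ u u' _ _ h3
    funext x
    simpa using h3 (e x.1, f x.2)

/-- prescribed values and prescribed incidences -/
def KK {I J : Type} (Z : CV I J → Option R) (Q : J → I → Prop) : Cond R (CV I J) :=
  fun C _ _ u => VK Z C u ∧
    ∀ j i, Q j i → ∑ s, u (Sum.inl (i, s)) * u (Sum.inr (s, j)) = 0

lemma rep_KK {I J : Type} (Z : CV I J → Option R) (Q : J → I → Prop) : IsRep (KK Z Q) := by
  refine ((rep_VK Z).and
    (rep_all fun x : {x : J × I // Q x.1 x.2} => (∑ s, X (Sum.inl (x.1.2, s)) *
      X (Sum.inr (s, x.1.1)) : MvPolynomial (CV I J) R))).congr fun C _ _ u => ?_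
  simp only [aeval_X, map_sum, map_mul]
  exact and_congr Iff.rfl ⟨fun h j i hx => h ⟨(j, i), hx⟩, fun h x => h _ _ x.2⟩

/-- the hypothesis on the incidence systems with prescribed elements -/
def CoreK (P : Sch R → Prop) : Prop :=
  ∀ (I : Type) [Fintype I] [DecidableEq I] (n : ℕ) (Z : CV I (Fin n) → Option R)
    (Q : Fin n → I → Prop), Has P (KK Z Q)

section rank

variable {I : Type} {n : ℕ}

open Classical in
/-- the partial matrix -/
noncomputable def ZLk (Z : CV I (Fin n) → Option R) (Q : Fin n → I → Prop) :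
    (Fin 3 ⊕ I) × (Fin 3 ⊕ Fin n) → Option R
  | (.inl s, .inl s') => some (if s = s' then 1 else 0)
  | (.inl s, .inr j) => Z (.inr (s, j))
  | (.inr i, .inl s) => Z (.inl (i, s))
  | (.inr i, .inr j) => if Q j i then some 0 else none

/-- **Incidence systems with prescribed elements from matrices of rank at most three.** -/
theorem coreK_of_rank (hP : Bnd sep P)
    (h : ∀ (μ ν : ℕ) (Z : Fin μ × Fin ν → Option R), Has P (RCk (Fin μ) (Fin ν) Z)) :
    CoreK P := by
  classical
  intro I _ _ n Z Q
  have s1 := rck_type hP h (Fin 3 ⊕ I) (Fin 3 ⊕ Fin n) (ZLk Z Q)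
  let p : (Fin 3 ⊕ I) × (Fin 3 ⊕ Fin n) → MvPolynomial (CV I (Fin n)) R :=
    RR (fun _ => 1) (fun i s => X (Sum.inl (i, s))) fun s j => X (Sum.inr (s, j))
  have hp : ∀ (C : Type) [CommRing C] [Algebra R C] (u : CV I (Fin n) → C),
      (fun s => aeval u (p s)) = RR (fun _ => 1)
        (fun i s => u (Sum.inl (i, s))) fun s j => u (Sum.inr (s, j)) := by
    intro C _ _ u
    funext x
    have h1 := map_RR (aeval u : MvPolynomial (CV I (Fin n)) R →ₐ[R] C).toRingHom
      (fun _ => 1) (fun i s => X (Sum.inl (i, s))) (fun s j => X (Sum.inr (s, j))) x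
    refine h1.trans ?_
    congr 1
    · funext s
      exact map_one _
    · funext i s
      exact aeval_X _ _
    · funext i s
      exact aeval_X _ _
  refine s1.iso hP (rep_KK Z Q) p ?_ ?_ ?_
  · intro C _ _ u hu
    rw [hp]
    obtain ⟨hZ, hQ⟩ := hu
    refine ⟨?_, RR_minor _ _ _⟩
    rintro ⟨s | i, s' | j⟩ c hc
    · rw [RR_ll]
      have hc' : (if s = s' then (1 : R) else 0) = c := Option.some.inj hc
      rw [← hc']
      split_ifs
      · exact (map_one _).symm
      · exact (map_zero _).symm
    · rw [RR_lr]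
      exact hZ _ _ hc
    · rw [RR_rl, mul_one]
      exact hZ _ _ hc
    · rw [RR_rr]
      change (if Q j i then some (0 : R) else none) = some c at hc
      split_ifs at hc with h1
      rw [← Option.some.inj hc, map_zero]
      exact hQ j i h1
  · intro C _ _ v hv
    obtain ⟨hZ, hm⟩ := hv
    have hD : ∀ s s' : Fin 3, v (Sum.inl s, Sum.inl s') = if s = s' then 1 else 0 := by
      intro s s'
      refine (hZ (Sum.inl s, Sum.inl s') _ rfl).trans ?_
      split_ifs
      · exact map_one _
      · exact map_zero _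
    have h1 := RR_surj v (fun s s' hs => by rw [hD, if_neg hs]) hm (fun _ => 1)
      (fun s => by rw [hD, if_pos rfl, mul_one])
    have h2 : RR (fun _ => (1 : C)) (fun i s => v (Sum.inr i, Sum.inl s))
        (fun s j => v (Sum.inl s, Sum.inr j)) = v := by
      refine Eq.trans ?_ h1
      congr 1
      · funext s
        rw [hD, if_pos rfl]
      · funext i s
        rw [mul_one]
    refine ⟨Sum.elim (fun x => v (Sum.inr x.1, Sum.inl x.2))
      fun x => v (Sum.inl x.1, Sum.inr x.2), ⟨?_, ?_⟩, fun s => ?_⟩
    · rintro (x | x) c hc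
      · exact hZ (Sum.inr x.1, Sum.inl x.2) c hc
      · exact hZ (Sum.inl x.1, Sum.inr x.2) c hc
    · intro j i hji
      refine (congrFun h2 (Sum.inr i, Sum.inr j)).trans ?_
      refine (hZ (Sum.inr i, Sum.inr j) 0 (if_pos hji)).trans (map_zero _)
    · exact (congrFun (hp C _) s).trans (congrFun h2 s)
  · intro C _ _ u u' _ _ h3
    have h4 := (hp C u).symm.trans ((funext h3).trans (hp C u'))
    funext x
    rcases x with ⟨i, s⟩ | ⟨s, j⟩
    · have h5 := congrFun h4 (Sum.inr i, Sum.inl s)
      rw [RR_rl, RR_rl, mul_one, mul_one] at h5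
      exact h5
    · have h5 := congrFun h4 (Sum.inl s, Sum.inr j)
      rw [RR_lr, RR_lr] at h5
      exact h5

end rank

section base

variable {I : Type} [Fintype I] [DecidableEq I] {n m : ℕ}

open Classical in
/-- the partial matrix -/
noncomputable def ZKk (Z : SV I n → Option R) (Q : Fin n → I → Prop) (ι : Fin m → Fin n)
    (Φ : Fin m → Prop) : ((Fin 3 ⊕ I) ⊕ Fin m) × ((Fin 3 ⊕ I) ⊕ Fin m) → Option R
  | (.inl (.inl s), .inl (.inl s')) => some (if s = s' then 1 else 0)
  | (.inl (.inl _), .inl (.inr _)) => some 0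
  | (.inl (.inl s), .inr p) => Z (.inr (s, ι p))
  | (.inl (.inr i), .inl (.inl s)) => Z (.inl (i, s))
  | (.inl (.inr i), .inl (.inr i')) => some (if i = i' then 1 else 0)
  | (.inl (.inr _), .inr _) => some 0
  | (.inr _, .inl (.inl _)) => some 0
  | (.inr p, .inl (.inr i)) => if Φ p ∨ ¬ Q (ι p) i then some 0 else none
  | (.inr p, .inr q) => if p = q ∧ ¬ Φ p then some 0 else none

/-- the pieces of `peel` from the invertible matrices with prescribed elements -/
lemma baseK_YC (hP : Bnd sep P)
    (h : ∀ (K : Type) [Fintype K] [DecidableEq K] (Z : K × K → Option R), Has P (GLk K Z))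
    (Z : SV I n → Option R) (Q : Fin n → I → Prop) (ι : Fin m → Fin n) (Φ : Fin m → Prop)
    (hι : Function.Injective ι) : Has P (YC (VK Z) (ff R) Q ι Φ) := by
  classical
  let K := (Fin 3 ⊕ I) ⊕ Fin m
  have s1 := has_free hP (Fin 3 × Fin n) (fun t => t.2 ∈ Set.range ι ∨ Z (Sum.inr t) ≠ none)
    (h K (ZKk Z Q ι Φ))
  have hrep : IsRep (YC (VK Z) (ff R) Q ι Φ) := rep_YC (rep_VK Z)
  let p : (K × K) ⊕ (Fin 3 × Fin n) → MvPolynomial (YV (SV I n) I m) R :=
    Sum.elim (fun x => NN (fun _ => 1) (fun _ => 1)
      (fun i s => X (Sum.inl (Sum.inl (i, s))))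
      (fun s p => X (Sum.inl (Sum.inr (s, ι p))))
      (fun p i => X (Sum.inr (Sum.inl (p, i))))
      (fun p q => X (Sum.inr (Sum.inr (p, q)))) x.1 x.2)
      fun t => if t.2 ∈ Set.range ι then 0 else
        X (Sum.inl (Sum.inr t)) - C ((Z (Sum.inr t)).getD 0)
  have hp : ∀ (C : Type) [CommRing C] [Algebra R C] (u : YV (SV I n) I m → C),
      (fun s => aeval u (p s)) =
      Sum.elim (fun x => NN (fun _ => 1) (fun _ => 1)
      (fun i s => u (Sum.inl (Sum.inl (i, s))))
      (fun s p => u (Sum.inl (Sum.inr (s, ι p))))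
      (fun p i => u (Sum.inr (Sum.inl (p, i))))
      (fun p q => u (Sum.inr (Sum.inr (p, q)))) x.1 x.2)
      fun t => if t.2 ∈ Set.range ι then 0 else
        u (Sum.inl (Sum.inr t)) - algebraMap R C ((Z (Sum.inr t)).getD 0) := by
    intro C _ _ u
    funext x
    rcases x with x | t
    · have h1 := map_NN (aeval u : MvPolynomial (YV (SV I n) I m) R →ₐ[R] C).toRingHom
        (fun _ => 1) (fun _ => 1)
        (fun i s => X (Sum.inl (Sum.inl (i, s))))
        (fun s p => X (Sum.inl (Sum.inr (s, ι p))))
        (fun p i => X (Sum.inr (Sum.inl (p, i))))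
        (fun p q => X (Sum.inr (Sum.inr (p, q)))) x.1 x.2
      refine h1.trans ?_
      change _ = NN _ _ _ _ _ _ x.1 x.2
      congr 1
      · funext s; exact map_one _
      · funext s; exact map_one _
      · funext s; funext t; exact aeval_X _ _
      · funext s; funext t; exact aeval_X _ _
      · funext s; funext t; exact aeval_X _ _
      · funext s; funext t; exact aeval_X _ _
    · change aeval u (if t.2 ∈ Set.range ι then 0 else
        X (Sum.inl (Sum.inr t)) - MvPolynomial.C ((Z (Sum.inr t)).getD 0)) =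
        if t.2 ∈ Set.range ι then 0 else _
      split_ifs
      · exact map_zero _
      · rw [map_sub, aeval_X, aeval_C]
  have hdetN : ∀ (C : Type) [CommRing C] (A : I → Fin 3 → C) (B : Fin 3 → Fin m → C)
      (T : Fin m → I → C) (W : Fin m → Fin m → C),
      (NN (fun _ => 1) (fun _ => 1) A B T W).det = Matrix.det (Matrix.of W) := by
    intro C _ A B T W
    rw [det_NN]
    have h1 : (∏ x : Fin 3 ⊕ I, Sum.elim (fun _ => (1 : C)) (fun _ => 1) x) = 1 :=
      Finset.prod_eq_one fun x _ => by rcases x with x | x <;> rfl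
    rw [h1, one_mul]
  refine s1.iso hP hrep p ?_ ?_ ?_
  · intro C _ _ u hu
    rw [hp]
    obtain ⟨⟨hZ, hT, hW⟩, hdet⟩ := hu
    refine ⟨⟨?_, ?_⟩, fun t ht => ?_⟩
    · rintro ⟨a, b⟩ c hc
      rcases a with (s | i) | p
      · rcases b with (s' | i') | q
        · change (if s = s' then (1 : C) else 0) = _
          rw [← Option.some.inj (hc : some (if s = s' then (1 : R) else 0) = some c)]
          split_ifs
          · exact (map_one _).symm
          · exact (map_zero _).symm
        · change (0 : C) = _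
          rw [← Option.some.inj (hc : some (0 : R) = some c), map_zero]
        · exact hZ _ _ hc
      · rcases b with (s' | i') | q
        · change u (Sum.inl (Sum.inl (i, s'))) * 1 = _
          rw [mul_one]
          exact hZ _ _ hc
        · change (if i = i' then (1 : C) else 0) = _
          rw [← Option.some.inj (hc : some (if i = i' then (1 : R) else 0) = some c)]
          split_ifs
          · exact (map_one _).symm
          · exact (map_zero _).symm
        · change (0 : C) = _
          rw [← Option.some.inj (hc : some (0 : R) = some c), map_zero]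
      · rcases b with (s' | i') | q
        · change (0 : C) = _
          rw [← Option.some.inj (hc : some (0 : R) = some c), map_zero]
        · change u (Sum.inr (Sum.inl (p, i'))) * 1 = _
          change (if Φ p ∨ ¬ Q (ι p) i' then some (0 : R) else none) = some c at hc
          split_ifs at hc with h1
          rw [mul_one, ← Option.some.inj hc, map_zero]
          exact hT _ _ h1
        · change (if p = q ∧ ¬ Φ p then some (0 : R) else none) = some c at hc
          split_ifs at hc with h1
          obtain ⟨rfl, hΦ⟩ := h1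
          rw [← Option.some.inj hc, map_zero]
          have h5 := hW p hΦ
          change u (Sum.inr (Sum.inr (p, p))) - ∑ i, _ = 0
          rw [sub_eq_zero]
          refine h5.trans (Finset.sum_congr rfl fun i _ => ?_)
          rw [aeval_ff]
    · change IsUnit (NN _ _ _ _ _ _).det
      rw [hdetN]
      exact hdet
    · change (if t.2 ∈ Set.range ι then 0 else u (Sum.inl (Sum.inr t)) - _) = 0
      split_ifs with h6
      · rfl
      · obtain ⟨c, hc⟩ := Option.ne_none_iff_exists'.mp (ht.resolve_left h6)
        rw [hc, sub_eq_zero]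
        exact hZ _ _ hc
  · intro C _ _ v hv
    obtain ⟨⟨hZ0, hdet⟩, he⟩ := hv
    have hZ : ∀ a b c, ZKk Z Q ι Φ (a, b) = some c → v (Sum.inl (a, b)) = algebraMap R C c :=
      fun a b c hc => hZ0 (a, b) c hc
    let u : YV (SV I n) I m → C :=
      Sum.elim (Sum.elim
        (fun x => v (Sum.inl (Sum.inl (Sum.inr x.1), Sum.inl (Sum.inl x.2))))
        (fun x => if h : ∃ p, ι p = x.2 then v (Sum.inl (Sum.inl (Sum.inl x.1), Sum.inr h.choose))
          else v (Sum.inr x) + algebraMap R C ((Z (Sum.inr x)).getD 0)))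
        (Sum.elim (fun x => v (Sum.inl (Sum.inr x.1, Sum.inl (Sum.inr x.2))))
          fun x => v (Sum.inl (Sum.inr x.1, Sum.inr x.2)) +
            ∑ i, v (Sum.inl (Sum.inr x.1, Sum.inl (Sum.inr i))) *
              ∑ s, v (Sum.inl (Sum.inl (Sum.inr i), Sum.inl (Sum.inl s))) *
                v (Sum.inl (Sum.inl (Sum.inl s), Sum.inr x.2)))
    have hB : ∀ s q, u (Sum.inl (Sum.inr (s, ι q))) =
        v (Sum.inl (Sum.inl (Sum.inl s), Sum.inr q)) := by
      intro s q
      have hex : ∃ p, ι p = ι q := ⟨q, rfl⟩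
      have h7 : hex.choose = q := hι hex.choose_spec
      refine (dif_pos hex).trans ?_
      rw [h7]
    have hNN : (NN (fun _ => 1) (fun _ => 1)
        (fun i s => u (Sum.inl (Sum.inl (i, s))))
        (fun s p => u (Sum.inl (Sum.inr (s, ι p))))
        (fun p i => u (Sum.inr (Sum.inl (p, i))))
        (fun p q => u (Sum.inr (Sum.inr (p, q))))) = fun a b => v (Sum.inl (a, b)) := by
      funext a b
      rcases a with (s | i) | p
      · rcases b with (s' | i') | q
        · refine Eq.trans ?_ (hZ (Sum.inl (Sum.inl s)) (Sum.inl (Sum.inl s')) _ rfl).symm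
          change (if s = s' then (1 : C) else 0) = _
          split_ifs
          · exact (map_one _).symm
          · exact (map_zero _).symm
        · exact ((hZ (Sum.inl (Sum.inl s)) (Sum.inl (Sum.inr i')) _ rfl).trans
            (map_zero _)).symm
        · exact hB s q
      · rcases b with (s' | i') | q
        · change v _ * 1 = _
          rw [mul_one]
        · refine Eq.trans ?_ (hZ (Sum.inl (Sum.inr i)) (Sum.inl (Sum.inr i')) _ rfl).symm
          change (if i = i' then (1 : C) else 0) = _
          split_ifs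
          · exact (map_one _).symm
          · exact (map_zero _).symm
        · exact ((hZ (Sum.inl (Sum.inr i)) (Sum.inr q) _ rfl).trans (map_zero _)).symm
      · rcases b with (s' | i') | q
        · exact ((hZ (Sum.inr p) (Sum.inl (Sum.inl s')) _ rfl).trans (map_zero _)).symm
        · change v _ * 1 = _
          rw [mul_one]
        · change (v (Sum.inl (Sum.inr p, Sum.inr q)) + _) - ∑ i, v _ *
            ∑ s, v _ * u (Sum.inl (Sum.inr (s, ι q))) = _
          simp only [hB]
          exact add_sub_cancel_right _ _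
    have hmap : (fun s => aeval u (p s)) = v := by
      rw [hp]
      funext x
      rcases x with ⟨a, b⟩ | t
      · exact congrFun (congrFun hNN a) b
      · change (if t.2 ∈ Set.range ι then 0 else
          u (Sum.inl (Sum.inr t)) - algebraMap R C ((Z (Sum.inr t)).getD 0)) = _
        split_ifs with h6
        · exact (he t (Or.inl h6)).symm
        · have h8 : u (Sum.inl (Sum.inr t)) =
              v (Sum.inr t) + algebraMap R C ((Z (Sum.inr t)).getD 0) := dif_neg h6
          rw [h8]
          exact add_sub_cancel_right _ _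
    refine ⟨u, ⟨⟨?_, fun q i hq => ?_, fun q hq => ?_⟩, ?_⟩, fun s => congrFun hmap s⟩
    · rintro (⟨i, s⟩ | ⟨s, j⟩) c hc
      · exact hZ (Sum.inl (Sum.inr i)) (Sum.inl (Sum.inl s)) c hc
      · change (if h : ∃ p, ι p = j then v (Sum.inl (Sum.inl (Sum.inl s), Sum.inr h.choose))
          else v (Sum.inr (s, j)) + algebraMap R C ((Z (Sum.inr (s, j))).getD 0)) = _
        split_ifs with h6
        · refine hZ (Sum.inl (Sum.inl s)) (Sum.inr _) c ?_
          change Z (Sum.inr (s, ι h6.choose)) = some c
          rw [h6.choose_spec]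
          exact hc
        · have h9 : v (Sum.inr (s, j)) = 0 := he (s, j) (Or.inr (by
            rw [show Z (Sum.inr (s, j)) = some c from hc]
            exact Option.some_ne_none c))
          rw [h9, zero_add, show Z (Sum.inr (s, j)) = some c from hc]
          rfl
    · exact (hZ (Sum.inr q) (Sum.inl (Sum.inr i)) 0 (if_pos hq)).trans (map_zero _)
    · have h9 : v (Sum.inl (Sum.inr q, Sum.inr q)) = 0 :=
        (hZ (Sum.inr q) (Sum.inr q) 0 (if_pos ⟨rfl, hq⟩)).trans (map_zero _)
      change v (Sum.inl (Sum.inr q, Sum.inr q)) + _ = _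
      rw [h9, zero_add]
      refine Finset.sum_congr rfl fun i _ => ?_
      rw [aeval_ff]
      change _ = v _ * ∑ s, v _ * u (Sum.inl (Sum.inr (s, ι q)))
      simp only [hB]
    · have h7 : IsUnit (NN (fun _ => 1) (fun _ => 1)
        (fun i s => u (Sum.inl (Sum.inl (i, s))))
        (fun s p => u (Sum.inl (Sum.inr (s, ι p))))
        (fun p i => u (Sum.inr (Sum.inl (p, i))))
        (fun p q => u (Sum.inr (Sum.inr (p, q))))).det := by
        rw [hNN]
        exact hdet
      rw [hdetN] at h7
      exact h7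
  · intro C _ _ u u' hu hu' h3
    have h4 := (hp C u).symm.trans ((funext h3).trans (hp C u'))
    have e2 : ∀ i s, u (Sum.inl (Sum.inl (i, s))) = u' (Sum.inl (Sum.inl (i, s))) := by
      intro i s
      have h5 := congrFun h4 (Sum.inl (Sum.inl (Sum.inr i), Sum.inl (Sum.inl s)))
      change u _ * 1 = u' _ * 1 at h5
      rwa [mul_one, mul_one] at h5
    have e3 : ∀ s j, u (Sum.inl (Sum.inr (s, j))) = u' (Sum.inl (Sum.inr (s, j))) := by
      intro s j
      by_cases hj : j ∈ Set.range ι
      · obtain ⟨q, rfl⟩ := hj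
        exact congrFun h4 (Sum.inl (Sum.inl (Sum.inl s), Sum.inr q))
      · have h5 := congrFun h4 (Sum.inr (s, j))
        change (if j ∈ Set.range ι then 0 else u (Sum.inl (Sum.inr (s, j))) - _) =
          if j ∈ Set.range ι then 0 else u' (Sum.inl (Sum.inr (s, j))) - _ at h5
        rw [if_neg hj, if_neg hj] at h5
        exact sub_left_injective h5
    have e4 : ∀ q i, u (Sum.inr (Sum.inl (q, i))) = u' (Sum.inr (Sum.inl (q, i))) := by
      intro q i
      have h5 := congrFun h4 (Sum.inl (Sum.inr q, Sum.inl (Sum.inr i)))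
      change u _ * 1 = u' _ * 1 at h5
      rwa [mul_one, mul_one] at h5
    have e5 : ∀ q r, u (Sum.inr (Sum.inr (q, r))) = u' (Sum.inr (Sum.inr (q, r))) := by
      intro q r
      have h5 := congrFun h4 (Sum.inl (Sum.inr q, Sum.inr r))
      simp only [Sum.elim_inl, NN, e2, e3, e4] at h5
      exact sub_left_injective h5
    funext x
    rcases x with (⟨i, s⟩ | ⟨s, j⟩) | ⟨q, i⟩ | ⟨q, r⟩
    · exact e2 i s
    · exact e3 s j
    · exact e4 q i
    · exact e5 q r

/-- **Incidence systems with prescribed elements from invertible matrices.** -/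
theorem coreK_of_gl (hP : Bnd sep P)
    (h : ∀ (ν : ℕ) (Z : Fin ν × Fin ν → Option R), Has P (GLk (Fin ν) Z)) : CoreK P := by
  classical
  intro I _ _ n Z Q
  refine (peel hP n (rep_VK Z) (ff R) Q (fun _ _ => Classical.propDecidable _) fun m ι hι Φ =>
    baseK_YC hP (glk_type hP h) Z Q ι Φ hι).congr fun C _ _ u => ?_
  simp only [aeval_ff]
  rfl

end base

end Pool.Agent.H57.ZP
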