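import Pool.Agent.H57.ZP.KBase

/-!
# Incidence systems with prescribed elements are universal
-/

set_option autoImplicit false

open CategoryTheory AlgebraicGeometry MvPolynomial Pool.Agent.Y116.UV Pool.Agent.Z125.UN

namespace Pool.Agent.H57.ZP

variable {R : Type} [CommRing R] {sep : Prop} {P : Sch R → Prop}

lemma coreK_type {I J : Type} [Fintype I] [DecidableEq I] [Fintype J] (hP : Bnd sep P)
    (h : CoreK P) (Z : CV I J → Option R) (Q : J → I → Prop) : Has P (KK Z Q) := by
  let e := Fintype.equivFin J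
  have h1 := h I (Fintype.card J) (Sum.elim (fun x => Z (Sum.inl x))
    fun x => Z (Sum.inr (x.1, e.symm x.2))) (fun j i => Q (e.symm j) i)
  refine h1.iso hP (rep_KK Z Q) (Sum.elim (fun x => X (Sum.inl x))
    fun x => X (Sum.inr (x.1, e.symm x.2))) ?_ ?_ ?_
  · intro C _ _ u hu
    refine ⟨?_, fun j i hji => ?_⟩
    · rintro (x | x) c hc
      · simp only [Sum.elim_inl, aeval_X]
        exact hu.1 _ _ hc
      · simp only [Sum.elim_inr, aeval_X]
        exact hu.1 _ _ hc
    · simp only [Sum.elim_inl, Sum.elim_inr, aeval_X]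
      exact hu.2 _ _ hji
  · intro C _ _ u hu
    refine ⟨Sum.elim (fun x => u (Sum.inl x)) fun x => u (Sum.inr (x.1, e x.2)), ⟨?_, ?_⟩, ?_⟩
    · rintro (x | x) c hc
      · exact hu.1 (Sum.inl x) c hc
      · exact hu.1 (Sum.inr (x.1, e x.2)) c (by simpa using hc)
    · intro j i hji
      exact hu.2 (e j) i (by simpa using hji)
    · rintro (x | x)
      · simp
      · simp
  · intro C _ _ u u' _ _ h3
    funext x
    rcases x with x | x
    · simpa using h3 (Sum.inl x)
    · simpa using h3 (Sum.inr (x.1, e x.2))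

section conf

variable {a b c m : ℕ} (xi : Fin m → Fin a) (yj : Fin m → Fin b) (κ : Fin c → Fin m → R)

/-- the rows -/
abbrev RK (b c m : ℕ) : Type :=
  (Fin c × Fin (m + 1)) ⊕ (Fin b ⊕ ((Fin c × Fin m) ⊕ ((Fin c × Fin m) ⊕ (Fin c × Fin m))))

/-- the columns -/
abbrev CKo (a c m : ℕ) : Type :=
  (Fin c × Fin (m + 1)) ⊕ (Fin a ⊕ ((Fin c × Fin m) ⊕ (Fin c × Fin m)))

/-- the prescribed elements of the rows -/
def ZRk : RK b c m → Fin 3 → Option R
  | .inl x => ![some 1, if x.2 = 0 ∨ x.2 = Fin.last m then some 0 else none, some 0]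
  | .inr (.inl _) => ![some 1, none, some 0]
  | .inr (.inr (.inl x)) => ![some (κ x.1 x.2), some 0, some 1]
  | .inr (.inr (.inr (.inl _))) => ![some 0, none, some 1]
  | .inr (.inr (.inr (.inr _))) => ![some 1, none, none]

/-- the prescribed elements of the columns -/
def ZCk : CKo a c m → Fin 3 → Option R
  | .inl _ => ![none, some 1, some 0]
  | .inr (.inl _) => ![none, some 0, some 1]
  | .inr (.inr (.inl _)) => ![none, some 1, none]
  | .inr (.inr (.inr _)) => ![none, some 1, none]

/-- the incidences -/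
def QQk : CKo a c m → RK b c m → Prop
  | .inl x, .inl z => x = z
  | .inl x, .inr (.inr (.inr (.inr z))) => x = (z.1, z.2.castSucc)
  | .inr (.inl i), .inr (.inr (.inr (.inr z))) => i = xi z.2
  | .inr (.inr (.inl x)), .inr (.inl j) => j = yj x.2
  | .inr (.inr (.inl x)), .inr (.inr (.inl z)) => x = z
  | .inr (.inr (.inl x)), .inr (.inr (.inr (.inl z))) => x = z
  | .inr (.inr (.inr x)), .inl z => z = (x.1, x.2.succ)
  | .inr (.inr (.inr x)), .inr (.inr (.inr (.inl z))) => x = z
  | .inr (.inr (.inr x)), .inr (.inr (.inr (.inr z))) => x = z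
  | _, _ => False

/-- the prescribed elements -/
def Zck : CV (RK b c m) (CKo a c m) → Option R :=
  Sum.elim (fun x => ZRk κ x.1 x.2) fun x => ZCk x.2 x.1

variable {C : Type} [CommRing C] (x : Fin a → C) (y : Fin b → C) (η : Fin c → Fin m → C)

/-- partial sums -/
def ws (l : Fin c) (k : ℕ) : C :=
  ∑ t ∈ Finset.univ.filter (fun t : Fin m => (t : ℕ) < k), x (xi t) * (η l t * y (yj t))

lemma ws_zero (l : Fin c) : ws xi yj x y η l 0 = 0 := by
  rw [ws]
  simp

lemma ws_succ (l : Fin c) (t : Fin m) :
    ws xi yj x y η l (t + 1) = ws xi yj x y η l t + x (xi t) * (η l t * y (yj t)) := by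
  classical
  rw [ws, ws]
  have h1 : (Finset.univ.filter fun t' : Fin m => (t' : ℕ) < t + 1) =
      insert t (Finset.univ.filter fun t' : Fin m => (t' : ℕ) < t) := by
    ext t'
    simp only [Finset.mem_filter, Finset.mem_univ, true_and, Finset.mem_insert, Fin.ext_iff]
    omega
  rw [h1, Finset.sum_insert (by simp), add_comm]

lemma ws_last (l : Fin c) : ws xi yj x y η l m = ∑ t, x (xi t) * (η l t * y (yj t)) := by
  rw [ws]
  congr 1
  ext t
  simp

/-- the rows -/
def rowk : RK b c m → Fin 3 → C
  | .inl z => ![1, ws xi yj x y η z.1 z.2, 0]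
  | .inr (.inl j) => ![1, y j, 0]
  | .inr (.inr (.inl z)) => ![η z.1 z.2, 0, 1]
  | .inr (.inr (.inr (.inl z))) => ![0, -(η z.1 z.2 * y (yj z.2)), 1]
  | .inr (.inr (.inr (.inr z))) => ![1, ws xi yj x y η z.1 z.2, x (xi z.2)]

/-- the columns -/
def colk : CKo a c m → Fin 3 → C
  | .inl z => ![-ws xi yj x y η z.1 z.2, 1, 0]
  | .inr (.inl i) => ![-x i, 0, 1]
  | .inr (.inr (.inl z)) => ![-y (yj z.2), 1, η z.1 z.2 * y (yj z.2)]
  | .inr (.inr (.inr z)) => ![-ws xi yj x y η z.1 (z.2 + 1), 1, η z.1 z.2 * y (yj z.2)]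

/-- the configuration -/
def ptk : CV (RK b c m) (CKo a c m) → C :=
  Sum.elim (fun z => rowk xi yj x y η z.1 z.2) fun z => colk xi yj x y η z.2 z.1

lemma ptk_mem [Algebra R C] (hη : ∀ l t, η l t = algebraMap R C (κ l t))
    (hv : ∀ l, ws xi yj x y η l m = 0) :
    KK (Zck κ) (QQk xi yj) C (ptk xi yj x y η) := by
  refine ⟨?_, ?_⟩
  · rintro (⟨i, s⟩ | ⟨s, j⟩) e he
    · change ZRk κ i s = some e at he
      change rowk xi yj x y η i s = _
      rcases i with z | j | z | z | z
      · fin_cases s
        · rw [← Option.some.inj he, map_one]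
          rfl
        · change (if z.2 = 0 ∨ z.2 = Fin.last m then some (0 : R) else none) = some e at he
          change ws xi yj x y η z.1 z.2 = _
          split_ifs at he with h1
          rw [← Option.some.inj he, map_zero]
          rcases h1 with h1 | h1
          · rw [h1]
            exact ws_zero xi yj x y η _
          · rw [h1]
            exact hv _
        · rw [← Option.some.inj he, map_zero]
          rfl
      · fin_cases s
        · rw [← Option.some.inj he, map_one]
          rfl
        · exact absurd he (Option.some_ne_none e).symm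
        · rw [← Option.some.inj he, map_zero]
          rfl
      · fin_cases s
        · rw [← Option.some.inj he]
          exact hη _ _
        · rw [← Option.some.inj he, map_zero]
          rfl
        · rw [← Option.some.inj he, map_one]
          rfl
      · fin_cases s
        · rw [← Option.some.inj he, map_zero]
          rfl
        · exact absurd he (Option.some_ne_none e).symm
        · rw [← Option.some.inj he, map_one]
          rfl
      · fin_cases s
        · rw [← Option.some.inj he, map_one]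
          rfl
        · exact absurd he (Option.some_ne_none e).symm
        · exact absurd he (Option.some_ne_none e).symm
    · change ZCk j s = some e at he
      change colk xi yj x y η j s = _
      rcases j with z | i | z | z
      · fin_cases s
        · exact absurd he (Option.some_ne_none e).symm
        · rw [← Option.some.inj he, map_one]
          rfl
        · rw [← Option.some.inj he, map_zero]
          rfl
      · fin_cases s
        · exact absurd he (Option.some_ne_none e).symm
        · rw [← Option.some.inj he, map_zero]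
          rfl
        · rw [← Option.some.inj he, map_one]
          rfl
      · fin_cases s
        · exact absurd he (Option.some_ne_none e).symm
        · rw [← Option.some.inj he, map_one]
          rfl
        · exact absurd he (Option.some_ne_none e).symm
      · fin_cases s
        · exact absurd he (Option.some_ne_none e).symm
        · rw [← Option.some.inj he, map_one]
          rfl
        · exact absurd he (Option.some_ne_none e).symm
  · intro j i hji
    rw [Fin.sum_univ_three]
    rcases j with z | j | z | z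
    · rcases i with w | i | w | w | w
      · change z = w at hji
        subst hji
        change 1 * (-ws xi yj x y η z.1 z.2) + ws xi yj x y η z.1 z.2 * 1 + 0 * 0 = 0
        ring
      · exact hji.elim
      · exact hji.elim
      · exact hji.elim
      · change z = (w.1, w.2.castSucc) at hji
        subst hji
        change 1 * (-ws xi yj x y η w.1 w.2) + ws xi yj x y η w.1 w.2 * 1 + _ * 0 = 0
        ring
    · rcases i with w | i | w | w | w
      · exact hji.elim
      · exact hji.elim
      · exact hji.elim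
      · exact hji.elim
      · change j = xi w.2 at hji
        subst hji
        change 1 * (-x (xi w.2)) + _ * 0 + x (xi w.2) * 1 = 0
        ring
    · rcases i with w | i | w | w | w
      · exact hji.elim
      · change i = yj z.2 at hji
        subst hji
        change 1 * (-y (yj z.2)) + y (yj z.2) * 1 + 0 * _ = 0
        ring
      · change z = w at hji
        subst hji
        change η z.1 z.2 * (-y (yj z.2)) + 0 * 1 + 1 * (η z.1 z.2 * y (yj z.2)) = 0
        ring
      · change z = w at hji
        subst hji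
        change 0 * (-y (yj z.2)) + -(η z.1 z.2 * y (yj z.2)) * 1 +
          1 * (η z.1 z.2 * y (yj z.2)) = 0
        ring
      · exact hji.elim
    · rcases i with w | i | w | w | w
      · change w = (z.1, z.2.succ) at hji
        subst hji
        change 1 * (-ws xi yj x y η z.1 (z.2 + 1)) +
          ws xi yj x y η z.1 (z.2.succ : Fin (m + 1)) * 1 + 0 * _ = 0
        rw [Fin.val_succ]
        ring
      · exact hji.elim
      · exact hji.elim
      · change z = w at hji
        subst hji
        change 0 * _ + -(η z.1 z.2 * y (yj z.2)) * 1 + 1 * (η z.1 z.2 * y (yj z.2)) = 0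
        ring
      · change z = w at hji
        subst hji
        change 1 * (-ws xi yj x y η z.1 (z.2 + 1)) + ws xi yj x y η z.1 z.2 * 1 +
          x (xi z.2) * (η z.1 z.2 * y (yj z.2)) = 0
        rw [ws_succ]
        ring

lemma ptk_surj [Algebra R C] (hη : ∀ l t, η l t = algebraMap R C (κ l t))
    (v : CV (RK b c m) (CKo a c m) → C)
    (hv : KK (Zck κ) (QQk xi yj) C v) : ∃ (x : Fin a → C) (y : Fin b → C),
      (∀ l, ws xi yj x y η l m = 0) ∧ ptk xi yj x y η = v := by
  obtain ⟨hZ, hQ⟩ := hv
  simp only [Fin.sum_univ_three] at hQ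
  have a1 : ∀ z : Fin c × Fin (m + 1), v (Sum.inl (Sum.inl z, 0)) = 1 := fun z =>
    (hZ (Sum.inl (Sum.inl z, 0)) 1 rfl).trans (map_one _)
  have aa : ∀ (l : Fin c) (t : Fin (m + 1)), t = 0 ∨ t = Fin.last m →
      v (Sum.inl (Sum.inl (l, t), 1)) = 0 := fun l t ht =>
    (hZ (Sum.inl (Sum.inl (l, t), 1)) 0 (if_pos ht)).trans (map_zero _)
  have a2 : ∀ l : Fin c, v (Sum.inl (Sum.inl (l, 0), 1)) = 0 := fun l => aa l 0 (Or.inl rfl)
  have a3 : ∀ l : Fin c, v (Sum.inl (Sum.inl (l, Fin.last m), 1)) = 0 :=
    fun l => aa l _ (Or.inr rfl)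
  have a4 : ∀ z : Fin c × Fin (m + 1), v (Sum.inl (Sum.inl z, 2)) = 0 := fun z =>
    (hZ (Sum.inl (Sum.inl z, 2)) 0 rfl).trans (map_zero _)
  have a5 : ∀ j : Fin b, v (Sum.inl (Sum.inr (Sum.inl j), 0)) = 1 := fun z =>
    (hZ (Sum.inl (Sum.inr (Sum.inl z), 0)) 1 rfl).trans (map_one _)
  have a6 : ∀ j : Fin b, v (Sum.inl (Sum.inr (Sum.inl j), 2)) = 0 := fun z =>
    (hZ (Sum.inl (Sum.inr (Sum.inl z), 2)) 0 rfl).trans (map_zero _)
  have a7 : ∀ z : Fin c × Fin m, v (Sum.inl (Sum.inr (Sum.inr (Sum.inl z)), 0)) =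
      η z.1 z.2 := fun z =>
    (hZ (Sum.inl (Sum.inr (Sum.inr (Sum.inl z)), 0)) _ rfl).trans (hη _ _).symm
  have a8 : ∀ z : Fin c × Fin m, v (Sum.inl (Sum.inr (Sum.inr (Sum.inl z)), 1)) = 0 := fun z =>
    (hZ (Sum.inl (Sum.inr (Sum.inr (Sum.inl z)), 1)) 0 rfl).trans (map_zero _)
  have a9 : ∀ z : Fin c × Fin m, v (Sum.inl (Sum.inr (Sum.inr (Sum.inl z)), 2)) = 1 := fun z =>
    (hZ (Sum.inl (Sum.inr (Sum.inr (Sum.inl z)), 2)) 1 rfl).trans (map_one _)
  have a10 : ∀ z : Fin c × Fin m, v (Sum.inl (Sum.inr (Sum.inr (Sum.inr (Sum.inl z))), 0)) = 0 :=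
    fun z => (hZ (Sum.inl (Sum.inr (Sum.inr (Sum.inr (Sum.inl z))), 0)) 0 rfl).trans (map_zero _)
  have a11 : ∀ z : Fin c × Fin m, v (Sum.inl (Sum.inr (Sum.inr (Sum.inr (Sum.inl z))), 2)) = 1 :=
    fun z => (hZ (Sum.inl (Sum.inr (Sum.inr (Sum.inr (Sum.inl z))), 2)) 1 rfl).trans (map_one _)
  have a12 : ∀ z : Fin c × Fin m, v (Sum.inl (Sum.inr (Sum.inr (Sum.inr (Sum.inr z))), 0)) = 1 :=
    fun z => (hZ (Sum.inl (Sum.inr (Sum.inr (Sum.inr (Sum.inr z))), 0)) 1 rfl).trans (map_one _)
  have b1 : ∀ z : Fin c × Fin (m + 1), v (Sum.inr (1, Sum.inl z)) = 1 := fun z =>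
    (hZ (Sum.inr (1, Sum.inl z)) 1 rfl).trans (map_one _)
  have b2 : ∀ z : Fin c × Fin (m + 1), v (Sum.inr (2, Sum.inl z)) = 0 := fun z =>
    (hZ (Sum.inr (2, Sum.inl z)) 0 rfl).trans (map_zero _)
  have b3 : ∀ i : Fin a, v (Sum.inr (1, Sum.inr (Sum.inl i))) = 0 := fun z =>
    (hZ (Sum.inr (1, Sum.inr (Sum.inl z))) 0 rfl).trans (map_zero _)
  have b4 : ∀ i : Fin a, v (Sum.inr (2, Sum.inr (Sum.inl i))) = 1 := fun z =>
    (hZ (Sum.inr (2, Sum.inr (Sum.inl z))) 1 rfl).trans (map_one _)
  have b5 : ∀ z : Fin c × Fin m, v (Sum.inr (1, Sum.inr (Sum.inr (Sum.inl z)))) = 1 := fun z =>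
    (hZ (Sum.inr (1, Sum.inr (Sum.inr (Sum.inl z)))) 1 rfl).trans (map_one _)
  have b6 : ∀ z : Fin c × Fin m, v (Sum.inr (1, Sum.inr (Sum.inr (Sum.inr z)))) = 1 := fun z =>
    (hZ (Sum.inr (1, Sum.inr (Sum.inr (Sum.inr z)))) 1 rfl).trans (map_one _)
  let x : Fin a → C := fun i => -v (Sum.inr (0, Sum.inr (Sum.inl i)))
  let y : Fin b → C := fun j => v (Sum.inl (Sum.inr (Sum.inl j), 1))
  have p0 : ∀ z : Fin c × Fin (m + 1), v (Sum.inr (0, Sum.inl z)) =
      -v (Sum.inl (Sum.inl z, 1)) := by
    intro z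
    have h1 := hQ (Sum.inl z) (Sum.inl z) rfl
    rw [a1, b1, a4] at h1
    linear_combination h1
  have q1 : ∀ z : Fin c × Fin m, v (Sum.inl (Sum.inr (Sum.inr (Sum.inr (Sum.inr z))), 1)) =
      v (Sum.inl (Sum.inl (z.1, z.2.castSucc), 1)) := by
    intro z
    have h1 := hQ (Sum.inl (z.1, z.2.castSucc)) (Sum.inr (Sum.inr (Sum.inr (Sum.inr z)))) rfl
    rw [a12, b1, b2, p0] at h1
    linear_combination h1
  have q2 : ∀ z : Fin c × Fin m, v (Sum.inl (Sum.inr (Sum.inr (Sum.inr (Sum.inr z))), 2)) =
      x (xi z.2) := by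
    intro z
    have h1 := hQ (Sum.inr (Sum.inl (xi z.2))) (Sum.inr (Sum.inr (Sum.inr (Sum.inr z)))) rfl
    rw [a12, b3, b4] at h1
    change _ = -v (Sum.inr (0, Sum.inr (Sum.inl (xi z.2))))
    linear_combination h1
  have s0 : ∀ z : Fin c × Fin m, v (Sum.inr (0, Sum.inr (Sum.inr (Sum.inl z)))) =
      -y (yj z.2) := by
    intro z
    have h1 := hQ (Sum.inr (Sum.inr (Sum.inl z))) (Sum.inr (Sum.inl (yj z.2))) rfl
    rw [a5, a6, b5] at h1
    change _ = -v (Sum.inl (Sum.inr (Sum.inl (yj z.2)), 1))
    linear_combination h1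
  have s2 : ∀ z : Fin c × Fin m, v (Sum.inr (2, Sum.inr (Sum.inr (Sum.inl z)))) =
      η z.1 z.2 * y (yj z.2) := by
    intro z
    have h1 := hQ (Sum.inr (Sum.inr (Sum.inl z))) (Sum.inr (Sum.inr (Sum.inl z))) rfl
    rw [a7, a8, a9, s0] at h1
    linear_combination h1
  have t1 : ∀ z : Fin c × Fin m, v (Sum.inl (Sum.inr (Sum.inr (Sum.inr (Sum.inl z))), 1)) =
      -(η z.1 z.2 * y (yj z.2)) := by
    intro z
    have h1 := hQ (Sum.inr (Sum.inr (Sum.inl z))) (Sum.inr (Sum.inr (Sum.inr (Sum.inl z)))) rfl
    rw [a10, a11, b5, s2] at h1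
    linear_combination h1
  have w2 : ∀ z : Fin c × Fin m, v (Sum.inr (2, Sum.inr (Sum.inr (Sum.inr z)))) =
      η z.1 z.2 * y (yj z.2) := by
    intro z
    have h1 := hQ (Sum.inr (Sum.inr (Sum.inr z))) (Sum.inr (Sum.inr (Sum.inr (Sum.inl z)))) rfl
    rw [a10, a11, b6, t1] at h1
    linear_combination h1
  have w0 : ∀ z : Fin c × Fin m, v (Sum.inr (0, Sum.inr (Sum.inr (Sum.inr z)))) =
      -v (Sum.inl (Sum.inl (z.1, z.2.succ), 1)) := by
    intro z
    have h1 := hQ (Sum.inr (Sum.inr (Sum.inr z))) (Sum.inl (z.1, z.2.succ)) rfl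
    rw [a1, a4, b6] at h1
    linear_combination h1
  have g : ∀ z : Fin c × Fin m, v (Sum.inl (Sum.inl (z.1, z.2.succ), 1)) =
      v (Sum.inl (Sum.inl (z.1, z.2.castSucc), 1)) +
        x (xi z.2) * (η z.1 z.2 * y (yj z.2)) := by
    intro z
    have h1 := hQ (Sum.inr (Sum.inr (Sum.inr z))) (Sum.inr (Sum.inr (Sum.inr (Sum.inr z)))) rfl
    rw [a12, b6, q1, q2, w0, w2] at h1
    linear_combination -h1
  have w : ∀ (l : Fin c) (t : Fin (m + 1)), v (Sum.inl (Sum.inl (l, t), 1)) =
      ws xi yj x y η l t := by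
    intro l t
    induction t using Fin.induction with
    | zero => rw [a2, Fin.val_zero, ws_zero]
    | succ t ih =>
      rw [g (l, t), ih, Fin.val_succ, ws_succ]
      rfl
  refine ⟨x, y, fun l => ?_, ?_⟩
  · have h1 := w l (Fin.last m)
    rw [a3, Fin.val_last] at h1
    exact h1.symm
  · funext k
    rcases k with ⟨i, s⟩ | ⟨s, j⟩
    · rcases i with z | j | z | z | z
      · fin_cases s
        · exact (a1 z).symm
        · exact (w z.1 z.2).symm
        · exact (a4 z).symm
      · fin_cases s
        · exact (a5 j).symm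
        · rfl
        · exact (a6 j).symm
      · fin_cases s
        · exact (a7 z).symm
        · exact (a8 z).symm
        · exact (a9 z).symm
      · fin_cases s
        · exact (a10 z).symm
        · exact (t1 z).symm
        · exact (a11 z).symm
      · fin_cases s
        · exact (a12 z).symm
        · exact ((q1 z).trans (w _ _)).symm
        · exact (q2 z).symm
    · rcases j with z | j | z | z
      · fin_cases s
        · refine Eq.trans ?_ (p0 z).symm
          rw [w z.1 z.2]
          rfl
        · exact (b1 z).symm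
        · exact (b2 z).symm
      · fin_cases s
        · exact neg_neg _
        · exact (b3 j).symm
        · exact (b4 j).symm
      · fin_cases s
        · exact (s0 z).symm
        · exact (b5 z).symm
        · exact (s2 z).symm
      · fin_cases s
        · refine Eq.trans ?_ (w0 z).symm
          rw [w z.1 z.2.succ]
          rfl
        · exact (b6 z).symm
        · exact (w2 z).symm

lemma map_ws {C' : Type} [CommRing C'] (f : C →+* C') (l : Fin c) (k : ℕ) :
    f (ws xi yj x y η l k) =
      ws xi yj (fun i => f (x i)) (fun j => f (y j)) (fun l t => f (η l t)) l k := by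
  rw [ws, ws, map_sum]
  exact Finset.sum_congr rfl fun t _ => by rw [map_mul, map_mul]

lemma map_ptk {C' : Type} [CommRing C'] (f : C →+* C') (k : CV (RK b c m) (CKo a c m)) :
    f (ptk xi yj x y η k) =
      ptk xi yj (fun i => f (x i)) (fun j => f (y j)) (fun l t => f (η l t)) k := by
  rcases k with ⟨i, s⟩ | ⟨s, j⟩
  · rcases i with z | j | z | z | z
    · fin_cases s
      · exact map_one f
      · exact map_ws xi yj x y η f _ _
      · exact map_zero f
    · fin_cases s
      · exact map_one f
      · rfl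
      · exact map_zero f
    · fin_cases s
      · rfl
      · exact map_zero f
      · exact map_one f
    · fin_cases s
      · exact map_zero f
      · exact (map_neg f _).trans (congrArg _ (map_mul f _ _))
      · exact map_one f
    · fin_cases s
      · exact map_one f
      · exact map_ws xi yj x y η f _ _
      · rfl
  · rcases j with z | j | z | z
    · fin_cases s
      · exact (map_neg f _).trans (congrArg _ (map_ws xi yj x y η f _ _))
      · exact map_one f
      · exact map_zero f
    · fin_cases s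
      · exact map_neg f _
      · exact map_zero f
      · exact map_one f
    · fin_cases s
      · exact map_neg f _
      · exact map_one f
      · exact map_mul f _ _
    · fin_cases s
      · exact (map_neg f _).trans (congrArg _ (map_ws xi yj x y η f _ _))
      · exact map_one f
      · exact map_mul f _ _

/-- systems of bilinear equations -/
lemma bil_of_coreK (hP : Bnd sep P) (hc : CoreK P) :
    Has P (R := R) fun C _ _ (u : Fin a ⊕ Fin b → C) =>
      ∀ l, ws xi yj (fun i => u (Sum.inl i)) (fun j => u (Sum.inr j))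
        (fun l t => algebraMap R C (κ l t)) l m = 0 := by
  have hA : ∀ (C : Type) [CommRing C] [Algebra R C] (u : Fin a ⊕ Fin b → C) (r : R),
      (aeval u : MvPolynomial (Fin a ⊕ Fin b) R →ₐ[R] C).toRingHom
        (algebraMap R (MvPolynomial (Fin a ⊕ Fin b) R) r) = algebraMap R C r :=
    fun C _ _ u r => (aeval u : MvPolynomial (Fin a ⊕ Fin b) R →ₐ[R] C).commutes r
  have hv : ∀ (C : Type) [CommRing C] [Algebra R C] (u : Fin a ⊕ Fin b → C) (l : Fin c) (k : ℕ),
      aeval u (ws xi yj (fun i => (X (Sum.inl i) : MvPolynomial (Fin a ⊕ Fin b) R))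
        (fun j => X (Sum.inr j)) (fun l t => algebraMap R _ (κ l t)) l k) =
        ws xi yj (fun i => u (Sum.inl i)) (fun j => u (Sum.inr j))
          (fun l t => algebraMap R C (κ l t)) l k := by
    intro C _ _ u l k
    have h1 := map_ws xi yj (fun i => (X (Sum.inl i) : MvPolynomial (Fin a ⊕ Fin b) R))
      (fun j => X (Sum.inr j)) (fun l t => algebraMap R _ (κ l t))
      (aeval u : MvPolynomial (Fin a ⊕ Fin b) R →ₐ[R] C).toRingHom l k
    refine h1.trans ?_
    congr 1
    · funext i
      exact aeval_X _ _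
    · funext i
      exact aeval_X _ _
    · funext l t
      exact hA C u _
  have hp : ∀ (C : Type) [CommRing C] [Algebra R C] (u : Fin a ⊕ Fin b → C),
      (fun k => aeval u (ptk xi yj (fun i => (X (Sum.inl i) : MvPolynomial (Fin a ⊕ Fin b) R))
        (fun j => X (Sum.inr j)) (fun l t => algebraMap R _ (κ l t)) k)) =
        ptk xi yj (fun i => u (Sum.inl i)) (fun j => u (Sum.inr j))
          (fun l t => algebraMap R C (κ l t)) := by
    intro C _ _ u
    funext k
    have h1 := map_ptk xi yj (fun i => (X (Sum.inl i) : MvPolynomial (Fin a ⊕ Fin b) R))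
      (fun j => X (Sum.inr j)) (fun l t => algebraMap R _ (κ l t))
      (aeval u : MvPolynomial (Fin a ⊕ Fin b) R →ₐ[R] C).toRingHom k
    refine h1.trans ?_
    congr 1
    · funext i
      exact aeval_X _ _
    · funext i
      exact aeval_X _ _
    · funext l t
      exact hA C u _
  refine (coreK_type hP hc (Zck κ) (QQk xi yj)).iso hP ?_
    (ptk xi yj (fun i => X (Sum.inl i)) (fun j => X (Sum.inr j))
      fun l t => algebraMap R _ (κ l t)) ?_ ?_ ?_
  · refine (rep_all fun l : Fin c => ws xi yj (fun i => (X (Sum.inl i) :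
      MvPolynomial (Fin a ⊕ Fin b) R)) (fun j => X (Sum.inr j))
      (fun l t => algebraMap R _ (κ l t)) l m).congr fun C _ _ u => ?_
    simp only [hv]
  · intro C _ _ u hu
    rw [hp]
    exact ptk_mem xi yj κ _ _ _ (fun _ _ => rfl) hu
  · intro C _ _ v hv2
    obtain ⟨x, y, h1, h2⟩ := ptk_surj xi yj κ (fun l t => algebraMap R C (κ l t))
      (fun _ _ => rfl) v hv2
    refine ⟨Sum.elim x y, h1, fun s => ?_⟩
    exact (congrFun (hp C _) s).trans (congrFun h2 s)
  · intro C _ _ u u' _ _ h3
    have h4 := (hp C u).symm.trans ((funext h3).trans (hp C u'))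
    funext k
    rcases k with i | j
    · have h5 := congrFun h4 (Sum.inr (0, Sum.inr (Sum.inl i)))
      exact neg_injective h5
    · exact congrFun h4 (Sum.inl (Sum.inr (Sum.inl j), 1))

end conf

/-- **Incidence systems with prescribed elements are universal.** -/
theorem hyp_of_coreK (hP : Bnd sep P) (hc : CoreK P) {a b c : ℕ}
    (T : Fin a → Fin b → Fin c → R) : P (hypS T) := by
  classical
  let e : Fin (a * b) ≃ Fin a × Fin b := finProdFinEquiv.symm
  let κ : Fin c → Fin (a * b) → R := fun l t => T (e t).1 (e t).2 l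
  have h1 := bil_of_coreK (fun t => (e t).1) (fun t => (e t).2) κ hP hc
  let f : Fin c → MvPolynomial (Fin a ⊕ Fin b) R := fun l =>
    ∑ i, ∑ j, C (T i j l) * X (Sum.inl i) * X (Sum.inr j)
  have hf : ∀ (C : Type) [CommRing C] [Algebra R C] (u : Fin a ⊕ Fin b → C) (l : Fin c),
      aeval u (f l) = ∑ i, ∑ j, algebraMap R C (T i j l) * u (Sum.inl i) * u (Sum.inr j) := by
    intro C _ _ u l
    change aeval u (∑ i, ∑ j, MvPolynomial.C (T i j l) * X (Sum.inl i) * X (Sum.inr j)) = _
    simp only [map_sum, map_mul, aeval_X, aeval_C]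
  have h2 : Has P (R := R) fun C _ _ (u : Fin a ⊕ Fin b → C) => True ∧ ∀ l, aeval u (f l) = 0 := by
    refine h1.congr fun C _ _ u => ?_
    rw [true_and]
    refine forall_congr' fun l => ?_
    rw [ws_last, hf, ← Fintype.sum_prod_type', ← Equiv.sum_comp e]
    have h3 : ∀ t, u (Sum.inl (e t).1) * (algebraMap R C (κ l t) * u (Sum.inr (e t).2)) =
        algebraMap R C (T (e t).1 (e t).2 l) * u (Sum.inl (e t).1) * u (Sum.inr (e t).2) :=
      fun t => by
        change u (Sum.inl (e t).1) * (algebraMap R C (T (e t).1 (e t).2 l) * _) = _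
        ring
    simp only [h3]
  have h3 := jou_of_has f hP (has_affine hP (Fin a ⊕ Fin b)) h2
  have key : ∀ (C : Type) [CommRing C] [Algebra R C] (u : Fin a ⊕ (Fin b ⊕ Fin c) → C),
      ∑ l, aeval (Sum.elim (fun i => u (Sum.inl i)) fun j => u (Sum.inr (Sum.inl j))) (f l) *
        u (Sum.inr (Sum.inr l)) = aeval u (tri T) := by
    intro C _ _ u
    rw [tri]
    simp only [hf, Sum.elim_inl, Sum.elim_inr, map_sum, map_mul, aeval_X, aeval_C,
      Finset.sum_mul]
    rw [Finset.sum_comm]
    exact Finset.sum_congr rfl fun i _ => Finset.sum_comm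
  have hF : ∀ (C : Type) [CommRing C] [Algebra R C] (u : Fin a ⊕ (Fin b ⊕ Fin c) → C),
      aeval u (tri T - 1) = aeval u (tri T) - 1 := by
    intro C _ _ u
    rw [map_sub, map_one]
  have h5 : Has P (R := R) fun C _ _ (u : Fin a ⊕ (Fin b ⊕ Fin c) → C) =>
      aeval u (tri T - 1) = 0 := by
    refine h3.iso hP (rep_eq (tri T - 1)) (Sum.elim (Sum.elim (fun i => X (Sum.inl i))
      fun j => X (Sum.inr (Sum.inl j))) fun l => X (Sum.inr (Sum.inr l))) ?_ ?_ ?_
    · intro C _ _ u hu
      refine ⟨trivial, ?_⟩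
      rw [hF, ← key, sub_eq_zero] at hu
      rw [← hu]
      refine Finset.sum_congr rfl fun l _ => ?_
      simp only [Sum.elim_inr, aeval_X]
      refine congrArg (fun w : Fin a ⊕ Fin b → C => aeval w (f l) * u (Sum.inr (Sum.inr l))) ?_
      funext s
      rcases s with s | s
      · simp only [Sum.elim_inl, aeval_X]
      · simp only [Sum.elim_inl, Sum.elim_inr, aeval_X]
    · intro C _ _ u hu
      refine ⟨Sum.elim (fun i => u (Sum.inl (Sum.inl i))) (Sum.elim
        (fun j => u (Sum.inl (Sum.inr j))) fun l => u (Sum.inr l)), ?_, ?_⟩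
      · rw [hF, ← key, sub_eq_zero]
        refine Eq.trans ?_ hu.2
        refine Finset.sum_congr rfl fun l _ => ?_
        simp only [Sum.elim_inl, Sum.elim_inr]
        refine congrArg (fun w : Fin a ⊕ Fin b → C => aeval w (f l) * u (Sum.inr l)) ?_
        funext s
        rcases s with s | s <;> rfl
      · rintro ((i | j) | l)
        · simp only [Sum.elim_inl, aeval_X]
        · simp only [Sum.elim_inl, Sum.elim_inr, aeval_X]
        · simp only [Sum.elim_inr, aeval_X]
    · intro C _ _ u u' _ _ h6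
      funext s
      rcases s with s | s | s
      · simpa only [Sum.elim_inl, aeval_X] using h6 (Sum.inl (Sum.inl s))
      · simpa only [Sum.elim_inl, Sum.elim_inr, aeval_X] using h6 (Sum.inl (Sum.inr s))
      · simpa only [Sum.elim_inr, aeval_X] using h6 (Sum.inr s)
  have h6 : P (aff R (Pc (fun _ : Unit => tri T - 1) 1)) := by
    refine h5.piece hP _ _ fun C _ _ u => ?_
    constructor
    · intro h7
      exact ⟨fun _ => h7, by rw [map_one]; exact isUnit_one⟩
    · intro h7
      exact h7.1 ()
  have h7 := iso_alg hP.toUni (oneE (fun _ : Unit => tri T - 1)).symm h6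
  rw [Set.range_const] at h7
  exact h7

/-- Every scheme of finite type. -/
theorem all_of_coreK [IsNoetherianRing R] (hP : Bnd sep P) (hc : CoreK P) (X : Sch R)
    (hX : FT sep X) : P X :=
  universal hP.toUni (S := Set.univ) trivial trivial (fun _ _ _ T _ => hyp_of_coreK hP hc T)
    presents_univ X hX

end Pool.Agent.H57.ZP
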