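import Pool.Agent.H57.ZP.KRedDefs
import Pool.Agent.H57.ZP.KMain
import Pool.Agent.H91.L.W5h93_EX_Main
import Pool.Agent.H91.L.W5h93_WC_Main
import Pool.Agent.H89.L.W5h93_EU_Fin

/-!
# The reduction to the completions of partial matrices
-/

set_option autoImplicit false

open CategoryTheory Limits MonoidalCategory AlgebraicGeometry Pool.Agent.Y116.UV Pool.Agent.Z125.UN
  Pool.Agent.W5h93.EX Pool.Agent.W5h93.WC

universe v u

namespace Pool.Agent.H57.ZP

variable {k : Type} [Field k]

/-- **The reduction to the completions of partial matrices.** -/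
theorem completionsReduce [PerfectField k] {Q C P : Sch k → Prop} (hP : Bnd True P)
    (hQ : IsClass Q) (h : ∀ X, Q X → (C X ↔ P X)) : CompletionsReduce Q C P where
  of_gl h1 X hX := (h X hX).mpr (universal_glC hP h1 X (hQ.ft hX))
  of_rk h1 X hX := (h X hX).mpr (universal_rkC hP h1 X (hQ.ft hX))
  of_gl_zero hk h1 X hX := (h X hX).mpr (universal_gl hk hP h1 X (hQ.ft hX))
  of_rk_zero hk h1 X hX := (h X hX).mpr (universal_rk hk hP h1 X (hQ.ft hX))
  to_all hM h1 X hX := by
    obtain ⟨n, hn⟩ := Pool.Agent.W5h93.EU.dim_finite X hX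
    exact devissage hP hQ (hM n) (fun Y hY _ => (h Y hY).mp (h1 Y hY)) X hX hn

variable {𝒜 : Type u} [Category.{v} 𝒜] [Preadditive 𝒜] [HasZeroObject 𝒜]
  [HasBinaryBiproducts 𝒜] [MonoidalCategory 𝒜] [MonoidalPreadditive 𝒜] {T : ℤ → 𝒜}
  {W : Sch k → HomotopyCategory 𝒜 (ComplexShape.up ℤ)}

/-- **The reduction to the completions of partial matrices, for any class of motives closed under sums,
retracts and Tate twists.** -/
theorem completionsReduce_wc [PerfectField k] {V : Cls 𝒜}
    (hT : ∀ (j : ℤ) (A : 𝒜), V.prop A → V.prop (A ⊗ T j)) (h0 : V.prop (T 0))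
    (hW : IsWeightComplex T W) {Q : Sch k → Prop} (hQ : IsClass Q)
    (h : Sch k → 𝒜) (hh : ∀ X, Q X → Nonempty (W X ≅ cpx (h X))) :
    CompletionsReduce Q (fun X => V.prop (h X)) (fun X => Null V.prop (W X).as) :=
  completionsReduce (bnd_wc hT h0 hW) hQ fun X hX => by
    obtain ⟨e⟩ := hh X hX
    rw [← null_cpx]
    exact ⟨fun h1 => h1.of_iso e.symm, fun h1 => h1.of_iso e⟩

end Pool.Agent.H57.ZP
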