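import Pool.Agent.H57.ZP.KDefs
import Pool.Agent.H57.ZP.Defs
import Pool.Agent.H89.L.Q193_LT_Prime
import Pool.Agent.H91.L.W5h93_EX_Defs

/-!
# The reduction to the completions of partial matrices: definitions
-/

set_option autoImplicit false

open CategoryTheory AlgebraicGeometry Pool.Agent.Y116.UV Pool.Agent.W5h93.EX

namespace Pool.Agent.H57.ZP

/-- **The reduction to the completions of partial matrices** of the property `C` of the schemes of the
class `Q`. The property `P` extends `C` to all separated schemes of finite type.

* `P` for the schemes `glC Z` of the invertible completions of all partial square matrices `Z` over `k`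
  implies `C` for all schemes of the class.
* `P` for the schemes `rkC Z` of the completions of rank at most three of all partial matrices `Z` over
  `k` implies `C` for all schemes of the class.
* If all elements of `k` are quotients of integers (`k` is `ℚ` or a finite prime field), then partial
  matrices with the only prescribed element zero suffice; these are the schemes `glS k Z` and `rkS k Z` of
  the invertible matrices (the matrices of rank at most three) with zeros at the places of `Z`.
* If all integral schemes of finite type over `k` have birational models in the class, then `C` for all
  schemes of the class implies `P` for all separated schemes of finite type over `k`; so the converses of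
  all these implications are true. -/
structure CompletionsReduce {k : Type} [Field k] (Q C P : Sch k → Prop) : Prop where
  of_gl : (∀ (n : ℕ) (Z : Fin n → Fin n → Option k), P (glC Z)) → ∀ X, Q X → C X
  of_rk : (∀ (m n : ℕ) (Z : Fin m → Fin n → Option k), P (rkC Z)) → ∀ X, Q X → C X
  of_gl_zero : Pool.Agent.Q193.LT.Frac k →
    (∀ (n : ℕ) (Z : Finset (Fin n × Fin n)), P (glS k Z)) → ∀ X, Q X → C X
  of_rk_zero : Pool.Agent.Q193.LT.Frac k →
    (∀ (m n : ℕ) (Z : Finset (Fin m × Fin n)), P (rkS k Z)) → ∀ X, Q X → C X
  to_all : (∀ n, ModelsIn Q n) → (∀ X, Q X → C X) → ∀ X, FT True X → P X

end Pool.Agent.H57.ZP
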