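import Pool.Agent.H57.ZP.Step

/-!
# Systems of equations from the invertibility loci of matrices of variables
-/

set_option autoImplicit false

open CategoryTheory AlgebraicGeometry MvPolynomial Pool.Agent.Y116.UV Pool.Agent.Z125.UN Matrix

namespace Pool.Agent.H57.ZP

variable {R : Type} [CommRing R] {sep : Prop} {P : Sch R → Prop}

/-- from the locus where the function `∑ t_i f_i` is invertible to the zero set of the `f_i` -/
lemma has_zero_of_unit (hP : Bnd sep P) {σ : Type} [Finite σ] {F : Cond R σ} {τ : Type}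
    [Fintype τ] (f : τ → MvPolynomial σ R) (hF : Has P F)
    (h : Has P (R := R) fun C _ _ (u : σ ⊕ τ → C) => (F C fun s => u (Sum.inl s)) ∧
      IsUnit (∑ l, aeval (fun s => u (Sum.inl s)) (f l) * u (Sum.inr l))) :
    Has P (R := R) fun C _ _ u => F C u ∧ ∀ l, aeval u (f l) = 0 := by
  refine has_of_jou f hP hF ?_
  have hrep : IsRep (R := R) fun C _ _ (u : σ ⊕ τ → C) => (F C fun s => u (Sum.inl s)) ∧
        ∑ l, aeval (fun s => u (Sum.inl s)) (f l) * u (Sum.inr l) = 1 := by
    refine ((hF.rep.reindex Sum.inl).and (rep_eq (∑ l, rename Sum.inl (f l) * X (Sum.inr l) - 1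
      : MvPolynomial (σ ⊕ τ) R))).congr fun C _ _ u => ?_
    rw [map_sub, map_one, map_sum, sub_eq_zero]
    simp only [map_mul, aeval_rename, aeval_X]
    rfl
  refine of_gm hP hrep ?_
  have hrep2 := (hrep.reindex (σ' := (σ ⊕ τ) ⊕ Unit) Sum.inl).and
    ((rep_unit (X (Sum.inr ()) : MvPolynomial ((σ ⊕ τ) ⊕ Unit) R)).congr
      fun C _ _ u => by rw [aeval_X])
  refine h.iso hP hrep2 (Sum.elim (fun s => X (Sum.inl (Sum.inl s)))
    fun t => X (Sum.inr ()) * X (Sum.inl (Sum.inr t))) ?_ ?_ ?_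
  · intro C _ _ u hu
    simp only [Sum.elim_inl, Sum.elim_inr, aeval_X, map_mul]
    refine ⟨hu.1.1, ?_⟩
    have h1 : ∑ l, aeval (fun s => u (Sum.inl (Sum.inl s))) (f l) *
        (u (Sum.inr ()) * u (Sum.inl (Sum.inr l))) = u (Sum.inr ()) *
        ∑ l, aeval (fun s => u (Sum.inl (Sum.inl s))) (f l) * u (Sum.inl (Sum.inr l)) := by
      rw [Finset.mul_sum]
      exact Finset.sum_congr rfl fun l _ => by ring
    rw [h1, hu.1.2, mul_one]
    exact hu.2
  · intro C _ _ u hu
    obtain ⟨a, ha⟩ := hu.2.exists_left_inv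
    refine ⟨Sum.elim (Sum.elim (fun s => u (Sum.inl s)) fun t => a * u (Sum.inr t))
      fun _ => ∑ l, aeval (fun s => u (Sum.inl s)) (f l) * u (Sum.inr l), ⟨⟨hu.1, ?_⟩, hu.2⟩, ?_⟩
    · simp only [Sum.elim_inl, Sum.elim_inr]
      rw [← ha, Finset.mul_sum]
      exact Finset.sum_congr rfl fun l _ => by ring
    · rintro (s | t)
      · simp only [Sum.elim_inl, aeval_X]
      · simp only [Sum.elim_inl, Sum.elim_inr, map_mul, aeval_X]
        rw [← mul_assoc, mul_comm _ a, ha, one_mul]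
  · intro C _ _ u u' hu hu' h3
    have e1 : ∀ s, u (Sum.inl (Sum.inl s)) = u' (Sum.inl (Sum.inl s)) := fun s => by
      simpa only [Sum.elim_inl, aeval_X] using h3 (Sum.inl s)
    have e2 : ∀ t, u (Sum.inr ()) * u (Sum.inl (Sum.inr t)) =
        u' (Sum.inr ()) * u' (Sum.inl (Sum.inr t)) := fun t => by
      simpa only [Sum.elim_inr, map_mul, aeval_X] using h3 (Sum.inr t)
    have e3 : u (Sum.inr ()) = u' (Sum.inr ()) := by
      have k1 : ∀ v : (σ ⊕ τ) ⊕ Unit → C,
          ∑ l, aeval (fun s => v (Sum.inl (Sum.inl s))) (f l) * v (Sum.inl (Sum.inr l)) = 1 →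
          v (Sum.inr ()) = ∑ l, aeval (fun s => v (Sum.inl (Sum.inl s))) (f l) *
            (v (Sum.inr ()) * v (Sum.inl (Sum.inr l))) := by
        intro v hv
        calc v (Sum.inr ()) = v (Sum.inr ()) * 1 := (mul_one _).symm
          _ = _ := by
            rw [← hv, Finset.mul_sum]
            exact Finset.sum_congr rfl fun l _ => by ring
      rw [k1 u hu.1.2, k1 u' hu'.1.2, funext e1]
      exact Finset.sum_congr rfl fun l _ => by rw [e2]
    funext x
    rcases x with (s | t) | t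
    · exact e1 s
    · have h4 := e2 t
      rw [e3] at h4
      exact hu'.2.mul_left_cancel h4
    · exact e3

section peel

variable {σ0 : Type} (F0 : Cond R σ0) {n : ℕ} {I : Type} [Fintype I]
  (f : Fin n → I → MvPolynomial σ0 R) (A : Fin n → I → Prop) {m : ℕ} (ι : Fin m → Fin n)
  (Φ : Fin m → Prop)

/-- the coordinates -/
abbrev YV (σ0 I : Type) (m : ℕ) : Type := σ0 ⊕ ((Fin m × I) ⊕ (Fin m × Fin m))

/-- rows `t_p` of variables and a matrix `W` with the diagonal elements `t_p · f_p` or free -/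
def YB : Cond R (YV σ0 I m) := fun C _ _ u =>
  (F0 C fun s => u (Sum.inl s)) ∧
    (∀ p i, (Φ p ∨ ¬ A (ι p) i) → u (Sum.inr (Sum.inl (p, i))) = 0) ∧
    ∀ p, ¬ Φ p → u (Sum.inr (Sum.inr (p, p))) =
      ∑ i, u (Sum.inr (Sum.inl (p, i))) * aeval (fun s => u (Sum.inl s)) (f (ι p) i)

/-- the matrix -/
def YM {C : Type} (u : YV σ0 I m → C) : Matrix (Fin m) (Fin m) C :=
  fun p q => u (Sum.inr (Sum.inr (p, q)))

/-- with invertible matrix -/
def YC : Cond R (YV σ0 I m) := fun C _ _ u => YB F0 f A ι Φ C u ∧ IsUnit (YM u).det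

variable {F0} {f} {A} {ι} {Φ}

lemma rep_YB (hF : IsRep F0) : IsRep (YB F0 f A ι Φ) := by
  have h1 : IsRep (R := R) fun C _ _ (u : YV σ0 I m → C) =>
      ∀ x : {x : Fin m × I // Φ x.1 ∨ ¬ A (ι x.1) x.2}, u (Sum.inr (Sum.inl x.1)) = 0 := by
    refine (rep_all fun x : {x : Fin m × I // Φ x.1 ∨ ¬ A (ι x.1) x.2} =>
      (X (Sum.inr (Sum.inl x.1)) : MvPolynomial (YV σ0 I m) R)).congr fun C _ _ u => ?_
    simp only [aeval_X]
  have h2 : IsRep (R := R) fun C _ _ (u : YV σ0 I m → C) =>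
      ∀ p : {p : Fin m // ¬ Φ p}, u (Sum.inr (Sum.inr (p.1, p.1))) =
        ∑ i, u (Sum.inr (Sum.inl (p.1, i))) * aeval (fun s => u (Sum.inl s)) (f (ι p.1) i) := by
    refine (rep_all fun p : {p : Fin m // ¬ Φ p} =>
      (X (Sum.inr (Sum.inr (p.1, p.1))) - ∑ i, X (Sum.inr (Sum.inl (p.1, i))) *
        rename Sum.inl (f (ι p.1) i) : MvPolynomial (YV σ0 I m) R)).congr fun C _ _ u => ?_
    simp only [map_sub, map_sum, map_mul, aeval_X, aeval_rename, sub_eq_zero]
    rfl
  refine ((hF.reindex Sum.inl).and (h1.and h2)).congr fun C _ _ u => ?_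
  unfold YB
  constructor
  · rintro ⟨h3, h4, h5⟩
    exact ⟨h3, fun p i h => h4 ⟨(p, i), h⟩, fun p h => h5 ⟨p, h⟩⟩
  · rintro ⟨h3, h4, h5⟩
    exact ⟨h3, fun x => h4 _ _ x.2, fun p => h5 _ p.2⟩

/-- the matrix of variables -/
noncomputable def YX (R : Type) [CommRing R] (σ0 I : Type) (m : ℕ) :
    Matrix (Fin m) (Fin m) (MvPolynomial (YV σ0 I m) R) := fun p q => X (Sum.inr (Sum.inr (p, q)))

omit [Fintype I] in
lemma ev_YX {C : Type} [CommRing C] [Algebra R C] (u : YV σ0 I m → C) :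
    ev (YX R σ0 I m) u = YM u := by
  funext p q
  exact aeval_X _ _

lemma rep_YC (hF : IsRep F0) : IsRep (YC F0 f A ι Φ) := by
  refine ((rep_YB (f := f) (A := A) (ι := ι) (Φ := Φ) hF).and (rep_unit (YX R σ0 I m).det)).congr fun C _ _ u => ?_
  rw [aeval_det, ev_YX]
  rfl

variable [DecidableRel A] (f) (A) (j : Fin n)

/-- the corner element -/
noncomputable def gj (m : ℕ) : MvPolynomial (YV σ0 I m ⊕ {i // A j i}) R :=
  ∑ t : {i // A j i}, X (Sum.inr t) * rename (fun s => Sum.inl (Sum.inl s)) (f j t.1)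

lemma aeval_gj {C : Type} [CommRing C] [Algebra R C] (u : YV σ0 I m ⊕ {i // A j i} → C) :
    aeval u (gj f A j m) = ∑ t : {i // A j i}, u (Sum.inr t) *
      aeval (fun s => u (Sum.inl (Sum.inl s))) (f j t.1) := by
  rw [gj, map_sum]
  simp only [map_mul, aeval_X, aeval_rename]
  rfl

/-- the point of the larger space; `g` is the corner element -/
def EE {C : Type} [Zero C] (g : C) (tj : {i // A j i} → C) (u : YV σ0 I m → C) (r c : Fin m → C)
    : YV σ0 I (m + 1) → C :=
  Sum.elim (fun s => u (Sum.inl s)) (Sum.elim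
    (fun x => Fin.cases (if h : A j x.2 then tj ⟨x.2, h⟩ else 0)
      (fun p => u (Sum.inr (Sum.inl (p, x.2)))) x.1)
    fun x => bord g r c (YM u) x.1 x.2)

omit [Fintype I] in
lemma YM_EE {C : Type} [CommRing C] (g : C) (tj : {i // A j i} → C) (u : YV σ0 I m → C)
    (r c : Fin m → C) : YM (EE A j g tj u r c) = bord g r c (YM u) := rfl

lemma sum_if {C : Type} [CommRing C] (tj : {i // A j i} → C) (x : I → C) :
    ∑ i, (if h : A j i then tj ⟨i, h⟩ else 0) * x i = ∑ t : {i // A j i}, tj t * x t.1 := by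
  classical
  rw [← Finset.sum_filter_add_sum_filter_not Finset.univ (fun i => A j i)]
  have h1 : ∑ i ∈ Finset.univ.filter (fun i => ¬ A j i),
      (if h : A j i then tj ⟨i, h⟩ else 0) * x i = 0 := by
    refine Finset.sum_eq_zero fun i hi => ?_
    rw [dif_neg (Finset.mem_filter.mp hi).2, zero_mul]
  rw [h1, add_zero]
  rw [Finset.sum_subtype (Finset.univ.filter fun i => A j i) (p := fun i => A j i)
    (fun i => by simp)]
  refine Finset.sum_congr rfl fun t _ => ?_
  rw [dif_pos t.2]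

variable {f A j}

lemma YC_EE0 {C : Type} [CommRing C] [Algebra R C] (u : YV σ0 I m ⊕ {i // A j i} → C)
    (r c : Fin m → C) :
    YC F0 f A (Fin.cons j ι : Fin (m + 1) → Fin n) (Fin.cons False Φ : Fin (m + 1) → Prop) C
      (EE A j (aeval u (gj f A j m)) (fun t => u (Sum.inr t)) (fun s => u (Sum.inl s)) r c) ↔
    (YB F0 f A ι Φ C fun s => u (Sum.inl s)) ∧
      IsUnit (bord (aeval u (gj f A j m)) r c (YM fun s => u (Sum.inl s))).det := by
  unfold YC YB
  rw [YM_EE]
  constructor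
  · rintro ⟨⟨h1, h2, h3⟩, h4⟩
    refine ⟨⟨h1, fun p i h => ?_, fun p h => ?_⟩, h4⟩
    · have h5 := h2 p.succ i (by simpa only [Fin.cons_succ] using h)
      exact h5
    · have h5 := h3 p.succ (by simpa only [Fin.cons_succ] using h)
      rw [Fin.cons_succ] at h5
      exact h5
  · rintro ⟨⟨h1, h2, h3⟩, h4⟩
    refine ⟨⟨h1, fun p i => ?_, fun p => ?_⟩, h4⟩
    · refine Fin.cases ?_ (fun p => ?_) p
      · intro h
        rw [Fin.cons_zero, Fin.cons_zero, false_or] at h
        exact dif_neg h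
      · intro h
        rw [Fin.cons_succ, Fin.cons_succ] at h
        exact h2 p i h
    · refine Fin.cases ?_ (fun p => ?_) p
      · intro _
        rw [Fin.cons_zero]
        change aeval u (gj f A j m) = ∑ i, (if h : A j i then u (Sum.inr ⟨i, h⟩) else 0) *
          aeval (fun s => u (Sum.inl (Sum.inl s))) (f j i)
        rw [sum_if A j (fun t => u (Sum.inr t)), aeval_gj]
      · intro h
        rw [Fin.cons_succ] at h ⊢
        exact h3 p h

lemma YC_EE1 {C : Type} [CommRing C] [Algebra R C] (w : C) (u : YV σ0 I m → C)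
    (r c : Fin m → C) :
    YC F0 f A (Fin.cons j ι : Fin (m + 1) → Fin n) (Fin.cons True Φ : Fin (m + 1) → Prop) C
      (EE A j w (fun _ => 0) u r c) ↔
    (YB F0 f A ι Φ C u) ∧ IsUnit (bord w r c (YM u)).det := by
  unfold YC YB
  rw [YM_EE]
  constructor
  · rintro ⟨⟨h1, h2, h3⟩, h4⟩
    refine ⟨⟨h1, fun p i h => ?_, fun p h => ?_⟩, h4⟩
    · have h5 := h2 p.succ i (by simpa only [Fin.cons_succ] using h)
      exact h5
    · have h5 := h3 p.succ (by simpa only [Fin.cons_succ] using h)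
      rw [Fin.cons_succ] at h5
      exact h5
  · rintro ⟨⟨h1, h2, h3⟩, h4⟩
    refine ⟨⟨h1, fun p i => ?_, fun p => ?_⟩, h4⟩
    · refine Fin.cases ?_ (fun p => ?_) p
      · intro _
        change (if h : A j i then (0 : C) else 0) = 0
        rw [dite_eq_ite, ite_self]
      · intro h
        rw [Fin.cons_succ, Fin.cons_succ] at h
        exact h2 p i h
    · refine Fin.cases ?_ (fun p => ?_) p
      · intro h
        rw [Fin.cons_zero] at h
        exact absurd trivial h
      · intro h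
        rw [Fin.cons_succ] at h ⊢
        exact h3 p h

variable (f A j) in
/-- the matrix of variables -/
noncomputable def YZ (m : ℕ) :
    Matrix (Fin m) (Fin m) (MvPolynomial (YV σ0 I m ⊕ {i // A j i}) R) :=
  fun p q => rename Sum.inl (YX R σ0 I m p q)

omit [Fintype I] [DecidableRel A] in
lemma ev_YZ {C : Type} [CommRing C] [Algebra R C] (u : YV σ0 I m ⊕ {i // A j i} → C) :
    ev (YZ A j m : Matrix (Fin m) (Fin m) (MvPolynomial (YV σ0 I m ⊕ {i // A j i}) R)) u =
      YM fun s => u (Sum.inl s) := by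
  funext p q
  change aeval _ (rename Sum.inl (YX R σ0 I m p q)) = _
  rw [aeval_rename]
  exact aeval_X _ _

/-- the first locus -/
lemma locus0 (hP : Bnd sep P) [Finite σ0] (hF : IsRep F0)
    (h : Has P (YC F0 f A (Fin.cons j ι : Fin (m + 1) → Fin n)
      (Fin.cons False Φ : Fin (m + 1) → Prop))) :
    Has P (R := R) fun C _ _ (u : (YV σ0 I m ⊕ {i // A j i}) ⊕ (Fin m ⊕ Fin m) → C) =>
      (YB F0 f A ι Φ C fun s => u (Sum.inl (Sum.inl s))) ∧
        IsUnit (bord (aeval (fun s => u (Sum.inl s)) (gj f A j m))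
          (fun i => u (Sum.inr (Sum.inl i))) (fun i => u (Sum.inr (Sum.inr i)))
          (ev (YZ A j m : Matrix (Fin m) (Fin m) (MvPolynomial (YV σ0 I m ⊕ {i // A j i}) R))
            fun s => u (Sum.inl s))).det := by
  have hrep : IsRep (R := R) fun C _ _ (u : (YV σ0 I m ⊕ {i // A j i}) ⊕ (Fin m ⊕ Fin m) → C) =>
      (YB F0 f A ι Φ C fun s => u (Sum.inl (Sum.inl s))) ∧
        IsUnit (bord (aeval (fun s => u (Sum.inl s)) (gj f A j m))
          (fun i => u (Sum.inr (Sum.inl i))) (fun i => u (Sum.inr (Sum.inr i)))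
          (ev (YZ A j m : Matrix (Fin m) (Fin m) (MvPolynomial (YV σ0 I m ⊕ {i // A j i}) R))
            fun s => u (Sum.inl s))).det := by
    refine (((rep_YB (f := f) (A := A) (ι := ι) (Φ := Φ) hF).reindex
      fun s => Sum.inl (Sum.inl s)).and
      (rep_unit (bdet (YZ A j m) (gj f A j m)))).congr
      fun C _ _ u => ?_
    rw [aeval_bdet]
  let p : YV σ0 I (m + 1) → MvPolynomial ((YV σ0 I m ⊕ {i // A j i}) ⊕ (Fin m ⊕ Fin m)) R :=
    EE A j (rename Sum.inl (gj f A j m)) (fun t => X (Sum.inl (Sum.inr t)))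
      (fun s => X (Sum.inl (Sum.inl s))) (fun i => X (Sum.inr (Sum.inl i)))
      (fun i => X (Sum.inr (Sum.inr i)))
  have hp : ∀ (C : Type) [CommRing C] [Algebra R C]
      (u : (YV σ0 I m ⊕ {i // A j i}) ⊕ (Fin m ⊕ Fin m) → C), (fun s => aeval u (p s)) =
      EE A j (aeval (fun s => u (Sum.inl s)) (gj f A j m)) (fun t => u (Sum.inl (Sum.inr t)))
        (fun s => u (Sum.inl (Sum.inl s))) (fun i => u (Sum.inr (Sum.inl i)))
        (fun i => u (Sum.inr (Sum.inr i))) := by
    intro C _ _ u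
    funext x
    rcases x with s | ⟨a, i⟩ | ⟨a, b⟩
    · exact aeval_X _ _
    · refine Fin.cases ?_ (fun a => ?_) a
      · change aeval u (if h : A j i then X (Sum.inl (Sum.inr ⟨i, h⟩)) else 0) =
          if h : A j i then u (Sum.inl (Sum.inr ⟨i, h⟩)) else 0
        by_cases h : A j i
        · rw [dif_pos h, dif_pos h, aeval_X]
        · rw [dif_neg h, dif_neg h, map_zero]
      · exact aeval_X _ _
    · refine Fin.cases ?_ (fun a => ?_) a
      · refine Fin.cases ?_ (fun b => ?_) b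
        · exact aeval_rename _ _ _
        · exact aeval_X _ _
      · refine Fin.cases ?_ (fun b => ?_) b
        · exact aeval_X _ _
        · exact aeval_X _ _
  have hiff : ∀ (C : Type) [CommRing C] [Algebra R C]
      (u : (YV σ0 I m ⊕ {i // A j i}) ⊕ (Fin m ⊕ Fin m) → C),
      YC F0 f A (Fin.cons j ι : Fin (m + 1) → Fin n) (Fin.cons False Φ : Fin (m + 1) → Prop) C
        (fun s => aeval u (p s)) ↔ (YB F0 f A ι Φ C fun s => u (Sum.inl (Sum.inl s))) ∧
        IsUnit (bord (aeval (fun s => u (Sum.inl s)) (gj f A j m))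
          (fun i => u (Sum.inr (Sum.inl i))) (fun i => u (Sum.inr (Sum.inr i)))
          (ev (YZ A j m : Matrix (Fin m) (Fin m) (MvPolynomial (YV σ0 I m ⊕ {i // A j i}) R))
            fun s => u (Sum.inl s))).det := by
    intro C _ _ u
    rw [hp, ev_YZ]
    exact YC_EE0 (fun s => u (Sum.inl s)) _ _
  refine h.iso hP hrep p (fun C _ _ u hu => (hiff C u).mpr hu) ?_ ?_
  · intro C _ _ v hv
    let u : (YV σ0 I m ⊕ {i // A j i}) ⊕ (Fin m ⊕ Fin m) → C :=
      Sum.elim (Sum.elim (Sum.elim (fun s => v (Sum.inl s)) (Sum.elim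
        (fun x => v (Sum.inr (Sum.inl (x.1.succ, x.2))))
        fun x => v (Sum.inr (Sum.inr (x.1.succ, x.2.succ)))))
        fun t => v (Sum.inr (Sum.inl (0, t.1)))) (Sum.elim
        (fun i => v (Sum.inr (Sum.inr (0, i.succ)))) fun i => v (Sum.inr (Sum.inr (i.succ, 0))))
    have hu : (fun s => aeval u (p s)) = v := by
      rw [hp]
      funext x
      rcases x with s | ⟨a, i⟩ | ⟨a, b⟩
      · rfl
      · refine Fin.cases ?_ (fun a => ?_) a
        · change (if h : A j i then v (Sum.inr (Sum.inl (0, i))) else 0) = _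
          by_cases h : A j i
          · rw [dif_pos h]
          · rw [dif_neg h]
            exact (hv.1.2.1 0 i (Or.inr (by rwa [Fin.cons_zero]))).symm
        · rfl
      · refine Fin.cases ?_ (fun a => ?_) a
        · refine Fin.cases ?_ (fun b => ?_) b
          · have h5 := hv.1.2.2 0 (by rw [Fin.cons_zero]; exact not_false)
            rw [Fin.cons_zero] at h5
            refine Eq.trans ?_ h5.symm
            refine ((aeval_gj f A j fun s => u (Sum.inl s)).trans
              (sum_if A j (fun t => v (Sum.inr (Sum.inl (0, t.1))))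
                fun i => aeval (fun s => v (Sum.inl s)) (f j i)).symm).trans ?_
            refine Finset.sum_congr rfl fun i _ => ?_
            congr 1
            by_cases h : A j i
            · rw [dif_pos h]
            · rw [dif_neg h]
              exact (hv.1.2.1 0 i (Or.inr (by rwa [Fin.cons_zero]))).symm
          · rfl
        · refine Fin.cases ?_ (fun b => ?_) b
          · rfl
          · rfl
    refine ⟨u, (hiff C u).mp ?_, fun s => congrFun hu s⟩
    rw [hu]
    exact hv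
  · intro C _ _ u u' _ _ h3
    have h4 := (hp C u).symm.trans ((funext h3).trans (hp C u'))
    funext x
    rcases x with ((s | ⟨a, i⟩ | ⟨a, b⟩) | t) | i | i
    · exact congrFun h4 (Sum.inl s)
    · exact congrFun h4 (Sum.inr (Sum.inl (a.succ, i)))
    · exact congrFun h4 (Sum.inr (Sum.inr (a.succ, b.succ)))
    · have h5 := congrFun h4 (Sum.inr (Sum.inl (0, t.1)))
      change (if h : A j t.1 then u (Sum.inl (Sum.inr ⟨t.1, h⟩)) else 0) =
        if h : A j t.1 then u' (Sum.inl (Sum.inr ⟨t.1, h⟩)) else 0 at h5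
      rwa [dif_pos t.2, dif_pos t.2] at h5
    · exact congrFun h4 (Sum.inr (Sum.inr (0, i.succ)))
    · exact congrFun h4 (Sum.inr (Sum.inr (i.succ, 0)))

/-- the second locus -/
lemma locus1 (hP : Bnd sep P) [Finite σ0] (hF : IsRep F0)
    (h : Has P (YC F0 f A (Fin.cons j ι : Fin (m + 1) → Fin n)
      (Fin.cons True Φ : Fin (m + 1) → Prop))) :
    Has P (R := R) fun C _ _ (u : ((YV σ0 I m ⊕ {i // A j i}) ⊕ (Fin m ⊕ Fin m)) ⊕ Unit → C) =>
      (YB F0 f A ι Φ C fun s => u (Sum.inl (Sum.inl (Sum.inl s)))) ∧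
        IsUnit (bord (u (Sum.inr ()))
          (fun i => u (Sum.inl (Sum.inr (Sum.inl i)))) (fun i => u (Sum.inl (Sum.inr (Sum.inr i))))
          (ev (YZ A j m : Matrix (Fin m) (Fin m) (MvPolynomial (YV σ0 I m ⊕ {i // A j i}) R))
            fun s => u (Sum.inl (Sum.inl s)))).det := by
  have hrep : IsRep (R := R) fun C _ _
      (u : ((YV σ0 I m ⊕ {i // A j i}) ⊕ (Fin m ⊕ Fin m)) ⊕ Unit → C) =>
      (YB F0 f A ι Φ C fun s => u (Sum.inl (Sum.inl (Sum.inl s)))) ∧
        IsUnit (bord (u (Sum.inr ()))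
          (fun i => u (Sum.inl (Sum.inr (Sum.inl i)))) (fun i => u (Sum.inl (Sum.inr (Sum.inr i))))
          (ev (YZ A j m : Matrix (Fin m) (Fin m) (MvPolynomial (YV σ0 I m ⊕ {i // A j i}) R))
            fun s => u (Sum.inl (Sum.inl s)))).det := by
    refine (((rep_YB (f := f) (A := A) (ι := ι) (Φ := Φ) hF).reindex
      fun s => Sum.inl (Sum.inl (Sum.inl s))).and
      (rep_unit (wdet (YZ A j m)))).congr
      fun C _ _ u => ?_
    rw [aeval_wdet]
  let p : YV σ0 I (m + 1) ⊕ {i // A j i} →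
      MvPolynomial (((YV σ0 I m ⊕ {i // A j i}) ⊕ (Fin m ⊕ Fin m)) ⊕ Unit) R :=
    Sum.elim (EE A j (X (Sum.inr ())) (fun _ => 0)
      (fun s => X (Sum.inl (Sum.inl (Sum.inl s)))) (fun i => X (Sum.inl (Sum.inr (Sum.inl i))))
      (fun i => X (Sum.inl (Sum.inr (Sum.inr i))))) fun t => X (Sum.inl (Sum.inl (Sum.inr t)))
  have hp : ∀ (C : Type) [CommRing C] [Algebra R C]
      (u : ((YV σ0 I m ⊕ {i // A j i}) ⊕ (Fin m ⊕ Fin m)) ⊕ Unit → C),
      (fun s => aeval u (p s)) =
      Sum.elim (EE A j (u (Sum.inr ())) (fun _ => 0)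
        (fun s => u (Sum.inl (Sum.inl (Sum.inl s)))) (fun i => u (Sum.inl (Sum.inr (Sum.inl i))))
        (fun i => u (Sum.inl (Sum.inr (Sum.inr i))))) fun t => u (Sum.inl (Sum.inl (Sum.inr t))) := by
    intro C _ _ u
    funext x
    rcases x with (s | ⟨a, i⟩ | ⟨a, b⟩) | t
    · exact aeval_X _ _
    · refine Fin.cases ?_ (fun a => ?_) a
      · change aeval u (if h : A j i then 0 else 0) =
          if h : A j i then (0 : C) else 0
        rw [dite_eq_ite, dite_eq_ite, ite_self, ite_self, map_zero]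
      · exact aeval_X _ _
    · refine Fin.cases ?_ (fun a => ?_) a
      · refine Fin.cases ?_ (fun b => ?_) b
        · exact aeval_X _ _
        · exact aeval_X _ _
      · refine Fin.cases ?_ (fun b => ?_) b
        · exact aeval_X _ _
        · exact aeval_X _ _
    · exact aeval_X _ _
  have hiff : ∀ (C : Type) [CommRing C] [Algebra R C]
      (u : ((YV σ0 I m ⊕ {i // A j i}) ⊕ (Fin m ⊕ Fin m)) ⊕ Unit → C),
      (YC F0 f A (Fin.cons j ι : Fin (m + 1) → Fin n) (Fin.cons True Φ : Fin (m + 1) → Prop) C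
        fun s => aeval u (p (Sum.inl s))) ↔
      (YB F0 f A ι Φ C fun s => u (Sum.inl (Sum.inl (Sum.inl s)))) ∧
        IsUnit (bord (u (Sum.inr ()))
          (fun i => u (Sum.inl (Sum.inr (Sum.inl i)))) (fun i => u (Sum.inl (Sum.inr (Sum.inr i))))
          (ev (YZ A j m : Matrix (Fin m) (Fin m) (MvPolynomial (YV σ0 I m ⊕ {i // A j i}) R))
            fun s => u (Sum.inl (Sum.inl s)))).det := by
    intro C _ _ u
    have h1 : (fun s => aeval u (p (Sum.inl s))) = EE A j (u (Sum.inr ())) (fun _ => 0)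
        (fun s => u (Sum.inl (Sum.inl (Sum.inl s)))) (fun i => u (Sum.inl (Sum.inr (Sum.inl i))))
        (fun i => u (Sum.inl (Sum.inr (Sum.inr i)))) :=
      funext fun s => congrFun (hp C u) (Sum.inl s)
    rw [h1, ev_YZ]
    exact YC_EE1 _ _ _ _
  refine (has_space hP {i // A j i} h).iso hP hrep p (fun C _ _ u hu => (hiff C u).mpr hu) ?_ ?_
  · intro C _ _ v hv
    let u : ((YV σ0 I m ⊕ {i // A j i}) ⊕ (Fin m ⊕ Fin m)) ⊕ Unit → C :=
      Sum.elim (Sum.elim (Sum.elim (Sum.elim (fun s => v (Sum.inl (Sum.inl s))) (Sum.elim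
        (fun x => v (Sum.inl (Sum.inr (Sum.inl (x.1.succ, x.2)))))
        fun x => v (Sum.inl (Sum.inr (Sum.inr (x.1.succ, x.2.succ))))))
        fun t => v (Sum.inr t)) (Sum.elim
        (fun i => v (Sum.inl (Sum.inr (Sum.inr (0, i.succ)))))
        fun i => v (Sum.inl (Sum.inr (Sum.inr (i.succ, 0))))))
        fun _ => v (Sum.inl (Sum.inr (Sum.inr (0, 0))))
    have hu : (fun s => aeval u (p s)) = v := by
      rw [hp]
      funext x
      rcases x with (s | ⟨a, i⟩ | ⟨a, b⟩) | t
      · rfl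
      · refine Fin.cases ?_ (fun a => ?_) a
        · change (if h : A j i then (0 : C) else 0) = _
          rw [dite_eq_ite, ite_self]
          exact (hv.1.2.1 0 i (Or.inl (by rw [Fin.cons_zero]; trivial))).symm
        · rfl
      · refine Fin.cases ?_ (fun a => ?_) a
        · refine Fin.cases ?_ (fun b => ?_) b
          · rfl
          · rfl
        · refine Fin.cases ?_ (fun b => ?_) b
          · rfl
          · rfl
      · rfl
    refine ⟨u, (hiff C u).mp ?_, fun s => congrFun hu s⟩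
    have h1 : (fun s => aeval u (p (Sum.inl s))) = fun s => v (Sum.inl s) :=
      funext fun s => congrFun hu (Sum.inl s)
    rw [h1]
    exact hv
  · intro C _ _ u u' _ _ h3
    have h4 := (hp C u).symm.trans ((funext h3).trans (hp C u'))
    funext x
    rcases x with (((s | ⟨a, i⟩ | ⟨a, b⟩) | t) | i | i) | t
    · exact congrFun h4 (Sum.inl (Sum.inl s))
    · exact congrFun h4 (Sum.inl (Sum.inr (Sum.inl (a.succ, i))))
    · exact congrFun h4 (Sum.inl (Sum.inr (Sum.inr (a.succ, b.succ))))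
    · exact congrFun h4 (Sum.inr t)
    · exact congrFun h4 (Sum.inl (Sum.inr (Sum.inr (0, i.succ))))
    · exact congrFun h4 (Sum.inl (Sum.inr (Sum.inr (i.succ, 0))))
    · exact congrFun h4 (Sum.inl (Sum.inr (Sum.inr (0, 0))))

/-- one more row of equations -/
lemma peel_one (hP : Bnd sep P) [Finite σ0] (hF : IsRep F0)
    (h0 : Has P (YC F0 f A (Fin.cons j ι : Fin (m + 1) → Fin n)
      (Fin.cons False Φ : Fin (m + 1) → Prop)))
    (h1 : Has P (YC F0 f A (Fin.cons j ι : Fin (m + 1) → Fin n)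
      (Fin.cons True Φ : Fin (m + 1) → Prop)))
    (h2 : Has P (YC F0 f A ι Φ)) :
    Has P (YC (fun C _ _ u => F0 C u ∧ ∀ i, A j i → aeval u (f j i) = 0) f A ι Φ) := by
  have k2 : Has P (R := R) fun C _ _ (u : YV σ0 I m ⊕ {i // A j i} → C) =>
      (YB F0 f A ι Φ C fun s => u (Sum.inl s)) ∧
        IsUnit (ev (YZ A j m : Matrix (Fin m) (Fin m)
          (MvPolynomial (YV σ0 I m ⊕ {i // A j i}) R)) u).det := by
    refine (has_space hP {i // A j i} h2).congr fun C _ _ u => ?_
    rw [ev_YZ]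
    rfl
  have k3 := step hP ((rep_YB (f := f) (A := A) (ι := ι) (Φ := Φ) hF).reindex Sum.inl)
    (YZ A j m) (gj f A j m) (locus0 hP hF h0)
    (locus1 hP hF h1) k2
  have k4 := has_open hP k2 (gj f A j m) k3
  have k5 : Has P (R := R) fun C _ _ (u : YV σ0 I m ⊕ {i // A j i} → C) =>
      (YC F0 f A ι Φ C fun s => u (Sum.inl s)) ∧
      IsUnit (∑ l : {i // A j i}, aeval (fun s => u (Sum.inl s))
        (rename Sum.inl (f j l.1) : MvPolynomial (YV σ0 I m) R) * u (Sum.inr l)) := by
    refine k4.congr fun C _ _ u => ?_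
    rw [ev_YZ, aeval_gj]
    have hs : ∑ t : {i // A j i}, u (Sum.inr t) *
        aeval (fun s => u (Sum.inl (Sum.inl s))) (f j t.1) =
        ∑ l : {i // A j i}, aeval (fun s => u (Sum.inl s))
        (rename Sum.inl (f j l.1) : MvPolynomial (YV σ0 I m) R) * u (Sum.inr l) := by
      refine Finset.sum_congr rfl fun t _ => ?_
      rw [aeval_rename, mul_comm]
      rfl
    rw [hs]
    rfl
  refine (has_zero_of_unit hP _ h2 k5).congr fun C _ _ u => ?_
  have hr : ∀ l : {i // A j i}, aeval u (rename Sum.inl (f j l.1) : MvPolynomial (YV σ0 I m) R) =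
      aeval (fun s => u (Sum.inl s)) (f j l.1) := fun l => aeval_rename _ _ _
  unfold YC YB
  constructor
  · rintro ⟨⟨⟨h3, h4, h5⟩, h6⟩, h7⟩
    exact ⟨⟨⟨h3, fun i hi => by rw [← hr ⟨i, hi⟩]; exact h7 ⟨i, hi⟩⟩, h4, h5⟩, h6⟩
  · rintro ⟨⟨⟨h3, h7⟩, h4, h5⟩, h6⟩
    exact ⟨⟨⟨h3, h4, h5⟩, h6⟩, fun l => by rw [hr]; exact h7 l.1 l.2⟩

end peel

/-- **Systems of equations from matrices of variables.** -/
theorem peel (hP : Bnd sep P) {σ0 : Type} [Finite σ0] {I : Type} [Fintype I] (n : ℕ) :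
    ∀ {F0 : Cond R σ0} (_ : IsRep F0) (f : Fin n → I → MvPolynomial σ0 R)
      (A : Fin n → I → Prop) (_ : DecidableRel A),
      (∀ (m : ℕ) (ι : Fin m → Fin n) (_ : Function.Injective ι) (Φ : Fin m → Prop),
        Has P (YC F0 f A ι Φ)) →
      Has P (R := R) fun C _ _ u => F0 C u ∧ ∀ j i, A j i → aeval u (f j i) = 0 := by
  induction n with
  | zero =>
    intro F0 hF f A _ h
    have h1 := h 0 (fun i => i.elim0) (fun i => i.elim0) fun i => i.elim0
    refine h1.iso hP (hF.congr fun C _ _ u => ?_) (Sum.elim X (Sum.elim (fun x => x.1.elim0)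
      fun x => x.1.elim0)) ?_ ?_ ?_
    · exact ⟨fun h => ⟨h, fun j => j.elim0⟩, fun h => h.1⟩
    · intro C _ _ u hu
      refine ⟨⟨?_, fun p => p.elim0, fun p => p.elim0⟩, ?_⟩
      · simp only [Sum.elim_inl, aeval_X]
        exact hu.1
      · rw [det_isEmpty]
        exact isUnit_one
    · intro C _ _ u hu
      refine ⟨fun s => u (Sum.inl s), ⟨hu.1.1, fun j => j.elim0⟩, ?_⟩
      rintro (s | x | x)
      · simp only [Sum.elim_inl, aeval_X]
      · exact x.1.elim0
      · exact x.1.elim0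
    · intro C _ _ u u' _ _ h3
      funext x
      simpa only [Sum.elim_inl, aeval_X] using h3 (Sum.inl x)
  | succ n ih =>
    intro F0 hF f A hA h
    have hF' : IsRep (R := R) fun C _ _ u => F0 C u ∧ ∀ i, A 0 i → aeval u (f 0 i) = 0 := by
      refine (hF.and (rep_all fun t : {i // A 0 i} => f 0 t.1)).congr fun C _ _ u => ?_
      exact and_congr_right fun _ => ⟨fun h i hi => h ⟨i, hi⟩, fun h t => h t.1 t.2⟩
    have key := ih hF' (fun j => f j.succ) (fun j => A j.succ) (fun j i => hA j.succ i) ?_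
    · refine key.congr fun C _ _ u => ?_
      constructor
      · rintro ⟨⟨h1, h2⟩, h3⟩
        refine ⟨h1, fun j => ?_⟩
        exact Fin.cases h2 h3 j
      · rintro ⟨h1, h2⟩
        exact ⟨⟨h1, h2 0⟩, fun j => h2 j.succ⟩
    · intro m ι hι Φ
      have hc : Function.Injective (Fin.cons 0 fun p => (ι p).succ : Fin (m + 1) → Fin (n + 1)) := by
        rw [Fin.cons_injective_iff]
        refine ⟨?_, (Fin.succ_injective n).comp hι⟩
        rintro ⟨p, hp⟩
        exact Fin.succ_ne_zero _ hp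
      exact peel_one (f := f) (A := A) (j := 0) (ι := fun p => (ι p).succ) (Φ := Φ) hP hF
        (h (m + 1) _ hc _) (h (m + 1) _ hc _)
        (h m _ ((Fin.succ_injective n).comp hι) _)

end Pool.Agent.H57.ZP
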