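import Pool.Agent.H57.ZP.Conf

/-!
# Incidence systems from matrices of rank at most three with prescribed zeros
-/

set_option autoImplicit false

open CategoryTheory AlgebraicGeometry MvPolynomial Pool.Agent.Y116.UV Pool.Agent.Z125.UN Matrix

namespace Pool.Agent.H57.ZP

variable {R : Type} [CommRing R] {sep : Prop} {P : Sch R → Prop}

/-- the matrices of rank at most three with zeros at the places in `Z` -/
def RC (R : Type) [CommRing R] (K L : Type) (Z : K → L → Prop) : Cond R (K × L) :=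
  fun _ _ _ N => (∀ a b, Z a b → N (a, b) = 0) ∧
    ∀ (α : Fin 4 → K) (β : Fin 4 → L), Matrix.det (Matrix.of fun i j => N (α i, β j)) = 0

lemma aeval_minor {K L C : Type} [CommRing C] [Algebra R C] (u : K × L → C) (α : Fin 4 → K)
    (β : Fin 4 → L) : aeval u (Matrix.det (Matrix.of fun i j =>
      (X (α i, β j) : MvPolynomial (K × L) R))) =
      Matrix.det (Matrix.of fun i j => u (α i, β j)) := by
  rw [AlgHom.map_det]
  congr 1
  ext i j
  exact aeval_X _ _

lemma rep_RC (K L : Type) (Z : K → L → Prop) : IsRep (RC R K L Z) := by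
  refine ((rep_all fun x : {x : K × L // Z x.1 x.2} => (X x.1 : MvPolynomial (K × L) R)).and
    (rep_all fun x : (Fin 4 → K) × (Fin 4 → L) => Matrix.det (Matrix.of fun i j =>
      (X (x.1 i, x.2 j) : MvPolynomial (K × L) R)))).congr fun C _ _ u => ?_
  simp only [aeval_X, aeval_minor]
  exact and_congr ⟨fun h a b hx => h ⟨(a, b), hx⟩, fun h x => h _ _ x.2⟩
    ⟨fun h α β => h (α, β), fun h x => h _ _⟩

lemma rc_type (hP : Bnd sep P)
    (h : ∀ (μ ν : ℕ) (Z : Fin μ → Fin ν → Prop), Has P (RC R (Fin μ) (Fin ν) Z))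
    (K L : Type) [Fintype K] [Fintype L] (Z : K → L → Prop) : Has P (RC R K L Z) := by
  let e := Fintype.equivFin K
  let f := Fintype.equivFin L
  refine (h (Fintype.card K) (Fintype.card L) fun a b => Z (e.symm a) (f.symm b)).iso hP
    (rep_RC K L Z) (fun x => X (e.symm x.1, f.symm x.2)) ?_ ?_ ?_
  · intro C _ _ u hu
    simp only [aeval_X]
    exact ⟨fun a b hab => hu.1 _ _ hab, fun α β => hu.2 (fun i => e.symm (α i))
      fun j => f.symm (β j)⟩
  · intro C _ _ u hu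
    refine ⟨fun x => u (e x.1, f x.2), ⟨fun a b hab => hu.1 _ _ (by simpa using hab),
      fun α β => hu.2 (fun i => e (α i)) fun j => f (β j)⟩, fun x => by simp⟩
  · intro C _ _ u u' _ _ h3
    funext x
    simpa using h3 (e x.1, f x.2)

lemma rc_units (hP : Bnd sep P) (K L : Type) [Fintype K] [Fintype L] [DecidableEq K]
    [DecidableEq L] (h : ∀ Z : K → L → Prop, Has P (RC R K L Z)) (S : Finset (K × L)) :
    ∀ Z : K → L → Prop, Has P (R := R) fun C _ _ N => RC R K L Z C N ∧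
      ∀ a ∈ S, IsUnit (N a) := by
  induction S using Finset.induction_on with
  | empty =>
    intro Z
    refine (h Z).congr fun C _ _ N => ?_
    simp
  | insert a S ha ih =>
    intro Z
    have h1 : Has P (R := R) fun C _ _ N => (RC R K L Z C N ∧ ∀ a ∈ S, IsUnit (N a)) ∧
        aeval N (X a : MvPolynomial (K × L) R) = 0 := by
      refine (ih fun x y => Z x y ∨ (x, y) = a).congr fun C _ _ N => ?_
      unfold RC
      rw [aeval_X]
      constructor
      · rintro ⟨⟨h2, h3⟩, h4⟩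
        exact ⟨⟨⟨fun x y hxy => h2 x y (Or.inl hxy), h3⟩, h4⟩, h2 a.1 a.2 (Or.inr rfl)⟩
      · rintro ⟨⟨⟨h2, h3⟩, h4⟩, h5⟩
        refine ⟨⟨fun x y hxy => ?_, h3⟩, h4⟩
        rcases hxy with hxy | hxy
        · exact h2 x y hxy
        · rw [hxy]
          exact h5
    refine (has_open hP (ih Z) _ h1).congr fun C _ _ N => ?_
    rw [aeval_X]
    constructor
    · rintro ⟨⟨h2, h3⟩, h4⟩
      refine ⟨h2, fun x hx => ?_⟩
      rcases Finset.mem_insert.mp hx with rfl | hx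
      · exact h4
      · exact h3 x hx
    · rintro ⟨h2, h3⟩
      exact ⟨⟨h2, fun x hx => h3 x (Finset.mem_insert_of_mem hx)⟩,
        h3 a (Finset.mem_insert_self _ _)⟩

lemma det_four {C : Type} [CommRing C] (d a b : Fin 3 → C) (x : C) :
    Matrix.det !![d 0, 0, 0, b 0; 0, d 1, 0, b 1; 0, 0, d 2, b 2; a 0, a 1, a 2, x] =
      d 0 * d 1 * d 2 * x - a 0 * b 0 * d 1 * d 2 - a 1 * b 1 * d 0 * d 2 -
        a 2 * b 2 * d 0 * d 1 := by
  simp [det_succ_row_zero, Fin.sum_univ_succ, Fin.succAbove]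
  ring

lemma det_prod {C : Type} [CommRing C] (A : Fin 4 → Fin 3 → C) (B : Fin 3 → Fin 4 → C) :
    Matrix.det (Matrix.of fun i j => ∑ s, A i s * B s j) = 0 := by
  have h : (Matrix.of fun i j => ∑ s, A i s * B s j) =
      (Matrix.of fun i j => Fin.cases (0 : C) (A i) j : Matrix (Fin 4) (Fin 4) C) *
        (Matrix.of fun i j => Fin.cases (0 : C) (fun s => B s j) i) := by
    ext i j
    rw [mul_apply, Fin.sum_univ_succ]
    change _ = (0 : C) * 0 + ∑ s, A i s * B s j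
    rw [mul_zero, zero_add]
    rfl
  rw [h, det_mul, det_eq_zero_of_column_eq_zero (0 : Fin 4) (fun i => rfl), zero_mul]

section rank

variable {C : Type} [CommRing C] {I J : Type}

/-- the left factor -/
def lf (A : I → Fin 3 → C) : Fin 3 ⊕ I → Fin 3 → C
  | .inl s, s' => if s = s' then 1 else 0
  | .inr i, s => A i s

/-- the right factor -/
def rf (D : Fin 3 → C) (B : Fin 3 → J → C) : Fin 3 → Fin 3 ⊕ J → C
  | s, .inl s' => if s = s' then D s else 0
  | s, .inr j => B s j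

/-- the matrix -/
def RR (D : Fin 3 → C) (A : I → Fin 3 → C) (B : Fin 3 → J → C) :
    (Fin 3 ⊕ I) × (Fin 3 ⊕ J) → C := fun x => ∑ s, lf A x.1 s * rf D B s x.2

lemma RR_ll (D : Fin 3 → C) (A : I → Fin 3 → C) (B : Fin 3 → J → C) (s s' : Fin 3) :
    RR D A B (Sum.inl s, Sum.inl s') = if s = s' then D s else 0 := by
  change ∑ t, (if s = t then (1 : C) else 0) * (if t = s' then D t else 0) = _
  simp only [ite_mul, one_mul, zero_mul, Finset.sum_ite_eq, Finset.mem_univ, if_true]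

lemma RR_lr (D : Fin 3 → C) (A : I → Fin 3 → C) (B : Fin 3 → J → C) (s : Fin 3) (j : J) :
    RR D A B (Sum.inl s, Sum.inr j) = B s j := by
  change ∑ t, (if s = t then (1 : C) else 0) * B t j = _
  simp

lemma RR_rl (D : Fin 3 → C) (A : I → Fin 3 → C) (B : Fin 3 → J → C) (i : I) (s : Fin 3) :
    RR D A B (Sum.inr i, Sum.inl s) = A i s * D s := by
  change ∑ t, A i t * (if t = s then D t else 0) = _
  simp

lemma RR_rr (D : Fin 3 → C) (A : I → Fin 3 → C) (B : Fin 3 → J → C) (i : I) (j : J) :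
    RR D A B (Sum.inr i, Sum.inr j) = ∑ s, A i s * B s j := rfl

lemma RR_minor (D : Fin 3 → C) (A : I → Fin 3 → C) (B : Fin 3 → J → C) (α : Fin 4 → Fin 3 ⊕ I)
    (β : Fin 4 → Fin 3 ⊕ J) : Matrix.det (Matrix.of fun i j => RR D A B (α i, β j)) = 0 :=
  det_prod (fun i => lf A (α i)) fun s j => rf D B s (β j)

lemma map_RR {C' : Type} [CommRing C'] (f : C →+* C') (D : Fin 3 → C) (A : I → Fin 3 → C)
    (B : Fin 3 → J → C) (x : (Fin 3 ⊕ I) × (Fin 3 ⊕ J)) : f (RR D A B x) =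
      RR (fun s => f (D s)) (fun i s => f (A i s)) (fun s j => f (B s j)) x := by
  rcases x with ⟨s | i, s' | j⟩
  · rw [RR_ll, RR_ll]
    split_ifs
    · rfl
    · exact map_zero f
  · rw [RR_lr, RR_lr]
  · rw [RR_rl, RR_rl, map_mul]
  · rw [RR_rr, RR_rr, map_sum]
    simp only [map_mul]

/-- A matrix of rank at most three with an invertible diagonal block of size three. -/
lemma RR_surj (v : (Fin 3 ⊕ I) × (Fin 3 ⊕ J) → C)
    (h0 : ∀ s s' : Fin 3, s ≠ s' → v (Sum.inl s, Sum.inl s') = 0)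
    (hm : ∀ (α : Fin 4 → Fin 3 ⊕ I) (β : Fin 4 → Fin 3 ⊕ J),
      Matrix.det (Matrix.of fun i j => v (α i, β j)) = 0)
    (w : Fin 3 → C) (hw : ∀ s, v (Sum.inl s, Sum.inl s) * w s = 1) :
    RR (fun s => v (Sum.inl s, Sum.inl s)) (fun i s => v (Sum.inr i, Sum.inl s) * w s)
      (fun s j => v (Sum.inl s, Sum.inr j)) = v := by
  funext x
  rcases x with ⟨s | i, s' | j⟩
  · rw [RR_ll]
    split_ifs with h
    · rw [h]
    · exact (h0 s s' h).symm
  · rw [RR_lr]
  · rw [RR_rl, mul_assoc, mul_comm (w s'), hw, mul_one]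
  · rw [RR_rr, Fin.sum_univ_three]
    have h1 := hm ![Sum.inl 0, Sum.inl 1, Sum.inl 2, Sum.inr i]
      ![Sum.inl 0, Sum.inl 1, Sum.inl 2, Sum.inr j]
    have h2 : (Matrix.of fun a b => v ((![Sum.inl 0, Sum.inl 1, Sum.inl 2, Sum.inr i] :
        Fin 4 → Fin 3 ⊕ I) a, (![Sum.inl 0, Sum.inl 1, Sum.inl 2, Sum.inr j] :
        Fin 4 → Fin 3 ⊕ J) b)) =
        !![v (Sum.inl 0, Sum.inl 0), 0, 0, v (Sum.inl 0, Sum.inr j);
          0, v (Sum.inl 1, Sum.inl 1), 0, v (Sum.inl 1, Sum.inr j);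
          0, 0, v (Sum.inl 2, Sum.inl 2), v (Sum.inl 2, Sum.inr j);
          v (Sum.inr i, Sum.inl 0), v (Sum.inr i, Sum.inl 1), v (Sum.inr i, Sum.inl 2),
            v (Sum.inr i, Sum.inr j)] := by
      ext a b
      fin_cases a <;> fin_cases b <;>
        first
        | rfl
        | exact h0 _ _ (by decide)
    rw [h2] at h1
    have h3 := det_four (fun s => v (Sum.inl s, Sum.inl s)) (fun s => v (Sum.inr i, Sum.inl s))
      (fun s => v (Sum.inl s, Sum.inr j)) (v (Sum.inr i, Sum.inr j))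
    rw [h1] at h3
    have w0 := hw 0
    have w1 := hw 1
    have w2 := hw 2
    set d0 := v (Sum.inl 0, Sum.inl 0)
    set d1 := v (Sum.inl 1, Sum.inl 1)
    set d2 := v (Sum.inl 2, Sum.inl 2)
    set a0 := v (Sum.inr i, Sum.inl 0)
    set a1 := v (Sum.inr i, Sum.inl 1)
    set a2 := v (Sum.inr i, Sum.inl 2)
    set b0 := v (Sum.inl 0, Sum.inr j)
    set b1 := v (Sum.inl 1, Sum.inr j)
    set b2 := v (Sum.inl 2, Sum.inr j)
    set x := v (Sum.inr i, Sum.inr j)
    have h4 : x = w 0 * w 1 * w 2 * (d0 * d1 * d2 * x) := by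
      calc x = (d0 * w 0) * (d1 * w 1) * (d2 * w 2) * x := by rw [w0, w1, w2]; ring
        _ = _ := by ring
    have h5 : d0 * d1 * d2 * x = a0 * b0 * d1 * d2 + a1 * b1 * d0 * d2 + a2 * b2 * d0 * d1 := by
      linear_combination -h3
    rw [h4, h5]
    calc a0 * w 0 * b0 + a1 * w 1 * b1 + a2 * w 2 * b2 =
        a0 * w 0 * b0 * 1 * 1 + a1 * w 1 * b1 * 1 * 1 + a2 * w 2 * b2 * 1 * 1 := by ring
      _ = a0 * w 0 * b0 * (d1 * w 1) * (d2 * w 2) + a1 * w 1 * b1 * (d0 * w 0) * (d2 * w 2) +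
          a2 * w 2 * b2 * (d0 * w 0) * (d1 * w 1) := by rw [w0, w1, w2]
      _ = _ := by ring

end rank

section base

variable {I : Type} {n : ℕ}

/-- the pattern of zeros -/
def ZL (ZA : I → Fin 3 → Prop) (ZB : Fin 3 → Fin n → Prop) (Q : Fin n → I → Prop) :
    Fin 3 ⊕ I → Fin 3 ⊕ Fin n → Prop
  | .inl s, .inl s' => s ≠ s'
  | .inl s, .inr j => ZB s j
  | .inr i, .inl s => ZA i s
  | .inr i, .inr j => Q j i

/-- **Incidence systems from matrices of rank at most three with prescribed zeros.** -/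
theorem core_of_rank (hP : Bnd sep P)
    (h : ∀ (μ ν : ℕ) (Z : Fin μ → Fin ν → Prop), Has P (RC R (Fin μ) (Fin ν) Z))
    (I : Type) [Fintype I] [DecidableEq I] (n : ℕ) (ZA : I → Fin 3 → Prop)
    (ZB : Fin 3 → Fin n → Prop) (Q : Fin n → I → Prop) :
    Has P (R := R) fun C _ _ (u : SV I n → C) => FZ ZA ZB R C u ∧
      ∀ j i, Q j i → ∑ s, u (Sum.inl (i, s)) * u (Sum.inr (s, j)) = 0 := by
  classical
  have s1 := rc_units hP (Fin 3 ⊕ I) (Fin 3 ⊕ Fin n) (rc_type hP h _ _)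
    (Finset.univ.image fun s : Fin 3 => ((Sum.inl s : Fin 3 ⊕ I), (Sum.inl s : Fin 3 ⊕ Fin n)))
    (ZL ZA ZB Q)
  have hrep0 : IsRep (R := R) fun C _ _ (u : SV I n → C) => FZ ZA ZB R C u ∧
      ∀ j i, Q j i → ∑ s, u (Sum.inl (i, s)) * u (Sum.inr (s, j)) = 0 := by
    refine ((rep_FZ ZA ZB).and (rep_all fun x : {x : Fin n × I // Q x.1 x.2} =>
      ff R x.1.1 x.1.2)).congr fun C _ _ u => ?_
    simp only [aeval_ff]
    exact and_congr_right fun _ => ⟨fun h j i hx => h ⟨(j, i), hx⟩, fun h x => h _ _ x.2⟩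
  refine of_gms hP (Fin 3) hrep0 ?_
  have hrep : IsRep (R := R) fun C _ _ (u : SV I n ⊕ Fin 3 → C) =>
      (FZ ZA ZB R C (fun s => u (Sum.inl s)) ∧ ∀ j i, Q j i →
        ∑ s, u (Sum.inl (Sum.inl (i, s))) * u (Sum.inl (Sum.inr (s, j))) = 0) ∧
        ∀ x, IsUnit (u (Sum.inr x)) := (hrep0.reindex Sum.inl).and (rep_vars Sum.inr)
  let p : (Fin 3 ⊕ I) × (Fin 3 ⊕ Fin n) → MvPolynomial (SV I n ⊕ Fin 3) R :=
    RR (fun s => X (Sum.inr s)) (fun i s => X (Sum.inl (Sum.inl (i, s))))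
      fun s j => X (Sum.inl (Sum.inr (s, j)))
  have hp : ∀ (C : Type) [CommRing C] [Algebra R C] (u : SV I n ⊕ Fin 3 → C),
      (fun s => aeval u (p s)) = RR (fun s => u (Sum.inr s))
        (fun i s => u (Sum.inl (Sum.inl (i, s)))) fun s j => u (Sum.inl (Sum.inr (s, j))) := by
    intro C _ _ u
    funext x
    have h1 := map_RR (aeval u : MvPolynomial (SV I n ⊕ Fin 3) R →ₐ[R] C).toRingHom
      (fun s => X (Sum.inr s)) (fun i s => X (Sum.inl (Sum.inl (i, s))))
      (fun s j => X (Sum.inl (Sum.inr (s, j)))) x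
    refine h1.trans ?_
    congr 1
    · funext s
      exact aeval_X _ _
    · funext i s
      exact aeval_X _ _
    · funext i s
      exact aeval_X _ _
  refine s1.iso hP hrep p ?_ ?_ ?_
  · intro C _ _ u hu
    rw [hp]
    obtain ⟨⟨⟨hZA, hZB⟩, hQ⟩, hun⟩ := hu
    refine ⟨⟨?_, RR_minor _ _ _⟩, ?_⟩
    · rintro (s | i) (s' | j) hab
      · rw [RR_ll]
        exact if_neg hab
      · rw [RR_lr]
        exact hZB s j hab
      · rw [RR_rl]
        have h2 : u (Sum.inl (Sum.inl (i, s'))) = 0 := hZA i s' hab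
        rw [h2, zero_mul]
      · rw [RR_rr]
        exact hQ j i hab
    · intro a ha
      obtain ⟨s, -, rfl⟩ := Finset.mem_image.mp ha
      rw [RR_ll, if_pos rfl]
      exact hun s
  · intro C _ _ v hv
    obtain ⟨⟨hZ, hm⟩, hun⟩ := hv
    have hD : ∀ s : Fin 3, IsUnit (v (Sum.inl s, Sum.inl s)) := fun s =>
      hun _ (Finset.mem_image.mpr ⟨s, Finset.mem_univ _, rfl⟩)
    choose w hw using fun s => (hD s).exists_right_inv
    have h1 := RR_surj v (fun s s' hs => hZ (Sum.inl s) (Sum.inl s') hs) hm w hw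
    refine ⟨Sum.elim (Sum.elim (fun x => v (Sum.inr x.1, Sum.inl x.2) * w x.2)
      fun x => v (Sum.inl x.1, Sum.inr x.2)) fun s => v (Sum.inl s, Sum.inl s), ⟨⟨⟨?_, ?_⟩, ?_⟩,
      hD⟩, fun s => ?_⟩
    · intro i s hs
      change v (Sum.inr i, Sum.inl s) * w s = 0
      rw [hZ (Sum.inr i) (Sum.inl s) hs, zero_mul]
    · intro s j hs
      exact hZ (Sum.inl s) (Sum.inr j) hs
    · intro j i hji
      refine Eq.trans ?_ (hZ (Sum.inr i) (Sum.inr j) hji)
      exact congrFun h1 (Sum.inr i, Sum.inr j)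
    · refine (congrFun (hp C _) s).trans ?_
      exact congrFun h1 s
  · intro C _ _ u u' hu hu' h3
    have h4 := (hp C u).symm.trans ((funext h3).trans (hp C u'))
    have e1 : ∀ s, u (Sum.inr s) = u' (Sum.inr s) := by
      intro s
      have h5 := congrFun h4 (Sum.inl s, Sum.inl s)
      rw [RR_ll, RR_ll, if_pos rfl, if_pos rfl] at h5
      exact h5
    funext x
    rcases x with (⟨i, s⟩ | ⟨s, j⟩) | s
    · have h5 := congrFun h4 (Sum.inr i, Sum.inl s)
      rw [RR_rl, RR_rl, e1] at h5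
      exact (hu'.2 s).mul_right_cancel h5
    · have h5 := congrFun h4 (Sum.inl s, Sum.inr j)
      rw [RR_lr, RR_lr] at h5
      exact h5
    · exact e1 s

/-- **Matrices of rank at most three with prescribed zeros are universal.** -/
theorem all_of_rank [IsNoetherianRing R] (hR : Pool.Agent.Q193.LT.Frac R) (hP : Bnd sep P)
    (h : ∀ (μ ν : ℕ) (Z : Fin μ → Fin ν → Prop), Has P (RC R (Fin μ) (Fin ν) Z)) (X : Sch R)
    (hX : FT sep X) : P X :=
  all_of_core hR hP (fun I _ _ n ZA ZB Q => core_of_rank hP h I n ZA ZB Q) X hX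

end base

end Pool.Agent.H57.ZP
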