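import Pool.Agent.H89.L.Z125_UN_Red

/-!
# Locally closed subschemes of affine spaces given by their points

A locally closed subscheme `G = 0`, `w ≠ 0` of an affine space is described by the condition `F` on its
points with values in the `R`-algebras. `Has P F`: the property `P` holds for it.
-/

set_option autoImplicit false

open CategoryTheory AlgebraicGeometry MvPolynomial Pool.Agent.Y116.UV Pool.Agent.Z125.UN

namespace Pool.Agent.H57.ZP

variable {R : Type} [CommRing R]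

/-- a condition on the points of the affine space with values in the `R`-algebras -/
abbrev Cond (R : Type) [CommRing R] (σ : Type) :=
  ∀ (C : Type) [CommRing C] [Algebra R C], (σ → C) → Prop

/-- the points of the piece `G = 0`, `w ≠ 0` -/
def Pts {σ κ : Type} (G : κ → MvPolynomial σ R) (w : MvPolynomial σ R) : Cond R σ :=
  fun _ _ _ u => (∀ x, aeval u (G x) = 0) ∧ IsUnit (aeval u w)

lemma pts_pv {σ κ : Type} (G : κ → MvPolynomial σ R) (w : MvPolynomial σ R) :
    Pts G w (Pc G w) (pv G w) :=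
  ⟨fun x => by rw [pc_aeval]; exact pc_rel G w x, by rw [pc_aeval]; exact pc_unit G w⟩

lemma pts_map {σ κ : Type} (G : κ → MvPolynomial σ R) (w : MvPolynomial σ R) {C D : Type}
    [CommRing C] [Algebra R C] [CommRing D] [Algebra R D] (f : C →ₐ[R] D) (u : σ → C)
    (h : Pts G w C u) : Pts G w D fun s => f (u s) := by
  refine ⟨fun x => ?_, ?_⟩
  · rw [← comp_aeval_apply, h.1, map_zero]
  · rw [← comp_aeval_apply]
    exact h.2.map f

/-- Isomorphisms are bijections on the points. -/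
lemma pc_iso {σ κ σ' κ' : Type} {G : κ → MvPolynomial σ R} {w : MvPolynomial σ R}
    {G' : κ' → MvPolynomial σ' R} {w' : MvPolynomial σ' R} (p : σ → MvPolynomial σ' R)
    (h1 : ∀ (C : Type) [CommRing C] [Algebra R C] (u : σ' → C), Pts G' w' C u →
      Pts G w C fun s => aeval u (p s))
    (h2 : ∀ (C : Type) [CommRing C] [Algebra R C] (u : σ → C), Pts G w C u →
      ∃ u' : σ' → C, Pts G' w' C u' ∧ ∀ s, aeval u' (p s) = u s)
    (h3 : ∀ (C : Type) [CommRing C] [Algebra R C] (u u' : σ' → C), Pts G' w' C u →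
      Pts G' w' C u' → (∀ s, aeval u (p s) = aeval u' (p s)) → u = u') :
    Nonempty (Pc G w ≃ₐ[R] Pc G' w') := by
  obtain ⟨ha, ha'⟩ := h1 (Pc G' w') (pv G' w') (pts_pv G' w')
  obtain ⟨b, ⟨hb, hb'⟩, hbp⟩ := h2 (Pc G w) (pv G w) (pts_pv G w)
  refine ⟨pcEquiv (fun s => aeval (pv G' w') (p s)) ha ha' b hb hb' (fun s => ?_) ?_⟩
  · rw [pc_aeval, pcLift_pc, hbp]
  · have h4 : (fun s => pcLift G w (fun s => aeval (pv G' w') (p s)) ha ha' (b s)) = pv G' w' := by
      apply h3 (Pc G' w')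
      · exact pts_map G' w' _ b ⟨hb, hb'⟩
      · exact pts_pv G' w'
      · intro s
        rw [← comp_aeval_apply, hbp, pcLift_pv]
    exact fun s => congrFun h4 s

/-- `F` is the condition of a piece -/
def IsRep {σ : Type} (F : Cond R σ) : Prop :=
  ∃ (κ : Type) (G : κ → MvPolynomial σ R) (w : MvPolynomial σ R),
    ∀ (C : Type) [CommRing C] [Algebra R C] (u : σ → C), F C u ↔ Pts G w C u

/-- the property `P` holds for the piece with the condition `F` -/
def Has (P : Sch R → Prop) {σ : Type} (F : Cond R σ) : Prop :=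
  ∃ (κ : Type) (G : κ → MvPolynomial σ R) (w : MvPolynomial σ R),
    (∀ (C : Type) [CommRing C] [Algebra R C] (u : σ → C), F C u ↔ Pts G w C u) ∧
      P (aff R (Pc G w))

variable {sep : Prop} {P : Sch R → Prop}

lemma Has.rep {σ : Type} {F : Cond R σ} (h : Has P F) : IsRep F := by
  obtain ⟨κ, G, w, h1, -⟩ := h
  exact ⟨κ, G, w, h1⟩

lemma Has.congr {σ : Type} {F F' : Cond R σ} (h : Has P F)
    (e : ∀ (C : Type) [CommRing C] [Algebra R C] (u : σ → C), F C u ↔ F' C u) : Has P F' := by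
  obtain ⟨κ, G, w, h1, h2⟩ := h
  exact ⟨κ, G, w, fun C _ _ u => (e C u).symm.trans (h1 C u), h2⟩

lemma IsRep.congr {σ : Type} {F F' : Cond R σ} (h : IsRep F)
    (e : ∀ (C : Type) [CommRing C] [Algebra R C] (u : σ → C), F C u ↔ F' C u) : IsRep F' := by
  obtain ⟨κ, G, w, h1⟩ := h
  exact ⟨κ, G, w, fun C _ _ u => (e C u).symm.trans (h1 C u)⟩

/-- invariance under isomorphisms -/
lemma Has.iso (hP : Bnd sep P) {σ σ' : Type} [Finite σ] [Finite σ'] {F : Cond R σ}
    {F' : Cond R σ'} (hF : Has P F) (hF' : IsRep F') (p : σ → MvPolynomial σ' R)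
    (h1 : ∀ (C : Type) [CommRing C] [Algebra R C] (u : σ' → C), F' C u →
      F C fun s => aeval u (p s))
    (h2 : ∀ (C : Type) [CommRing C] [Algebra R C] (u : σ → C), F C u →
      ∃ u' : σ' → C, F' C u' ∧ ∀ s, aeval u' (p s) = u s)
    (h3 : ∀ (C : Type) [CommRing C] [Algebra R C] (u u' : σ' → C), F' C u →
      F' C u' → (∀ s, aeval u (p s) = aeval u' (p s)) → u = u') : Has P F' := by
  obtain ⟨κ, G, w, hG, hp⟩ := hF
  obtain ⟨κ', G', w', hG'⟩ := hF'
  refine ⟨κ', G', w', hG', ?_⟩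
  obtain ⟨e⟩ := pc_iso (G := G) (w := w) (G' := G') (w' := w') p
    (fun C _ _ u h => (hG _ _).mp (h1 C u ((hG' _ _).mpr h)))
    (fun C _ _ u h => by
      obtain ⟨u', h4, h5⟩ := h2 C u ((hG _ _).mpr h)
      exact ⟨u', (hG' _ _).mp h4, h5⟩)
    (fun C _ _ u u' h h' => h3 C u u' ((hG' _ _).mpr h) ((hG' _ _).mpr h'))
  exact iso_alg hP.toUni e hp

lemma Has.iso' (hP : Bnd sep P) {σ σ' : Type} [Finite σ] [Finite σ'] {F : Cond R σ}
    {F' : Cond R σ'} (hF : IsRep F) (hF' : Has P F') (p : σ → MvPolynomial σ' R)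
    (h1 : ∀ (C : Type) [CommRing C] [Algebra R C] (u : σ' → C), F' C u →
      F C fun s => aeval u (p s))
    (h2 : ∀ (C : Type) [CommRing C] [Algebra R C] (u : σ → C), F C u →
      ∃ u' : σ' → C, F' C u' ∧ ∀ s, aeval u' (p s) = u s)
    (h3 : ∀ (C : Type) [CommRing C] [Algebra R C] (u u' : σ' → C), F' C u →
      F' C u' → (∀ s, aeval u (p s) = aeval u' (p s)) → u = u') : Has P F := by
  obtain ⟨κ, G, w, hG⟩ := hF
  obtain ⟨κ', G', w', hG', hp⟩ := hF'
  refine ⟨κ, G, w, hG, ?_⟩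
  obtain ⟨e⟩ := pc_iso (G := G) (w := w) (G' := G') (w' := w') p
    (fun C _ _ u h => (hG _ _).mp (h1 C u ((hG' _ _).mpr h)))
    (fun C _ _ u h => by
      obtain ⟨u', h4, h5⟩ := h2 C u ((hG _ _).mpr h)
      exact ⟨u', (hG' _ _).mp h4, h5⟩)
    (fun C _ _ u u' h h' => h3 C u u' ((hG' _ _).mpr h) ((hG' _ _).mpr h'))
  exact iso_alg hP.toUni e.symm hp

lemma Has.piece (hP : Bnd sep P) {σ κ : Type} [Finite σ] {F : Cond R σ} (hF : Has P F)
    (G : κ → MvPolynomial σ R) (w : MvPolynomial σ R)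
    (h : ∀ (C : Type) [CommRing C] [Algebra R C] (u : σ → C), F C u ↔ Pts G w C u) :
    P (aff R (Pc G w)) := by
  obtain ⟨κ', G', w', hG', hp⟩ := hF
  obtain ⟨e⟩ := pc_iso (G := G) (w := w) (G' := G') (w' := w') X
    (fun C _ _ u h4 => by
      simp only [aeval_X]
      exact (h _ _).mp ((hG' _ _).mpr h4))
    (fun C _ _ u h4 => ⟨u, (hG' _ _).mp ((h _ _).mpr h4), fun s => aeval_X _ _⟩)
    (fun C _ _ u u' _ _ h4 => by
      simp only [aeval_X] at h4
      exact funext h4)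
  exact iso_alg hP.toUni e.symm hp

section rep

variable {σ : Type}

lemma rep_true : IsRep (R := R) (σ := σ) fun _ _ _ _ => True :=
  ⟨Empty, Empty.elim, 1, fun C _ _ u => ⟨fun _ => ⟨fun x => x.elim, by
    rw [map_one]; exact isUnit_one⟩, fun _ => trivial⟩⟩

lemma rep_eq (e : MvPolynomial σ R) : IsRep (R := R) fun _ _ _ u => aeval u e = 0 :=
  ⟨Unit, fun _ => e, 1, fun C _ _ u => ⟨fun h => ⟨fun _ => h, by
    rw [map_one]; exact isUnit_one⟩, fun h => h.1 ()⟩⟩

lemma rep_all {ι : Type} (e : ι → MvPolynomial σ R) :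
    IsRep (R := R) fun _ _ _ u => ∀ i, aeval u (e i) = 0 :=
  ⟨ι, e, 1, fun C _ _ u => ⟨fun h => ⟨fun i => h i, by
    rw [map_one]; exact isUnit_one⟩, fun h => h.1⟩⟩

lemma rep_unit (e : MvPolynomial σ R) : IsRep (R := R) fun _ _ _ u => IsUnit (aeval u e) :=
  ⟨Empty, Empty.elim, e, fun C _ _ u => ⟨fun h => ⟨fun x => x.elim, h⟩, fun h => h.2⟩⟩

lemma rep_units {ι : Type} [Finite ι] (e : ι → MvPolynomial σ R) :
    IsRep (R := R) fun _ _ _ u => ∀ i, IsUnit (aeval u (e i)) := by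
  have := Fintype.ofFinite ι
  refine (rep_unit (∏ i, e i)).congr fun C _ _ u => ?_
  rw [map_prod]
  constructor
  · intro h i
    exact isUnit_of_dvd_unit (Finset.dvd_prod_of_mem (fun i => aeval u (e i)) (Finset.mem_univ i)) h
  · intro h
    exact (IsUnit.prod_iff (s := Finset.univ) (f := fun i => aeval u (e i))).mpr fun i _ => h i

lemma IsRep.and {F F' : Cond R σ} (h : IsRep F) (h' : IsRep F') :
    IsRep (R := R) fun C _ _ u => F C u ∧ F' C u := by
  obtain ⟨κ, G, w, hG⟩ := h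
  obtain ⟨κ', G', w', hG'⟩ := h'
  refine ⟨κ ⊕ κ', Sum.elim G G', w * w', fun C _ _ u => ?_⟩
  beta_reduce
  rw [hG, hG']
  constructor
  · rintro ⟨⟨h1, h2⟩, h3, h4⟩
    refine ⟨?_, ?_⟩
    · rintro (x | x)
      · exact h1 x
      · exact h3 x
    · rw [map_mul]
      exact h2.mul h4
  · rintro ⟨h1, h2⟩
    rw [map_mul] at h2
    exact ⟨⟨fun x => h1 (Sum.inl x), isUnit_of_mul_isUnit_left h2⟩,
      fun x => h1 (Sum.inr x), isUnit_of_mul_isUnit_right h2⟩

lemma IsRep.comap {σ' : Type} {F : Cond R σ} (h : IsRep F) (p : σ → MvPolynomial σ' R) :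
    IsRep (R := R) fun C _ _ (u : σ' → C) => F C fun s => aeval u (p s) := by
  obtain ⟨κ, G, w, hG⟩ := h
  refine ⟨κ, fun x => bind₁ p (G x), bind₁ p w, fun C _ _ u => ?_⟩
  beta_reduce
  rw [hG]
  unfold Pts
  simp only [aeval_bind₁]

lemma IsRep.reindex {σ' : Type} {F : Cond R σ} (h : IsRep F) (f : σ → σ') :
    IsRep (R := R) fun C _ _ (u : σ' → C) => F C fun s => u (f s) := by
  refine (h.comap fun s => X (f s)).congr fun C _ _ u => ?_
  simp only [aeval_X]

end rep

section split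

variable {σ : Type} [Finite σ] {F : Cond R σ}

lemma has_total (hP : Bnd sep P) (hF : IsRep F) (e : MvPolynomial σ R)
    (hc : Has P fun C _ _ u => F C u ∧ aeval u e = 0)
    (ho : Has P fun C _ _ u => F C u ∧ IsUnit (aeval u e)) : Has P F := by
  obtain ⟨κ, G, w, hG⟩ := hF
  refine ⟨κ, G, w, hG, pc_total (e := e) hP (hc.piece hP _ _ fun C _ _ u => ?_)
    (ho.piece hP _ _ fun C _ _ u => ?_)⟩
  · beta_reduce
    rw [hG]
    constructor
    · rintro ⟨⟨h1, h2⟩, h3⟩
      exact ⟨fun x => by cases x with | none => exact h3 | some x => exact h1 x, h2⟩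
    · rintro ⟨h1, h2⟩
      exact ⟨⟨fun x => h1 (some x), h2⟩, h1 none⟩
  · beta_reduce
    rw [hG]
    constructor
    · rintro ⟨⟨h1, h2⟩, h3⟩
      exact ⟨h1, by rw [map_mul]; exact h2.mul h3⟩
    · rintro ⟨h1, h2⟩
      rw [map_mul] at h2
      exact ⟨⟨h1, isUnit_of_mul_isUnit_left h2⟩, isUnit_of_mul_isUnit_right h2⟩

lemma has_closed (hP : Bnd sep P) (hF : Has P F) (e : MvPolynomial σ R)
    (ho : Has P fun C _ _ u => F C u ∧ IsUnit (aeval u e)) :
    Has P fun C _ _ u => F C u ∧ aeval u e = 0 := by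
  obtain ⟨κ, G, w, hG, hp⟩ := hF
  refine ⟨Option κ, adj G e, w, fun C _ _ u => ?_, pc_closed (e := e) hP hp
    (ho.piece hP _ _ fun C _ _ u => ?_)⟩
  · beta_reduce
    rw [hG]
    constructor
    · rintro ⟨⟨h1, h2⟩, h3⟩
      exact ⟨fun x => by cases x with | none => exact h3 | some x => exact h1 x, h2⟩
    · rintro ⟨h1, h2⟩
      exact ⟨⟨fun x => h1 (some x), h2⟩, h1 none⟩
  · beta_reduce
    rw [hG]
    constructor
    · rintro ⟨⟨h1, h2⟩, h3⟩
      exact ⟨h1, by rw [map_mul]; exact h2.mul h3⟩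
    · rintro ⟨h1, h2⟩
      rw [map_mul] at h2
      exact ⟨⟨h1, isUnit_of_mul_isUnit_left h2⟩, isUnit_of_mul_isUnit_right h2⟩

lemma has_open (hP : Bnd sep P) (hF : Has P F) (e : MvPolynomial σ R)
    (hc : Has P fun C _ _ u => F C u ∧ aeval u e = 0) :
    Has P fun C _ _ u => F C u ∧ IsUnit (aeval u e) := by
  obtain ⟨κ, G, w, hG, hp⟩ := hF
  refine ⟨κ, G, w * e, fun C _ _ u => ?_, pc_open (e := e) hP hp
    (hc.piece hP _ _ fun C _ _ u => ?_)⟩
  · beta_reduce
    rw [hG]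
    constructor
    · rintro ⟨⟨h1, h2⟩, h3⟩
      exact ⟨h1, by rw [map_mul]; exact h2.mul h3⟩
    · rintro ⟨h1, h2⟩
      rw [map_mul] at h2
      exact ⟨⟨h1, isUnit_of_mul_isUnit_left h2⟩, isUnit_of_mul_isUnit_right h2⟩
  · beta_reduce
    rw [hG]
    constructor
    · rintro ⟨⟨h1, h2⟩, h3⟩
      exact ⟨fun x => by cases x with | none => exact h3 | some x => exact h1 x, h2⟩
    · rintro ⟨h1, h2⟩
      exact ⟨⟨fun x => h1 (some x), h2⟩, h1 none⟩

end split

section factors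

variable {σ : Type} [Finite σ] {F : Cond R σ}

/-- the product with an affine space -/
lemma has_space (hP : Bnd sep P) (τ : Type) [Finite τ] (hF : Has P F) :
    Has P (R := R) fun C _ _ (u : σ ⊕ τ → C) => F C fun s => u (Sum.inl s) := by
  have := Fintype.ofFinite τ
  obtain ⟨κ, G, w, hG, hp⟩ := hF
  refine ⟨κ, rl G τ, rename Sum.inl w, fun C _ _ u => ?_, pc_poly hP τ hp⟩
  beta_reduce
  rw [hG]
  unfold Pts rl
  simp only [aeval_rename]
  rfl

lemma of_poly_fin (hP : Bnd sep P) {A : Type} [CommRing A] [Algebra R A] [Algebra.FiniteType R A]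
    (n : ℕ) (h : P (aff R (MvPolynomial (Fin n) A))) : P (aff R A) := by
  have h1 : IsOpenImmersion (𝟙 (aff R A) : aff R A ⟶ aff R A).left :=
    inferInstanceAs (IsOpenImmersion (𝟙 (aff R A).left))
  have h2 : Set.range (𝟙 (aff R A) : aff R A ⟶ aff R A).left =
      {x : PrimeSpectrum A | ∃ l, f1 A n l ∉ x.asIdeal} := by
    have h1 : Set.range (𝟙 (aff R A) : aff R A ⟶ aff R A).left = Set.univ := Set.range_id
    have h2 : {x : PrimeSpectrum A | ∃ l, f1 A n l ∉ x.asIdeal} = Set.univ := by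
      rw [Set.eq_univ_iff_forall]
      intro x
      exact ⟨0, fun h => x.isPrime.ne_top ((Ideal.eq_top_iff_one _).mpr h)⟩
    exact h1.trans h2.symm
  have : Algebra.FiniteType R (MvPolynomial (Fin n) A) :=
    Algebra.FiniteType.trans (S := A) inferInstance inferInstance
  exact hP.jouanolou A (n + 1) (f1 A n) (aff R A) (𝟙 _) h1 h2
    (iso_alg hP.toUni ((jouOne A n).restrictScalars R).symm h)

/-- descent from the product with an affine space -/
lemma of_space (hP : Bnd sep P) (τ : Type) [Finite τ] (hF : IsRep F)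
    (h : Has P (R := R) fun C _ _ (u : σ ⊕ τ → C) => F C fun s => u (Sum.inl s)) : Has P F := by
  have := Fintype.ofFinite τ
  obtain ⟨κ, G, w, hG⟩ := hF
  refine ⟨κ, G, w, hG, ?_⟩
  have h1 : P (aff R (Pc (rl G τ) (rename Sum.inl w))) := by
    refine h.piece hP _ _ fun C _ _ u => ?_
    beta_reduce
    rw [hG]
    unfold Pts rl
    simp only [aeval_rename]
    rfl
  have h2 := iso_alg hP.toUni (polyE G w τ).symm h1
  have : Algebra.FiniteType R (MvPolynomial τ (Pc G w)) :=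
    Algebra.FiniteType.trans (S := Pc G w) inferInstance inferInstance
  exact of_poly_fin hP (Fintype.card τ)
    (iso_alg hP.toUni ((renameEquiv (Pc G w) (Fintype.equivFin τ)).restrictScalars R) h2)

/-- the product with the multiplicative group -/
lemma has_gm (hP : Bnd sep P) (hF : Has P F) :
    Has P (R := R) fun C _ _ (u : σ ⊕ Unit → C) =>
      (F C fun s => u (Sum.inl s)) ∧ IsUnit (u (Sum.inr ())) := by
  have h1 := has_space hP Unit hF
  have h2 : Has P (R := R) fun C _ _ (u : σ ⊕ Unit → C) =>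
      (F C fun s => u (Sum.inl s)) ∧ aeval u (X (Sum.inr ()) : MvPolynomial (σ ⊕ Unit) R) = 0 := by
    refine hF.iso hP (h1.rep.and (rep_eq _)) (fun s => X (Sum.inl s)) ?_ ?_ ?_
    · intro C _ _ u h
      simp only [aeval_X]
      exact h.1
    · intro C _ _ u h
      exact ⟨Sum.elim u 0, ⟨h, by rw [aeval_X]; rfl⟩, fun s => by rw [aeval_X]; rfl⟩
    · intro C _ _ u u' h h' h3
      funext x
      rcases x with x | x
      · have h4 := h3 x
        rwa [aeval_X, aeval_X] at h4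
      · have h4 := h.2
        have h5 := h'.2
        rw [aeval_X] at h4 h5
        exact h4.trans h5.symm
  refine (has_open hP h1 _ h2).congr fun C _ _ u => ?_
  rw [aeval_X]

/-- descent from the product with the multiplicative group -/
lemma of_gm (hP : Bnd sep P) (hF : IsRep F) (h : Has P (R := R) fun C _ _ (u : σ ⊕ Unit → C) =>
      (F C fun s => u (Sum.inl s)) ∧ IsUnit (u (Sum.inr ()))) : Has P F := by
  obtain ⟨κ, G, w, hG⟩ := hF
  refine ⟨κ, G, w, hG, pc_torus _ _ hP ?_⟩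
  refine h.piece hP _ _ fun C _ _ u => ?_
  beta_reduce
  rw [hG]
  unfold Pts rl
  simp only [aeval_rename, map_mul, IsUnit.mul_iff, xs, aeval_X]
  constructor
  · rintro ⟨⟨h1, h2⟩, h3⟩
    exact ⟨h1, h2, h3⟩
  · rintro ⟨h1, h2, h3⟩
    exact ⟨⟨h1, h2⟩, h3⟩

end factors

end Pool.Agent.H57.ZP
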