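import Pool.Agent.H57.ZP.KMain

/-!
# Splitting a column of a matrix with prescribed elements
-/

set_option autoImplicit false

open CategoryTheory AlgebraicGeometry MvPolynomial Pool.Agent.Y116.UV Pool.Agent.Z125.UN Matrix

namespace Pool.Agent.H57.ZP

variable {R : Type} [CommRing R] {sep : Prop} {P : Sch R → Prop}

section matrix

variable {K : Type} [Fintype K] [DecidableEq K] {C : Type} [CommRing C]

open Classical in
/-- The column `q` of `M` is distributed over the columns `q` and `*`; new row `*`. -/
noncomputable def SP (q : K) (S : K → Prop) (s t : C) (M : K → K → C) :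
    Matrix (K ⊕ Unit) (K ⊕ Unit) C
  | .inl a, .inl b => if b = q ∧ ¬ S a then 0 else M a b
  | .inl a, .inr _ => if S a then 0 else -(s * M a q)
  | .inr _, .inl b => if b = q then t else 0
  | .inr _, .inr _ => s * t

lemma det_SP (q : K) (S : K → Prop) (s t : C) (M : K → K → C) :
    (SP q S s t M).det = s * t * Matrix.det M := by
  classical
  have h : SP q S s t M =
      fromBlocks (Matrix.of M) (Matrix.of fun a (_ : Unit) => if S a then 0 else -M a q) 0
        (Matrix.of fun _ (_ : Unit) => t) *
      fromBlocks 1 0 (Matrix.of fun (_ : Unit) b => if b = q then (1 : C) else 0) 1 *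
      fromBlocks 1 0 0 (Matrix.of fun _ (_ : Unit) => s) := by
    rw [fromBlocks_multiply, fromBlocks_multiply]
    ext a b
    rcases a with a | a
    · rcases b with b | b
      · rw [fromBlocks_apply₁₁]
        simp only [Matrix.mul_one, Matrix.mul_zero, add_zero, Matrix.add_apply, mul_apply,
          Matrix.of_apply, Finset.univ_unique, Finset.sum_singleton]
        change (if b = q ∧ ¬ S a then 0 else M a b) = _
        by_cases hb : b = q
        · subst hb
          by_cases hS : S a
          · simp [hS]
          · simp [hS]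
        · simp [hb]
      · rw [fromBlocks_apply₁₂]
        simp only [Matrix.mul_one, Matrix.mul_zero, zero_add, Matrix.add_apply, mul_apply,
          Matrix.of_apply, Finset.univ_unique, Finset.sum_singleton, Matrix.zero_apply, add_zero]
        change (if S a then 0 else -(s * M a q)) = _
        split_ifs
        · rw [zero_mul]
        · ring
    · rcases b with b | b
      · rw [fromBlocks_apply₂₁]
        simp only [Matrix.mul_one, Matrix.mul_zero, Matrix.zero_mul, add_zero, zero_add,
          mul_apply, Matrix.of_apply, Finset.univ_unique, Finset.sum_singleton]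
        change (if b = q then t else 0) = _
        split_ifs
        · rw [mul_one]
        · rw [mul_zero]
      · rw [fromBlocks_apply₂₂]
        simp only [Matrix.mul_one, Matrix.mul_zero, Matrix.zero_mul, zero_add,
          mul_apply, Matrix.of_apply, Finset.univ_unique, Finset.sum_singleton]
        change s * t = _
        ring
  rw [h, det_mul, det_mul, det_fromBlocks_zero₂₁, det_fromBlocks_zero₁₂, det_fromBlocks_zero₁₂]
  simp only [det_one, one_mul, mul_one]
  simp only [det_unique, Matrix.of_apply]
  change Matrix.det M * t * s = _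
  ring

lemma map_SP {C' : Type} [CommRing C'] (f : C →+* C') (q : K) (S : K → Prop) (s t : C)
    (M : K → K → C) (a b : K ⊕ Unit) : f (SP q S s t M a b) =
      SP q S (f s) (f t) (fun a b => f (M a b)) a b := by
  rcases a with a | a
  · rcases b with b | b
    · simp only [SP]
      split_ifs
      · exact map_zero f
      · rfl
    · simp only [SP]
      split_ifs
      · exact map_zero f
      · rw [map_neg, map_mul]
  · rcases b with b | b
    · simp only [SP]
      split_ifs
      · rfl
      · exact map_zero f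
    · exact map_mul f _ _

end matrix

section pattern

variable {K : Type} [Fintype K] [DecidableEq K]

/-- the pattern after the splitting of the column `q` -/
def SZ (Z : K → K → Prop) (q : K) (S : K → Prop) : K ⊕ Unit → K ⊕ Unit → Prop
  | .inl a, .inl b => Z a b ∨ (b = q ∧ ¬ S a)
  | .inl a, .inr _ => Z a q ∨ S a
  | .inr _, .inl b => b ≠ q
  | .inr _, .inr _ => False

/-- units at places of a matrix with prescribed zeros -/
lemma gl_units_le (hP : Bnd sep P) (S : Finset (K × K)) : ∀ Z : K → K → Prop,
    (∀ Z' : K → K → Prop, (∀ a b, Z a b → Z' a b) → Has P (GLc R K Z')) →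
    Has P (R := R) fun C _ _ N => GLc R K Z C N ∧ ∀ x ∈ S, IsUnit (N x) := by
  induction S using Finset.induction_on with
  | empty =>
    intro Z h
    refine (h Z fun _ _ h => h).congr fun C _ _ N => ?_
    simp
  | insert x S hx ih =>
    intro Z h
    have h1 : Has P (R := R) fun C _ _ N => (GLc R K Z C N ∧ ∀ a ∈ S, IsUnit (N a)) ∧
        aeval N (X x : MvPolynomial (K × K) R) = 0 := by
      refine (ih (fun a b => Z a b ∨ (a, b) = x) fun Z' hZ' => h Z' fun a b hab =>
        hZ' a b (Or.inl hab)).congr fun C _ _ N => ?_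
      unfold GLc
      rw [aeval_X]
      constructor
      · rintro ⟨⟨h2, h3⟩, h4⟩
        exact ⟨⟨⟨fun a b hab => h2 a b (Or.inl hab), h3⟩, h4⟩, h2 x.1 x.2 (Or.inr rfl)⟩
      · rintro ⟨⟨⟨h2, h3⟩, h4⟩, h5⟩
        refine ⟨⟨fun a b hab => ?_, h3⟩, h4⟩
        rcases hab with hab | hab
        · exact h2 a b hab
        · rw [hab]
          exact h5
    refine (has_open hP (ih Z h) _ h1).congr fun C _ _ N => ?_
    rw [aeval_X]
    constructor
    · rintro ⟨⟨h2, h3⟩, h4⟩
      refine ⟨h2, fun a ha => ?_⟩
      rcases Finset.mem_insert.mp ha with rfl | ha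
      · exact h4
      · exact h3 a ha
    · rintro ⟨h2, h3⟩
      exact ⟨⟨h2, fun a ha => h3 a (Finset.mem_insert_of_mem ha)⟩,
        h3 x (Finset.mem_insert_self _ _)⟩

/-- the pieces with two units, and the matrix before the splitting -/
lemma split_iso (q : K) (S : K → Prop) (Z : K → K → Prop) :
    ∃ p : (K ⊕ Unit) × (K ⊕ Unit) → MvPolynomial ((K × K) ⊕ (Unit ⊕ Unit)) R,
      (∀ (C : Type) [CommRing C] [Algebra R C] (u : (K × K) ⊕ (Unit ⊕ Unit) → C),
        ((GLc R K Z C fun s => u (Sum.inl s)) ∧ ∀ x, IsUnit (u (Sum.inr x))) →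
        (GLc R (K ⊕ Unit) (SZ Z q S) C fun s => aeval u (p s)) ∧
          ∀ x ∈ ({(Sum.inr (), Sum.inl q), (Sum.inr (), Sum.inr ())} :
            Finset ((K ⊕ Unit) × (K ⊕ Unit))), IsUnit (aeval u (p x))) ∧
      (∀ (C : Type) [CommRing C] [Algebra R C] (N : (K ⊕ Unit) × (K ⊕ Unit) → C),
        (GLc R (K ⊕ Unit) (SZ Z q S) C N ∧
          ∀ x ∈ ({(Sum.inr (), Sum.inl q), (Sum.inr (), Sum.inr ())} :
            Finset ((K ⊕ Unit) × (K ⊕ Unit))), IsUnit (N x)) →
        ∃ u : (K × K) ⊕ (Unit ⊕ Unit) → C,
          ((GLc R K Z C fun s => u (Sum.inl s)) ∧ ∀ x, IsUnit (u (Sum.inr x))) ∧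
          ∀ s, aeval u (p s) = N s) ∧
      ∀ (C : Type) [CommRing C] [Algebra R C] (u u' : (K × K) ⊕ (Unit ⊕ Unit) → C),
        ((GLc R K Z C fun s => u (Sum.inl s)) ∧ ∀ x, IsUnit (u (Sum.inr x))) →
        ((GLc R K Z C fun s => u' (Sum.inl s)) ∧ ∀ x, IsUnit (u' (Sum.inr x))) →
        (∀ s, aeval u (p s) = aeval u' (p s)) → u = u' := by
  classical
  let p : (K ⊕ Unit) × (K ⊕ Unit) → MvPolynomial ((K × K) ⊕ (Unit ⊕ Unit)) R := fun x =>
    SP q S (X (Sum.inr (Sum.inl ()))) (X (Sum.inr (Sum.inr ())))
      (fun a b => X (Sum.inl (a, b))) x.1 x.2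
  have hp : ∀ (C : Type) [CommRing C] [Algebra R C] (u : (K × K) ⊕ (Unit ⊕ Unit) → C),
      (fun s => aeval u (p s)) = fun x => SP q S (u (Sum.inr (Sum.inl ())))
        (u (Sum.inr (Sum.inr ()))) (fun a b => u (Sum.inl (a, b))) x.1 x.2 := by
    intro C _ _ u
    funext x
    have h1 := map_SP (aeval u : MvPolynomial ((K × K) ⊕ (Unit ⊕ Unit)) R →ₐ[R] C).toRingHom
      q S (X (Sum.inr (Sum.inl ()))) (X (Sum.inr (Sum.inr ())))
      (fun a b => X (Sum.inl (a, b))) x.1 x.2
    refine h1.trans ?_
    congr 1
    · exact aeval_X _ _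
    · exact aeval_X _ _
    · funext a b
      exact aeval_X _ _
  have hp' : ∀ (C : Type) [CommRing C] [Algebra R C] (u : (K × K) ⊕ (Unit ⊕ Unit) → C)
      (x : (K ⊕ Unit) × (K ⊕ Unit)), aeval u (p x) = SP q S (u (Sum.inr (Sum.inl ())))
        (u (Sum.inr (Sum.inr ()))) (fun a b => u (Sum.inl (a, b))) x.1 x.2 :=
    fun C _ _ u x => congrFun (hp C u) x
  refine ⟨p, ?_, ?_, ?_⟩
  · intro C _ _ u hu
    obtain ⟨⟨hZ, hd⟩, hun⟩ := hu
    refine ⟨⟨fun a b hab => ?_, ?_⟩, fun x hx => ?_⟩
    · refine (hp' C u (a, b)).trans ?_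
      rcases a with a | a
      · rcases b with b | b
        · change (if b = q ∧ ¬ S a then 0 else u (Sum.inl (a, b))) = 0
          rcases hab with hab | hab
          · split_ifs
            · rfl
            · exact hZ a b hab
          · exact if_pos hab
        · change (if S a then 0 else -(u _ * u (Sum.inl (a, q)))) = 0
          rcases hab with hab | hab
          · split_ifs
            · rfl
            · rw [show u (Sum.inl (a, q)) = 0 from hZ a q hab, mul_zero, neg_zero]
          · exact if_pos hab
      · rcases b with b | b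
        · exact if_neg hab
        · exact hab.elim
    · change IsUnit (Matrix.det fun a b => aeval u (p (a, b)))
      simp only [hp']
      change IsUnit (SP q S _ _ _).det
      rw [det_SP]
      exact ((hun _).mul (hun _)).mul hd
    · rw [hp']
      rcases Finset.mem_insert.mp hx with rfl | hx
      · change IsUnit (if q = q then u (Sum.inr (Sum.inr ())) else 0)
        rw [if_pos rfl]
        exact hun _
      · rw [Finset.mem_singleton.mp hx]
        exact (hun _).mul (hun _)
  · intro C _ _ N hN
    obtain ⟨⟨hZ, hd⟩, hun⟩ := hN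
    have hx : IsUnit (N (Sum.inr (), Sum.inl q)) := hun _ (Finset.mem_insert_self _ _)
    have hy : IsUnit (N (Sum.inr (), Sum.inr ())) :=
      hun _ (Finset.mem_insert_of_mem (Finset.mem_singleton_self _))
    obtain ⟨x', hx'⟩ := hx.exists_right_inv
    obtain ⟨y', hy'⟩ := hy.exists_right_inv
    let u : (K × K) ⊕ (Unit ⊕ Unit) → C := Sum.elim
      (fun x => if x.2 = q ∧ ¬ S x.1 then
        -(N (Sum.inr (), Sum.inl q) * y' * N (Sum.inl x.1, Sum.inr ()))
        else N (Sum.inl x.1, Sum.inl x.2))
      (Sum.elim (fun _ => N (Sum.inr (), Sum.inr ()) * x') fun _ => N (Sum.inr (), Sum.inl q))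
    have hs : IsUnit (N (Sum.inr (), Sum.inr ()) * x') := hy.mul (IsUnit.of_mul_eq_one _
      (by rw [mul_comm]; exact hx'))
    have hpu : ∀ x, aeval u (p x) = N x := by
      rintro ⟨a, b⟩
      rw [hp']
      rcases a with a | a
      · rcases b with b | b
        · change (if b = q ∧ ¬ S a then 0 else if b = q ∧ ¬ S a then _ else
            N (Sum.inl a, Sum.inl b)) = _
          split_ifs with h1
          · exact (hZ (Sum.inl a) (Sum.inl b) (Or.inr h1)).symm
          · rfl
        · change (if S a then 0 else -((N (Sum.inr (), Sum.inr ()) * x') *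
            (if q = q ∧ ¬ S a then -(N (Sum.inr (), Sum.inl q) * y' * N (Sum.inl a, Sum.inr ()))
            else N (Sum.inl a, Sum.inl q)))) = _
          split_ifs with h1 h2
          · exact (hZ (Sum.inl a) (Sum.inr b) (Or.inr h1)).symm
          · calc -((N (Sum.inr (), Sum.inr ()) * x') *
                -(N (Sum.inr (), Sum.inl q) * y' * N (Sum.inl a, Sum.inr ()))) =
                (N (Sum.inr (), Sum.inl q) * x') * (N (Sum.inr (), Sum.inr ()) * y') *
                  N (Sum.inl a, Sum.inr ()) := by ring
              _ = _ := by rw [hx', hy', one_mul, one_mul]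
          · exact absurd ⟨rfl, h1⟩ h2
      · rcases b with b | b
        · change (if b = q then N (Sum.inr (), Sum.inl q) else 0) = _
          split_ifs with h1
          · rw [h1]
          · exact (hZ (Sum.inr a) (Sum.inl b) h1).symm
        · change N (Sum.inr (), Sum.inr ()) * x' * N (Sum.inr (), Sum.inl q) = _
          rw [mul_assoc, mul_comm x', hx', mul_one]
    refine ⟨u, ⟨⟨fun a b hab => ?_, ?_⟩, ?_⟩, hpu⟩
    · change (if b = q ∧ ¬ S a then _ else N (Sum.inl a, Sum.inl b)) = 0
      split_ifs with h1
      · have h2 : N (Sum.inl a, Sum.inr ()) = 0 :=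
          hZ (Sum.inl a) (Sum.inr ()) (Or.inl (by rw [← h1.1]; exact hab))
        rw [h2, mul_zero, neg_zero]
      · exact hZ (Sum.inl a) (Sum.inl b) (Or.inl hab)
    · have h1 : (SP q S (u (Sum.inr (Sum.inl ()))) (u (Sum.inr (Sum.inr ())))
          (fun a b => u (Sum.inl (a, b)))) = fun a b => N (a, b) := by
        funext a b
        exact (hp' C u (a, b)).symm.trans (hpu (a, b))
      have h2 := det_SP q S (u (Sum.inr (Sum.inl ()))) (u (Sum.inr (Sum.inr ())))
        (fun a b => u (Sum.inl (a, b)))
      rw [h1] at h2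
      have h3 : IsUnit (u (Sum.inr (Sum.inl ())) * u (Sum.inr (Sum.inr ())) *
          Matrix.det fun a b => u (Sum.inl (a, b))) := by
        rw [← h2]
        exact hd
      exact isUnit_of_mul_isUnit_right h3
    · rintro (x | x)
      · exact hs
      · exact hx
  · intro C _ _ u u' hu hu' h3
    have h4 : ∀ x : (K ⊕ Unit) × (K ⊕ Unit), SP q S (u (Sum.inr (Sum.inl ())))
        (u (Sum.inr (Sum.inr ()))) (fun a b => u (Sum.inl (a, b))) x.1 x.2 =
        SP q S (u' (Sum.inr (Sum.inl ())))
        (u' (Sum.inr (Sum.inr ()))) (fun a b => u' (Sum.inl (a, b))) x.1 x.2 := fun x => by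
      rw [← hp', ← hp', h3]
    have e1 : u (Sum.inr (Sum.inr ())) = u' (Sum.inr (Sum.inr ())) := by
      have h5 := h4 (Sum.inr (), Sum.inl q)
      change (if q = q then _ else _) = if q = q then _ else _ at h5
      rwa [if_pos rfl, if_pos rfl] at h5
    have e2 : u (Sum.inr (Sum.inl ())) = u' (Sum.inr (Sum.inl ())) := by
      have h5 := h4 (Sum.inr (), Sum.inr ())
      change u _ * u _ = u' _ * u' _ at h5
      rw [e1] at h5
      exact (hu'.2 _).mul_right_cancel h5
    funext x
    rcases x with ⟨a, b⟩ | x | x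
    · by_cases h1 : b = q ∧ ¬ S a
      · obtain ⟨rfl, h2⟩ := h1
        have h5 := h4 (Sum.inl a, Sum.inr ())
        change (if S a then 0 else -(u _ * u _)) = if S a then 0 else -(u' _ * u' _) at h5
        rw [if_neg h2, if_neg h2, e2] at h5
        exact (hu'.2 _).mul_left_cancel (neg_injective h5)
      · have h5 := h4 (Sum.inl a, Sum.inl b)
        change (if b = q ∧ ¬ S a then 0 else u _) = if b = q ∧ ¬ S a then 0 else u' _ at h5
        rwa [if_neg h1, if_neg h1] at h5
    · exact e2
    · exact e1

end pattern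

end Pool.Agent.H57.ZP
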