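import Pool.Agent.H57.ZP.Jou

/-!
# Bordered matrices

From the invertibility loci of a matrix and of two bordered matrices to the zero set of the corner
element in the invertibility locus of the matrix.
-/

set_option autoImplicit false

open CategoryTheory AlgebraicGeometry MvPolynomial Pool.Agent.Y116.UV Pool.Agent.Z125.UN Matrix

namespace Pool.Agent.H57.ZP

section bord

variable {C : Type} [CommRing C] {m : ℕ}

/-- the matrix `(g, r; c, M)` -/
def bord (g : C) (r c : Fin m → C) (M : Matrix (Fin m) (Fin m) C) :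
    Matrix (Fin (m + 1)) (Fin (m + 1)) C :=
  fun i j => Fin.cases (Fin.cases g r j) (fun p => Fin.cases (c p) (M p) j) i

lemma bord_col (a : C) (r : Fin m → C) (M : Matrix (Fin m) (Fin m) C) :
    (bord a r 0 M).det = a * M.det := by
  rw [det_succ_column_zero, Fin.sum_univ_succ]
  have h : ∀ i : Fin m, (-1 : C) ^ ((i.succ : Fin (m + 1)) : ℕ) * bord a r 0 M i.succ 0 *
      ((bord a r 0 M).submatrix i.succ.succAbove Fin.succ).det = 0 := by
    intro i
    have h1 : bord a r 0 M i.succ 0 = 0 := rfl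
    rw [h1, mul_zero, zero_mul]
  rw [Finset.sum_eq_zero fun i _ => h i, add_zero, Fin.val_zero, pow_zero, one_mul]
  congr 1

lemma bord_row (a : C) (c : Fin m → C) (M : Matrix (Fin m) (Fin m) C) :
    (bord a 0 c M).det = a * M.det := by
  rw [det_succ_row_zero, Fin.sum_univ_succ]
  have h : ∀ i : Fin m, (-1 : C) ^ ((i.succ : Fin (m + 1)) : ℕ) * bord a 0 c M 0 i.succ *
      ((bord a 0 c M).submatrix Fin.succ i.succ.succAbove).det = 0 := by
    intro i
    have h1 : bord a 0 c M 0 i.succ = 0 := rfl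
    rw [h1, mul_zero, zero_mul]
  rw [Finset.sum_eq_zero fun i _ => h i, add_zero, Fin.val_zero, pow_zero, one_mul]
  congr 1

lemma bord_corner (g : C) (r c : Fin m → C) (M : Matrix (Fin m) (Fin m) C) :
    (bord g r c M).det = g * M.det + (bord 0 r c M).det := by
  rw [det_succ_row_zero, det_succ_row_zero (bord 0 r c M), Fin.sum_univ_succ, Fin.sum_univ_succ]
  have h1 : bord g r c M 0 0 = g := rfl
  have h2 : bord 0 r c M 0 0 = 0 := rfl
  have h3 : (bord g r c M).submatrix Fin.succ (Fin.succAbove 0) = M := rfl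
  rw [h1, h2, h3, Fin.val_zero, pow_zero, one_mul, mul_zero, zero_mul, zero_add]
  rfl

lemma bord_mul (g : C) (r c : Fin m → C) (M : Matrix (Fin m) (Fin m) C) :
    (bord g r (M *ᵥ c) M).det = (g - ∑ i, r i * c i) * M.det := by
  have h : bord g r (M *ᵥ c) M = bord (g - ∑ i, r i * c i) r 0 M * bord 1 0 c 1 := by
    ext i j
    rw [mul_apply, Fin.sum_univ_succ]
    refine Fin.cases ?_ (fun p => ?_) i
    · refine Fin.cases ?_ (fun q => ?_) j
      · change g = (g - ∑ i, r i * c i) * 1 + ∑ i, r i * c i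
        ring
      · change r q = (g - ∑ i, r i * c i) * 0 + ∑ i, r i * (1 : Matrix (Fin m) (Fin m) C) i q
        rw [mul_zero, zero_add]
        simp [one_apply]
    · refine Fin.cases ?_ (fun q => ?_) j
      · change (M *ᵥ c) p = 0 * 1 + ∑ i, M p i * c i
        rw [zero_mul, zero_add]
        rfl
      · change M p q = 0 * 0 + ∑ i, M p i * (1 : Matrix (Fin m) (Fin m) C) i q
        rw [mul_zero, zero_add]
        simp [one_apply]
  rw [h, det_mul, bord_col, bord_row, det_one, mul_one, mul_one]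

lemma map_bord {D : Type} [CommRing D] (f : C →+* D) (g : C) (r c : Fin m → C)
    (M : Matrix (Fin m) (Fin m) C) :
    f (bord g r c M).det = (bord (f g) (fun i => f (r i)) (fun i => f (c i))
      fun i j => f (M i j)).det := by
  rw [RingHom.map_det]
  congr 1
  ext i j
  refine Fin.cases ?_ (fun p => ?_) i
  · refine Fin.cases ?_ (fun q => ?_) j
    · rfl
    · rfl
  · refine Fin.cases ?_ (fun q => ?_) j
    · rfl
    · rfl

end bord

variable {R : Type} [CommRing R] {sep : Prop} {P : Sch R → Prop}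

lemma quad (hP : Bnd sep P) {σ : Type} [Finite σ] {F : Cond R σ} (hF : Has P F)
    (g : MvPolynomial σ R) (n : ℕ)
    (h : Has P (R := R) fun C _ _ (u : σ ⊕ (Fin n ⊕ Fin n) → C) =>
      (F C fun s => u (Sum.inl s)) ∧
        ∑ i, u (Sum.inr (Sum.inl i)) * u (Sum.inr (Sum.inr i)) =
          aeval (fun s => u (Sum.inl s)) g) :
    Has P (R := R) fun C _ _ u => F C u ∧ aeval u g = 0 := by
  induction n with
  | zero =>
    refine h.iso hP (hF.rep.and (rep_eq g)) (Sum.elim X (Sum.elim (fun i => i.elim0)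
      fun i => i.elim0)) ?_ ?_ ?_
    · intro C _ _ u hu
      simp only [Sum.elim_inl, aeval_X, Finset.univ_eq_empty, Finset.sum_empty]
      exact ⟨hu.1, hu.2.symm⟩
    · intro C _ _ u hu
      refine ⟨fun s => u (Sum.inl s), ⟨hu.1, ?_⟩, ?_⟩
      · rw [← hu.2]
        simp
      · rintro (s | i | i)
        · simp only [Sum.elim_inl, aeval_X]
        · exact i.elim0
        · exact i.elim0
    · intro C _ _ u u' _ _ h3
      funext x
      simpa only [Sum.elim_inl, aeval_X] using h3 (Sum.inl x)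
  | succ n ih =>
    apply ih
    have hrep : IsRep (R := R) fun C _ _ (u : σ ⊕ (Fin (n + 1) ⊕ Fin (n + 1)) → C) =>
        ((F C fun s => u (Sum.inl s)) ∧
        ∑ i, u (Sum.inr (Sum.inl i)) * u (Sum.inr (Sum.inr i)) =
          aeval (fun s => u (Sum.inl s)) g) ∧
          IsUnit (aeval u (X (Sum.inr (Sum.inl 0)) :
            MvPolynomial (σ ⊕ (Fin (n + 1) ⊕ Fin (n + 1))) R)) := h.rep.and (rep_unit _)
    have ho : Has P (R := R) fun C _ _ (u : σ ⊕ (Fin (n + 1) ⊕ Fin (n + 1)) → C) =>
        ((F C fun s => u (Sum.inl s)) ∧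
        ∑ i, u (Sum.inr (Sum.inl i)) * u (Sum.inr (Sum.inr i)) =
          aeval (fun s => u (Sum.inl s)) g) ∧
          IsUnit (aeval u (X (Sum.inr (Sum.inl 0)) :
            MvPolynomial (σ ⊕ (Fin (n + 1) ⊕ Fin (n + 1))) R)) := by
      refine (has_gm hP (has_space hP (Fin n ⊕ Fin n) hF)).iso hP hrep
        (Sum.elim (Sum.elim (fun s => X (Sum.inl s)) (Sum.elim
          (fun i => X (Sum.inr (Sum.inl i.succ))) fun i => X (Sum.inr (Sum.inr i.succ))))
          fun _ => X (Sum.inr (Sum.inl 0))) ?_ ?_ ?_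
      · intro C _ _ u hu
        simp only [Sum.elim_inl, Sum.elim_inr, aeval_X]
        refine ⟨hu.1.1, ?_⟩
        have h4 := hu.2
        rwa [aeval_X] at h4
      · intro C _ _ u hu
        obtain ⟨t, ht⟩ := hu.2.exists_right_inv
        refine ⟨Sum.elim (fun s => u (Sum.inl (Sum.inl s))) (Sum.elim
          (Fin.cons (u (Sum.inr ())) fun i => u (Sum.inl (Sum.inr (Sum.inl i))))
          (Fin.cons (t * (aeval (fun s => u (Sum.inl (Sum.inl s))) g -
            ∑ i, u (Sum.inl (Sum.inr (Sum.inl i))) * u (Sum.inl (Sum.inr (Sum.inr i)))))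
            fun i => u (Sum.inl (Sum.inr (Sum.inr i))))), ⟨⟨hu.1, ?_⟩, ?_⟩, ?_⟩
        · rw [Fin.sum_univ_succ]
          simp only [Sum.elim_inl, Sum.elim_inr, Fin.cons_zero, Fin.cons_succ]
          rw [← mul_assoc, ht]
          ring
        · rw [aeval_X]
          simp only [Sum.elim_inl, Sum.elim_inr, Fin.cons_zero]
          exact hu.2
        · rintro ((s | i | i) | t)
          · simp only [Sum.elim_inl, Sum.elim_inr, aeval_X]
          · simp only [Sum.elim_inl, Sum.elim_inr, aeval_X, Fin.cons_succ]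
          · simp only [Sum.elim_inl, Sum.elim_inr, aeval_X, Fin.cons_succ]
          · simp only [Sum.elim_inl, Sum.elim_inr, aeval_X, Fin.cons_zero]
      · intro C _ _ u u' hu hu' h3
        have e1 : ∀ s, u (Sum.inl s) = u' (Sum.inl s) := fun s => by
          simpa only [Sum.elim_inl, aeval_X] using h3 (Sum.inl (Sum.inl s))
        have e2 : ∀ i : Fin n, u (Sum.inr (Sum.inl i.succ)) = u' (Sum.inr (Sum.inl i.succ)) := by
          intro i
          have h4 := h3 (Sum.inl (Sum.inr (Sum.inl i)))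
          simpa only [Sum.elim_inl, Sum.elim_inr, aeval_X] using h4
        have e3 : ∀ i : Fin n, u (Sum.inr (Sum.inr i.succ)) = u' (Sum.inr (Sum.inr i.succ)) := by
          intro i
          have h4 := h3 (Sum.inl (Sum.inr (Sum.inr i)))
          simpa only [Sum.elim_inl, Sum.elim_inr, aeval_X] using h4
        have e4 : u (Sum.inr (Sum.inl 0)) = u' (Sum.inr (Sum.inl 0)) := by
          simpa only [Sum.elim_inl, Sum.elim_inr, aeval_X] using h3 (Sum.inr ())
        have e5 : u (Sum.inr (Sum.inr 0)) = u' (Sum.inr (Sum.inr 0)) := by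
          have h5 := hu.1.2
          have h6 := hu'.1.2
          rw [Fin.sum_univ_succ] at h5 h6
          have h7 : (fun s => u (Sum.inl s)) = fun s => u' (Sum.inl s) := funext e1
          rw [h7, ← h6] at h5
          simp only [e2, e3] at h5
          have h8 := add_right_cancel h5
          rw [e4] at h8
          have h9 := hu'.2
          rw [aeval_X] at h9
          exact h9.mul_left_cancel h8
        funext x
        rcases x with s | i | i
        · exact e1 s
        · refine Fin.cases ?_ (fun i => ?_) i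
          · exact e4
          · exact e2 i
        · refine Fin.cases ?_ (fun i => ?_) i
          · exact e5
          · exact e3 i
    have hc := has_closed hP h (X (Sum.inr (Sum.inl 0))) ho
    have hF2 : IsRep (R := R) fun C _ _ (u : σ ⊕ (Fin n ⊕ Fin n) → C) =>
      (F C fun s => u (Sum.inl s)) ∧
        ∑ i, u (Sum.inr (Sum.inl i)) * u (Sum.inr (Sum.inr i)) =
          aeval (fun s => u (Sum.inl s)) g := by
      refine ((hF.rep.reindex Sum.inl).and (rep_eq (∑ i, X (Sum.inr (Sum.inl i)) *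
        X (Sum.inr (Sum.inr i)) - rename Sum.inl g))).congr fun C _ _ u => ?_
      rw [map_sub, map_sum, sub_eq_zero]
      simp only [map_mul, aeval_rename, aeval_X]
      rfl
    apply of_space hP Unit hF2
    refine hc.iso hP (hF2.reindex Sum.inl) (Sum.elim (fun s => X (Sum.inl (Sum.inl s))) (Sum.elim
      (Fin.cons 0 fun i => X (Sum.inl (Sum.inr (Sum.inl i))))
      (Fin.cons (X (Sum.inr ())) fun i => X (Sum.inl (Sum.inr (Sum.inr i)))))) ?_ ?_ ?_
    · intro C _ _ u hu
      refine ⟨?_, ?_⟩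
      · simp only [Sum.elim_inl, Sum.elim_inr, aeval_X]
        refine ⟨hu.1, ?_⟩
        rw [Fin.sum_univ_succ]
        simp only [Fin.cons_zero, Fin.cons_succ, map_zero, zero_mul, zero_add, aeval_X]
        exact hu.2
      · rw [aeval_X]
        simp only [Sum.elim_inl, Sum.elim_inr, Fin.cons_zero, map_zero]
    · intro C _ _ u hu
      have h0 := hu.2
      rw [aeval_X] at h0
      refine ⟨Sum.elim (Sum.elim (fun s => u (Sum.inl s)) (Sum.elim
        (fun i => u (Sum.inr (Sum.inl i.succ))) fun i => u (Sum.inr (Sum.inr i.succ))))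
        fun _ => u (Sum.inr (Sum.inr 0)), ⟨hu.1.1, ?_⟩, ?_⟩
      · have h1 := hu.1.2
        rw [Fin.sum_univ_succ, h0, zero_mul, zero_add] at h1
        exact h1
      · rintro (s | i | i)
        · simp only [Sum.elim_inl, aeval_X]
        · refine Fin.cases ?_ (fun i => ?_) i
          · simp only [Sum.elim_inl, Sum.elim_inr, Fin.cons_zero, map_zero]
            exact h0.symm
          · simp only [Sum.elim_inl, Sum.elim_inr, Fin.cons_succ, aeval_X]
        · refine Fin.cases ?_ (fun i => ?_) i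
          · simp only [Sum.elim_inr, Fin.cons_zero, aeval_X]
          · simp only [Sum.elim_inl, Sum.elim_inr, Fin.cons_succ, aeval_X]
    · intro C _ _ u u' _ _ h3
      funext x
      rcases x with (s | i | i) | t
      · simpa only [Sum.elim_inl, aeval_X] using h3 (Sum.inl s)
      · simpa only [Sum.elim_inl, Sum.elim_inr, Fin.cons_succ, aeval_X] using
          h3 (Sum.inr (Sum.inl i.succ))
      · simpa only [Sum.elim_inl, Sum.elim_inr, Fin.cons_succ, aeval_X] using
          h3 (Sum.inr (Sum.inr i.succ))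
      · simpa only [Sum.elim_inr, Fin.cons_zero, aeval_X] using h3 (Sum.inr (Sum.inr 0))

section step

variable {σ : Type} {m : ℕ}

/-- the values of a matrix of polynomials -/
noncomputable def ev {C : Type} [CommRing C] [Algebra R C] (M : Matrix (Fin m) (Fin m) (MvPolynomial σ R))
    (u : σ → C) : Matrix (Fin m) (Fin m) C := fun i j => aeval u (M i j)

lemma aeval_det {C : Type} [CommRing C] [Algebra R C]
    (M : Matrix (Fin m) (Fin m) (MvPolynomial σ R)) (u : σ → C) :
    aeval u M.det = (ev M u).det := by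
  rw [AlgHom.map_det]
  rfl

/-- the determinant of the bordered matrix -/
noncomputable def bdet (M : Matrix (Fin m) (Fin m) (MvPolynomial σ R)) (g : MvPolynomial σ R) :
    MvPolynomial (σ ⊕ (Fin m ⊕ Fin m)) R :=
  (bord (rename Sum.inl g) (fun i => X (Sum.inr (Sum.inl i))) (fun i => X (Sum.inr (Sum.inr i)))
    fun i j => rename Sum.inl (M i j)).det

lemma aeval_bdet {C : Type} [CommRing C] [Algebra R C]
    (M : Matrix (Fin m) (Fin m) (MvPolynomial σ R)) (g : MvPolynomial σ R)
    (u : σ ⊕ (Fin m ⊕ Fin m) → C) : aeval u (bdet M g) =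
      (bord (aeval (fun s => u (Sum.inl s)) g) (fun i => u (Sum.inr (Sum.inl i)))
        (fun i => u (Sum.inr (Sum.inr i))) (ev M fun s => u (Sum.inl s))).det := by
  have h := map_bord (aeval u : MvPolynomial (σ ⊕ (Fin m ⊕ Fin m)) R →ₐ[R] C).toRingHom
    (rename Sum.inl g) (fun i => X (Sum.inr (Sum.inl i))) (fun i => X (Sum.inr (Sum.inr i)))
    fun i j => rename Sum.inl (M i j)
  change aeval u (bdet M g) = _ at h
  rw [h]
  congr 1
  have h1 : ∀ i, aeval u (X i : MvPolynomial (σ ⊕ (Fin m ⊕ Fin m)) R) = u i := fun i => aeval_X _ _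
  have h2 : ∀ p : MvPolynomial σ R, aeval u (rename Sum.inl p) = aeval (fun s => u (Sum.inl s)) p :=
    fun p => aeval_rename _ _ _
  congr 1
  · exact h2 g
  · funext i
    exact h1 _
  · funext i
    exact h1 _
  · funext i j
    exact h2 _

/-- the determinant of the bordered matrix with a variable in the corner -/
noncomputable def wdet (M : Matrix (Fin m) (Fin m) (MvPolynomial σ R)) :
    MvPolynomial ((σ ⊕ (Fin m ⊕ Fin m)) ⊕ Unit) R :=
  (bord (X (Sum.inr ())) (fun i => X (Sum.inl (Sum.inr (Sum.inl i))))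
    (fun i => X (Sum.inl (Sum.inr (Sum.inr i))))
    fun i j => rename (fun s => Sum.inl (Sum.inl s)) (M i j)).det

lemma aeval_wdet {C : Type} [CommRing C] [Algebra R C]
    (M : Matrix (Fin m) (Fin m) (MvPolynomial σ R)) (u : (σ ⊕ (Fin m ⊕ Fin m)) ⊕ Unit → C) :
    aeval u (wdet M) =
      (bord (u (Sum.inr ())) (fun i => u (Sum.inl (Sum.inr (Sum.inl i))))
        (fun i => u (Sum.inl (Sum.inr (Sum.inr i))))
        (ev M fun s => u (Sum.inl (Sum.inl s)))).det := by
  have h := map_bord (aeval u : MvPolynomial ((σ ⊕ (Fin m ⊕ Fin m)) ⊕ Unit) R →ₐ[R] C).toRingHom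
    (X (Sum.inr ())) (fun i => X (Sum.inl (Sum.inr (Sum.inl i))))
    (fun i => X (Sum.inl (Sum.inr (Sum.inr i))))
    fun i j => rename (fun s => Sum.inl (Sum.inl s)) (M i j)
  change aeval u (wdet M) = _ at h
  rw [h]
  congr 1
  have h1 : ∀ i, aeval u (X i : MvPolynomial ((σ ⊕ (Fin m ⊕ Fin m)) ⊕ Unit) R) = u i :=
    fun i => aeval_X _ _
  have h2 : ∀ p : MvPolynomial σ R, aeval u (rename (fun s => Sum.inl (Sum.inl s)) p) =
      aeval (fun s => u (Sum.inl (Sum.inl s))) p := fun p => aeval_rename _ _ _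
  congr 1
  · exact h1 _
  · funext i
    exact h1 _
  · funext i
    exact h1 _
  · funext i j
    exact h2 _

/-- **The zero set of the corner element.** -/
theorem step (hP : Bnd sep P) [Finite σ] {F : Cond R σ} (hF : IsRep F)
    (M : Matrix (Fin m) (Fin m) (MvPolynomial σ R)) (g : MvPolynomial σ R)
    (h0 : Has P (R := R) fun C _ _ (u : σ ⊕ (Fin m ⊕ Fin m) → C) =>
      (F C fun s => u (Sum.inl s)) ∧ IsUnit (bord (aeval (fun s => u (Sum.inl s)) g)
        (fun i => u (Sum.inr (Sum.inl i))) (fun i => u (Sum.inr (Sum.inr i)))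
          (ev M fun s => u (Sum.inl s))).det)
    (h1 : Has P (R := R) fun C _ _ (u : (σ ⊕ (Fin m ⊕ Fin m)) ⊕ Unit → C) =>
      (F C fun s => u (Sum.inl (Sum.inl s))) ∧ IsUnit (bord (u (Sum.inr ()))
        (fun i => u (Sum.inl (Sum.inr (Sum.inl i)))) (fun i => u (Sum.inl (Sum.inr (Sum.inr i))))
        (ev M fun s => u (Sum.inl (Sum.inl s)))).det)
    (h2 : Has P (R := R) fun C _ _ u => F C u ∧ IsUnit (ev M u).det) :
    Has P (R := R) fun C _ _ u => (F C u ∧ IsUnit (ev M u).det) ∧ aeval u g = 0 := by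
  have hB : ∀ {C : Type} [CommRing C] [Algebra R C] (B : Matrix (Fin m) (Fin m) C)
      (_ : IsUnit B.det) (x : Fin m → C), B *ᵥ (B⁻¹ *ᵥ x) = x := by
    intro C _ _ B hB x
    rw [mulVec_mulVec, mul_nonsing_inv _ hB, one_mulVec]
  have hB2 : ∀ {C : Type} [CommRing C] [Algebra R C] (B : Matrix (Fin m) (Fin m) C)
      (_ : IsUnit B.det) (x y : Fin m → C), B *ᵥ x = B *ᵥ y → x = y := by
    intro C _ _ B hB x y h
    have h3 := congrArg (B⁻¹ *ᵥ ·) h
    simpa only [mulVec_mulVec, nonsing_inv_mul _ hB, one_mulVec] using h3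
  -- the open part of the second locus
  have s1 : Has P (R := R) fun C _ _ (u : (σ ⊕ (Fin m ⊕ Fin m)) ⊕ Unit → C) =>
      ((F C fun s => u (Sum.inl (Sum.inl s))) ∧ IsUnit (bord (u (Sum.inr ()))
        (fun i => u (Sum.inl (Sum.inr (Sum.inl i)))) (fun i => u (Sum.inl (Sum.inr (Sum.inr i))))
        (ev M fun s => u (Sum.inl (Sum.inl s)))).det) ∧
        IsUnit (aeval u (rename (fun s => Sum.inl (Sum.inl s)) M.det :
          MvPolynomial ((σ ⊕ (Fin m ⊕ Fin m)) ⊕ Unit) R)) := by
    let p : (σ ⊕ (Fin m ⊕ Fin m)) ⊕ Unit → MvPolynomial ((σ ⊕ (Fin m ⊕ Fin m)) ⊕ Unit) R :=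
      Sum.elim (Sum.elim (fun s => X (Sum.inl (Sum.inl s))) (Sum.elim
        (fun i => X (Sum.inl (Sum.inr (Sum.inl i))))
        fun i => ∑ j, rename (fun s => Sum.inl (Sum.inl s)) (M i j) *
          X (Sum.inl (Sum.inr (Sum.inr j)))))
        fun _ => X (Sum.inr ()) + ∑ j, X (Sum.inl (Sum.inr (Sum.inl j))) *
          X (Sum.inl (Sum.inr (Sum.inr j)))
    have hp : ∀ (C : Type) [CommRing C] [Algebra R C] (u : (σ ⊕ (Fin m ⊕ Fin m)) ⊕ Unit → C),
        (fun s => aeval u (p s)) = Sum.elim (Sum.elim (fun s => u (Sum.inl (Sum.inl s))) (Sum.elim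
          (fun i => u (Sum.inl (Sum.inr (Sum.inl i))))
          ((ev M fun s => u (Sum.inl (Sum.inl s))) *ᵥ
            fun j => u (Sum.inl (Sum.inr (Sum.inr j))))))
          fun _ => u (Sum.inr ()) + ∑ j, u (Sum.inl (Sum.inr (Sum.inl j))) *
            u (Sum.inl (Sum.inr (Sum.inr j))) := by
      intro C _ _ u
      funext x
      rcases x with (s | i | i) | t
      · exact aeval_X _ _
      · exact aeval_X _ _
      · change aeval u (∑ j, rename (fun s => Sum.inl (Sum.inl s)) (M i j) *
          X (Sum.inl (Sum.inr (Sum.inr j)))) = _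
        rw [map_sum]
        simp only [map_mul, aeval_rename, aeval_X]
        rfl
      · change aeval u (X (Sum.inr ()) + ∑ j, X (Sum.inl (Sum.inr (Sum.inl j))) *
          X (Sum.inl (Sum.inr (Sum.inr j)))) = _
        rw [map_add, map_sum]
        simp only [map_mul, aeval_X]
        rfl
    refine Has.iso' hP (h1.rep.and (rep_unit _)) (has_gm hP (has_space hP (Fin m ⊕ Fin m) h2))
      p ?_ ?_ ?_
    · intro C _ _ u hu
      rw [hp]
      simp only [Sum.elim_inl, Sum.elim_inr, aeval_rename, aeval_det]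
      refine ⟨⟨hu.1.1, ?_⟩, hu.1.2⟩
      rw [bord_mul, add_sub_cancel_right]
      exact hu.2.mul hu.1.2
    · intro C _ _ u hu
      have hd : IsUnit (ev M fun s => u (Sum.inl (Sum.inl s))).det := by
        have h3 := hu.2
        rwa [aeval_rename, aeval_det] at h3
      set B := ev M fun s => u (Sum.inl (Sum.inl s)) with hBdef
      let c : Fin m → C := B⁻¹ *ᵥ fun i => u (Sum.inl (Sum.inr (Sum.inr i)))
      have hc : B *ᵥ c = fun i => u (Sum.inl (Sum.inr (Sum.inr i))) := hB B hd _
      refine ⟨Sum.elim (Sum.elim (fun s => u (Sum.inl (Sum.inl s))) (Sum.elim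
        (fun i => u (Sum.inl (Sum.inr (Sum.inl i)))) c)) fun _ => u (Sum.inr ()) -
          ∑ j, u (Sum.inl (Sum.inr (Sum.inl j))) * c j, ⟨⟨hu.1.1, hd⟩, ?_⟩, ?_⟩
      · have h3 := hu.1.2
        rw [← hc, bord_mul] at h3
        exact isUnit_of_mul_isUnit_left h3
      · intro s
        refine (congrFun (hp C _) s).trans ?_
        rcases s with (s | i | i) | t
        · rfl
        · rfl
        · exact congrFun hc i
        · exact sub_add_cancel _ _
    · intro C _ _ u u' hu hu' h3
      have h4 := (hp C u).symm.trans ((funext h3).trans (hp C u'))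
      have e1 : ∀ s, u (Sum.inl (Sum.inl s)) = u' (Sum.inl (Sum.inl s)) :=
        fun s => congrFun h4 (Sum.inl (Sum.inl s))
      have e2 : ∀ i, u (Sum.inl (Sum.inr (Sum.inl i))) = u' (Sum.inl (Sum.inr (Sum.inl i))) :=
        fun i => congrFun h4 (Sum.inl (Sum.inr (Sum.inl i)))
      have e3 : (fun j => u (Sum.inl (Sum.inr (Sum.inr j)))) =
          fun j => u' (Sum.inl (Sum.inr (Sum.inr j))) := by
        apply hB2 _ hu'.1.2
        funext i
        have h5 := congrFun h4 (Sum.inl (Sum.inr (Sum.inr i)))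
        simp only [Sum.elim_inl, Sum.elim_inr] at h5
        rw [funext e1] at h5
        exact h5
      have e4 : u (Sum.inr ()) = u' (Sum.inr ()) := by
        have h5 := congrFun h4 (Sum.inr ())
        simp only [Sum.elim_inr] at h5
        simp only [e2, congrFun e3 _] at h5
        exact add_right_cancel h5
      funext x
      rcases x with (s | i | i) | t
      · exact e1 s
      · exact e2 i
      · exact congrFun e3 i
      · exact e4
  -- the closed part of the second locus
  have s2 := has_closed hP h1 _ s1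
  have s3 : Has P (R := R) fun C _ _ (u : σ ⊕ (Fin m ⊕ Fin m) → C) =>
      ((F C fun s => u (Sum.inl s)) ∧ IsUnit (bord 0
        (fun i => u (Sum.inr (Sum.inl i))) (fun i => u (Sum.inr (Sum.inr i)))
          (ev M fun s => u (Sum.inl s))).det) ∧
        aeval u (rename Sum.inl M.det : MvPolynomial (σ ⊕ (Fin m ⊕ Fin m)) R) = 0 := by
    refine of_space hP Unit (((hF.reindex Sum.inl).and ((rep_unit (bdet M 0)).congr
      fun C _ _ u => ?_)).and (rep_eq _)) (s2.congr fun C _ _ u => ?_)
    · rw [aeval_bdet, map_zero]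
    · simp only [aeval_rename, aeval_det]
      constructor
      · rintro ⟨⟨h3, h4⟩, h5⟩
        refine ⟨⟨h3, ?_⟩, h5⟩
        rw [bord_corner] at h4
        have h6 : (ev M fun s => u (Sum.inl (Sum.inl s))).det = 0 := h5
        rw [h6, mul_zero, zero_add] at h4
        exact h4
      · rintro ⟨⟨h3, h4⟩, h5⟩
        refine ⟨⟨h3, ?_⟩, h5⟩
        rw [bord_corner]
        have h6 : (ev M fun s => u (Sum.inl (Sum.inl s))).det = 0 := h5
        rw [h6, mul_zero, zero_add]
        exact h4
  -- the closed part and the open part of the first locus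
  have s4 : Has P (R := R) fun C _ _ (u : σ ⊕ (Fin m ⊕ Fin m) → C) =>
      ((F C fun s => u (Sum.inl s)) ∧ IsUnit (bord (aeval (fun s => u (Sum.inl s)) g)
        (fun i => u (Sum.inr (Sum.inl i))) (fun i => u (Sum.inr (Sum.inr i)))
          (ev M fun s => u (Sum.inl s))).det) ∧
        aeval u (rename Sum.inl M.det : MvPolynomial (σ ⊕ (Fin m ⊕ Fin m)) R) = 0 := by
    refine s3.congr fun C _ _ u => ?_
    simp only [aeval_rename, aeval_det]
    constructor
    · rintro ⟨⟨h3, h4⟩, h5⟩
      refine ⟨⟨h3, ?_⟩, h5⟩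
      rw [bord_corner]
      have h6 : (ev M fun s => u (Sum.inl s)).det = 0 := h5
      rw [h6, mul_zero, zero_add]
      exact h4
    · rintro ⟨⟨h3, h4⟩, h5⟩
      refine ⟨⟨h3, ?_⟩, h5⟩
      rw [bord_corner] at h4
      have h6 : (ev M fun s => u (Sum.inl s)).det = 0 := h5
      rw [h6, mul_zero, zero_add] at h4
      exact h4
  have s5 := has_open hP h0 _ s4
  have s6 : Has P (R := R) fun C _ _ (u : σ ⊕ (Fin m ⊕ Fin m) → C) =>
      ((F C fun s => u (Sum.inl s)) ∧ IsUnit (ev M fun s => u (Sum.inl s)).det) ∧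
        aeval u (bdet M g) = 0 := by
    refine has_closed hP (has_space hP (Fin m ⊕ Fin m) h2) (bdet M g) (s5.congr fun C _ _ u => ?_)
    rw [aeval_bdet, aeval_rename, aeval_det]
    constructor
    · rintro ⟨⟨h3, h4⟩, h5⟩
      exact ⟨⟨h3, h5⟩, h4⟩
    · rintro ⟨⟨h3, h4⟩, h5⟩
      exact ⟨⟨h3, h5⟩, h4⟩
  -- the quadric
  refine quad hP h2 g m ?_
  let p : σ ⊕ (Fin m ⊕ Fin m) → MvPolynomial (σ ⊕ (Fin m ⊕ Fin m)) R :=
    Sum.elim (fun s => X (Sum.inl s)) (Sum.elim (fun i => X (Sum.inr (Sum.inl i)))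
      fun i => ∑ j, rename Sum.inl (M i j) * X (Sum.inr (Sum.inr j)))
  have hp : ∀ (C : Type) [CommRing C] [Algebra R C] (u : σ ⊕ (Fin m ⊕ Fin m) → C),
      (fun s => aeval u (p s)) = Sum.elim (fun s => u (Sum.inl s)) (Sum.elim
        (fun i => u (Sum.inr (Sum.inl i)))
        ((ev M fun s => u (Sum.inl s)) *ᵥ fun j => u (Sum.inr (Sum.inr j)))) := by
    intro C _ _ u
    funext x
    rcases x with s | i | i
    · exact aeval_X _ _
    · exact aeval_X _ _
    · change aeval u (∑ j, rename Sum.inl (M i j) * X (Sum.inr (Sum.inr j))) = _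
      rw [map_sum]
      simp only [map_mul, aeval_rename, aeval_X]
      rfl
  have hrep : IsRep (R := R) fun C _ _ (u : σ ⊕ (Fin m ⊕ Fin m) → C) =>
      ((F C fun s => u (Sum.inl s)) ∧ IsUnit (ev M fun s => u (Sum.inl s)).det) ∧
        ∑ i, u (Sum.inr (Sum.inl i)) * u (Sum.inr (Sum.inr i)) =
          aeval (fun s => u (Sum.inl s)) g := by
    refine ((h2.rep.reindex Sum.inl).and (rep_eq (∑ i, X (Sum.inr (Sum.inl i)) *
      X (Sum.inr (Sum.inr i)) - rename Sum.inl g))).congr fun C _ _ u => ?_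
    rw [map_sub, map_sum, sub_eq_zero]
    simp only [map_mul, aeval_rename, aeval_X]
    rfl
  refine s6.iso hP hrep p ?_ ?_ ?_
  · intro C _ _ u hu
    rw [hp, aeval_bdet]
    simp only [Sum.elim_inl, Sum.elim_inr]
    refine ⟨hu.1, ?_⟩
    rw [bord_mul, hu.2, sub_self, zero_mul]
  · intro C _ _ u hu
    have hd := hu.1.2
    set B := ev M fun s => u (Sum.inl s) with hBdef
    let c : Fin m → C := B⁻¹ *ᵥ fun i => u (Sum.inr (Sum.inr i))
    have hc : B *ᵥ c = fun i => u (Sum.inr (Sum.inr i)) := hB B hd _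
    refine ⟨Sum.elim (fun s => u (Sum.inl s)) (Sum.elim
      (fun i => u (Sum.inr (Sum.inl i))) c), ⟨hu.1, ?_⟩, ?_⟩
    · have h3 := hu.2
      rw [aeval_bdet, ← hBdef, ← hc, bord_mul] at h3
      have h4 := (hd.mul_left_eq_zero).mp h3
      exact (sub_eq_zero.mp h4).symm
    · intro s
      refine (congrFun (hp C _) s).trans ?_
      rcases s with s | i | i
      · rfl
      · rfl
      · exact congrFun hc i
  · intro C _ _ u u' hu hu' h3
    have h4 := (hp C u).symm.trans ((funext h3).trans (hp C u'))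
    have e1 : ∀ s, u (Sum.inl s) = u' (Sum.inl s) := fun s => congrFun h4 (Sum.inl s)
    have e2 : ∀ i, u (Sum.inr (Sum.inl i)) = u' (Sum.inr (Sum.inl i)) :=
      fun i => congrFun h4 (Sum.inr (Sum.inl i))
    have e3 : (fun j => u (Sum.inr (Sum.inr j))) = fun j => u' (Sum.inr (Sum.inr j)) := by
      apply hB2 _ hu'.1.2
      funext i
      have h5 := congrFun h4 (Sum.inr (Sum.inr i))
      simp only [Sum.elim_inr] at h5
      rw [funext e1] at h5
      exact h5
    funext x
    rcases x with s | i | i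
    · exact e1 s
    · exact e2 i
    · exact congrFun e3 i

end step

end Pool.Agent.H57.ZP
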